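import Mathlib
import Pool.Agent.Y556.TW.SI

/-!
Three affine forms which are simultaneously perfect powers up to units.
-/

namespace Pool.Agent.X61.CU

open Pool.Agent.Helper259.AbsHt Pool.Agent.Y556.TW NumberField IsDedekindDomain

/-- the case of fixed unit parts, in the algebraic numbers -/
theorem pow3_core (n : ℕ) (hn : 2 ≤ n) (c d : Fin 3 → ℚ) (hc : Function.Injective c) :
    {x : ℤ | ∀ i, ∃ y : ℤ, (x : ℚ) + c i = d i * (y : ℚ) ^ n}.Finite := by
  classical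
  -- roots of the coefficients, and a root of unity
  have hroot : ∀ i, ∃ β : Qbar, β ^ n = ((d i : ℚ) : Qbar) := fun i =>
    IsAlgClosed.exists_pow_nat_eq _ (by omega)
  choose β hβ using hroot
  obtain ⟨ζ, hζ1, hζ⟩ : ∃ ζ : Qbar, ζ ≠ 1 ∧ ζ ^ n = 1 := by
    have : NeZero (n : Qbar) := ⟨by
      have : (n : ℕ) ≠ 0 := by omega
      exact_mod_cast this⟩
    obtain ⟨ζ, h⟩ := IsAlgClosed.exists_root (Polynomial.cyclotomic n Qbar)
      (Polynomial.degree_cyclotomic_pos n Qbar (by omega)).ne'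
    rw [Polynomial.isRoot_cyclotomic_iff] at h
    exact ⟨ζ, h.ne_one (by omega), h.pow_eq_one⟩
  -- the field
  obtain ⟨K, hK, -, hmem⟩ := Pool.Agent.Y215.SK.exists_galois (Set.range β ∪ {ζ})
    ((Set.finite_range β).union (Set.finite_singleton ζ))
  have hβK : ∀ i, β i ∈ K := fun i => hmem _ (Or.inl ⟨i, rfl⟩)
  have hζK : ζ ∈ K := hmem _ (Or.inr rfl)
  have hqK : ∀ q : ℚ, ((q : ℚ) : Qbar) ∈ K := fun q => by
    have := K.algebraMap_mem q
    rwa [eq_ratCast] at this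
  -- the bad places
  set B : Set Qbar := Set.range β ∪ {ζ} ∪
    Set.range (fun ij : Fin 3 × Fin 3 => (((c ij.1 - c ij.2)⁻¹ : ℚ) : Qbar)) with hB
  have hBfin : B.Finite := ((Set.finite_range β).union (Set.finite_singleton ζ)).union
    (Set.finite_range _)
  have hBK : ∀ w ∈ B, w ∈ K := by
    rintro w ((⟨i, rfl⟩ | h) | ⟨ij, rfl⟩)
    · exact hβK i
    · rw [Set.mem_singleton_iff] at h
      rw [h]
      exact hζK
    · exact hqK _
  have hS := bad_finite (K := K) B hBfin hBK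
  set S : Set (HeightOneSpectrum (𝓞 K)) := {v | ∃ w ∈ B, w ∉ Ov v} with hSdef
  have hgood : ∀ v, v ∉ S → ∀ w ∈ B, w ∈ Ov v := by
    intro v hv w hw
    by_contra h
    exact hv ⟨w, hw, h⟩
  have hint : ∀ (v : HeightOneSpectrum (𝓞 K)) (y : ℤ), ((y : ℤ) : Qbar) ∈ Ov v := fun v y =>
    intCast_mem (Ov v) y
  have hV := unit_eq (GS S) (GS_fg S hS)
  set V := {u : Qbar | ∃ v ∈ GS S, ∃ w ∈ GS S, u = v ∧ (v : Qbar) + w = 1} with hVdef
  -- the differences are units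
  have hunit : ∀ (i j : Fin 3), i ≠ j → ∀ (y z : ℤ) (η θ : Qbar), η ^ n = 1 → θ ^ n = 1 →
      η ∈ K → θ ∈ K → (∀ v, v ∉ S → η ∈ Ov v) → (∀ v, v ∉ S → θ ∈ Ov v) →
      (d i : ℚ) * (y : ℚ) ^ n - d j * (z : ℚ) ^ n = c i - c j →
      ∃ u ∈ GS S, (u : Qbar) = η * (β i * y) - θ * (β j * z) := by
    intro i j hij y z η θ hη hθ hηK hθK hηv hθv hyz
    set U : Qbar := η * (β i * y) - θ * (β j * z) with hU
    set W : Qbar := ∑ k ∈ Finset.range n, (η * (β i * y)) ^ k * (θ * (β j * z)) ^ (n - 1 - k) with hW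
    have hcij : (((c i - c j : ℚ)) : Qbar) ≠ 0 := by
      have : c i - c j ≠ 0 := sub_ne_zero.2 fun h => hij (hc h)
      exact_mod_cast this
    have hWU : W * U = (((c i - c j : ℚ)) : Qbar) := by
      rw [hW, hU, (Commute.all _ _).geom_sum₂_mul, mul_pow, mul_pow, mul_pow, mul_pow, hη, hθ, hβ, hβ,
        ← hyz]
      push_cast
      ring
    have hU0 : U ≠ 0 := by
      intro h
      rw [h, mul_zero] at hWU
      exact hcij hWU.symm
    have hUinv : U⁻¹ = W * (((c i - c j)⁻¹ : ℚ) : Qbar) := by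
      rw [Rat.cast_inv, ← hWU, mul_inv]
      have hW0 : W ≠ 0 := by
        intro h
        rw [h, zero_mul] at hWU
        exact hcij hWU.symm
      field_simp
    have hYv : ∀ v, v ∉ S → η * (β i * y) ∈ Ov v := fun v hv =>
      (Ov v).mul_mem (hηv v hv) ((Ov v).mul_mem
        (hgood v hv _ (Or.inl (Or.inl ⟨i, rfl⟩))) (hint v y))
    have hZv : ∀ v, v ∉ S → θ * (β j * z) ∈ Ov v := fun v hv =>
      (Ov v).mul_mem (hθv v hv) ((Ov v).mul_mem
        (hgood v hv _ (Or.inl (Or.inl ⟨j, rfl⟩))) (hint v z))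
    have hUK : U ∈ K := K.sub_mem (K.mul_mem hηK (K.mul_mem (hβK i) (intCast_mem K y)))
      (K.mul_mem hθK (K.mul_mem (hβK j) (intCast_mem K z)))
    refine ⟨Units.mk0 U hU0, mem_GS hU0 hUK fun v hv => ⟨(Ov v).sub_mem (hYv v hv) (hZv v hv), ?_⟩,
      rfl⟩
    rw [hUinv]
    refine (Ov v).mul_mem ((Ov v).sum_mem fun k _ => ?_) (hgood v hv _ (Or.inr ⟨(i, j), rfl⟩))
    exact (Ov v).mul_mem ((Ov v).pow_mem (hYv v hv) _) ((Ov v).pow_mem (hZv v hv) _)
  have hone : ∀ v, v ∉ S → (1 : Qbar) ∈ Ov v := fun v _ => (Ov v).one_mem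
  have hζv : ∀ v, v ∉ S → ζ ∈ Ov v := fun v hv => hgood v hv _ (Or.inl (Or.inr rfl))
  -- the map to pairs of solutions of the unit equation
  refine Set.Finite.of_injOn (f := fun x : ℤ => (x : Qbar))
    (t := (fun p : Qbar × Qbar => (((p.2 - p.1) / (1 - ζ)) + p.1) ^ n * (((c 0 - c 1 : ℚ)) : Qbar) /
      ((((p.2 - p.1) / (1 - ζ)) + p.1) ^ n - ((p.2 - p.1) / (1 - ζ)) ^ n) - ((c 0 : ℚ) : Qbar)) ''
      (V ×ˢ V)) ?_ ?_ ((hV.prod hV).image _)
  · intro x hx
    choose y hy using hx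
    have e : ∀ i j : Fin 3, (d i : ℚ) * (y i : ℚ) ^ n - d j * (y j : ℚ) ^ n = c i - c j := by
      intro i j
      rw [← hy i, ← hy j]
      ring
    obtain ⟨u02, hu02, e02⟩ := hunit 0 2 (by decide) (y 0) (y 2) 1 1 (one_pow n) (one_pow n) K.one_mem
      K.one_mem hone hone (e 0 2)
    obtain ⟨u01, hu01, e01⟩ := hunit 0 1 (by decide) (y 0) (y 1) 1 1 (one_pow n) (one_pow n) K.one_mem
      K.one_mem hone hone (e 0 1)
    obtain ⟨u12, hu12, e12⟩ := hunit 1 2 (by decide) (y 1) (y 2) 1 1 (one_pow n) (one_pow n) K.one_mem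
      K.one_mem hone hone (e 1 2)
    obtain ⟨w01, hw01, f01⟩ := hunit 0 1 (by decide) (y 0) (y 1) 1 ζ (one_pow n) hζ K.one_mem
      hζK hone hζv (e 0 1)
    obtain ⟨w12, hw12, f12⟩ := hunit 1 2 (by decide) (y 1) (y 2) ζ 1 hζ (one_pow n) hζK
      K.one_mem hζv hone (e 1 2)
    simp only [one_mul] at e02 e01 e12 f01 f12
    set Y0 : Qbar := β 0 * y 0 with hY0
    set Y1 : Qbar := β 1 * y 1 with hY1
    set Y2 : Qbar := β 2 * y 2 with hY2
    have hu0 : (u02 : Qbar) ≠ 0 := u02.ne_zero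
    have hdiff : Y0 - Y2 ≠ 0 := by rw [← e02]; exact hu0
    refine ⟨((u01 / u02 : Qbarˣ), (w01 / u02 : Qbarˣ)), ⟨?_, ?_⟩, ?_⟩
    · refine ⟨u01 / u02, (GS S).div_mem hu01 hu02, u12 / u02, (GS S).div_mem hu12 hu02, rfl, ?_⟩
      rw [Units.val_div_eq_div_val, Units.val_div_eq_div_val, e01, e12, e02, ← add_div,
        div_eq_one_iff_eq hdiff]
      ring
    · refine ⟨w01 / u02, (GS S).div_mem hw01 hu02, w12 / u02, (GS S).div_mem hw12 hu02, rfl, ?_⟩
      rw [Units.val_div_eq_div_val, Units.val_div_eq_div_val, f01, f12, e02, ← add_div,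
        div_eq_one_iff_eq hdiff]
      ring
    · have h1ζ : (1 : Qbar) - ζ ≠ 0 := sub_ne_zero.2 (Ne.symm hζ1)
      have ht : (((w01 / u02 : Qbarˣ) : Qbar) - ((u01 / u02 : Qbarˣ) : Qbar)) / (1 - ζ) =
          Y1 / (Y0 - Y2) := by
        rw [Units.val_div_eq_div_val, Units.val_div_eq_div_val, e01, f01, e02]
        field_simp
        ring
      have hs : Y1 / (Y0 - Y2) + ((u01 / u02 : Qbarˣ) : Qbar) = Y0 / (Y0 - Y2) := by
        rw [Units.val_div_eq_div_val, e01, e02]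
        field_simp
        ring
      simp only
      rw [ht, hs, div_pow, div_pow, ← sub_div]
      have hY0n : Y0 ^ n = ((x : ℤ) : Qbar) + ((c 0 : ℚ) : Qbar) := by
        rw [hY0, mul_pow, hβ]
        have := congrArg (fun q : ℚ => (q : Qbar)) (hy 0)
        push_cast at this
        exact this.symm
      have hY1n : Y1 ^ n = ((x : ℤ) : Qbar) + ((c 1 : ℚ) : Qbar) := by
        rw [hY1, mul_pow, hβ]
        have := congrArg (fun q : ℚ => (q : Qbar)) (hy 1)
        push_cast at this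
        exact this.symm
      have hsub : Y0 ^ n - Y1 ^ n = (((c 0 - c 1 : ℚ)) : Qbar) := by
        rw [hY0n, hY1n]
        push_cast
        ring
      have hcij : (((c 0 - c 1 : ℚ)) : Qbar) ≠ 0 := by
        have : c 0 - c 1 ≠ 0 := sub_ne_zero.2 fun h => absurd (hc h) (by decide)
        exact_mod_cast this
      have hpn : (Y0 - Y2) ^ n ≠ 0 := pow_ne_zero _ hdiff
      rw [hsub]
      have : Y0 ^ n / (Y0 - Y2) ^ n * (((c 0 - c 1 : ℚ)) : Qbar) /
          ((((c 0 - c 1 : ℚ)) : Qbar) / (Y0 - Y2) ^ n) = Y0 ^ n := by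
        field_simp
      rw [this, hY0n]
      ring
  · intro a _ b _ hab
    have h : ((a : ℤ) : Qbar) = ((b : ℤ) : Qbar) := hab
    exact_mod_cast h

/-- `s` is a nonzero integer all of whose prime factors are in `S` -/
def SInt (S : Finset ℕ) (s : ℤ) : Prop := s ≠ 0 ∧ ∀ p : ℕ, p.Prime → (p : ℤ) ∣ s → p ∈ S

theorem nat_split (S : Finset ℕ) (n m : ℕ) (hn : 0 < n) (hm : m ≠ 0) (hS : ∀ p ∈ S, p.Prime)
    (h : ∀ p : ℕ, p.Prime → p ∣ m → p ∈ S) :
    ∃ d t : ℕ, m = d * t ^ n ∧ d ≤ ∏ p ∈ S, p ^ n := by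
  refine ⟨∏ p ∈ S, p ^ (m.factorization p % n), ∏ p ∈ S, p ^ (m.factorization p / n), ?_, ?_⟩
  · rw [← Finset.prod_pow, ← Finset.prod_mul_distrib]
    have h1 : m = ∏ p ∈ S, p ^ m.factorization p := by
      conv_lhs => rw [← Nat.prod_factorization_pow_eq_self hm]
      rw [Finsupp.prod]
      refine Finset.prod_subset (fun p hp => ?_) fun p _ hp => ?_
      · rw [Nat.support_factorization, Nat.mem_primeFactors] at hp
        exact h p hp.1 hp.2.1
      · rw [Finsupp.notMem_support_iff.1 hp, pow_zero]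
    conv_lhs => rw [h1]
    refine Finset.prod_congr rfl fun p _ => ?_
    rw [← pow_mul, ← pow_add]
    congr 1
    have := Nat.mod_add_div (m.factorization p) n
    rw [Nat.mul_comm (m.factorization p / n) n]
    exact this.symm
  · refine Finset.prod_le_prod' fun p hp => ?_
    exact Nat.pow_le_pow_right (hS p hp).pos (Nat.mod_lt _ hn).le

theorem int_split (S : Finset ℕ) (hS : ∀ p ∈ S, p.Prime) (n : ℕ) (hn : 0 < n) (s : ℤ)
    (h : SInt S s) : ∃ d t : ℤ, s = d * t ^ n ∧ |d| ≤ ((∏ p ∈ S, p ^ n : ℕ) : ℤ) := by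
  obtain ⟨h0, h1⟩ := h
  obtain ⟨d, t, e, hd⟩ := nat_split S n s.natAbs hn (Int.natAbs_ne_zero.2 h0) hS
    fun p hp hps => h1 p hp (Int.natCast_dvd.2 hps)
  refine ⟨s.sign * d, t, ?_, ?_⟩
  · have e' : ((s.natAbs : ℕ) : ℤ) = d * t ^ n := by exact_mod_cast e
    calc s = s.sign * s.natAbs := (Int.sign_mul_natAbs s).symm
      _ = s.sign * d * t ^ n := by rw [e']; ring
  · have hsg : |s.sign| = 1 := by
      rcases lt_or_gt_of_ne h0 with h | h
      · rw [Int.sign_eq_neg_one_of_neg h]; rfl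
      · rw [Int.sign_eq_one_of_pos h]; rfl
    rw [abs_mul, hsg, one_mul, Nat.abs_cast]
    exact_mod_cast hd

/-- **Three forms.** -/
theorem pow3 (n : ℕ) (hn : 2 ≤ n) (S : Finset ℕ) (hS : ∀ p ∈ S, p.Prime) (a b : Fin 3 → ℚ)
    (ha : ∀ i, a i ≠ 0) (hab : ∀ i j, i ≠ j → a i * b j ≠ a j * b i) :
    {x : ℤ | ∀ i, ∃ s y : ℤ, SInt S s ∧ a i * x + b i = s * (y : ℚ) ^ n}.Finite := by
  set D : ℤ := ((∏ p ∈ S, p ^ n : ℕ) : ℤ) with hD
  have hfin : (⋃ d : Fin 3 → Set.Icc (-D) D, {x : ℤ | ∀ i, ∃ y : ℤ,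
      (x : ℚ) + b i / a i = ((d i : ℤ) : ℚ) / a i * (y : ℚ) ^ n}).Finite := by
    refine Set.finite_iUnion fun d => ?_
    refine pow3_core n hn (fun i => b i / a i) (fun i => ((d i : ℤ) : ℚ) / a i) ?_
    intro i j hij
    by_contra hne
    refine hab i j hne ?_
    have h1 : b i / a i = b j / a j := hij
    rw [div_eq_div_iff (ha i) (ha j)] at h1
    linarith
  refine hfin.subset ?_
  intro x hx
  choose s y hs hy using hx
  choose d t hdt hd using fun i => int_split S hS n (by omega) (s i) (hs i)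
  refine Set.mem_iUnion.2 ⟨fun i => ⟨d i, abs_le.1 (hd i)⟩, fun i => ⟨t i * y i, ?_⟩⟩
  have h1 := hy i
  rw [hdt i] at h1
  push_cast at h1 ⊢
  have := ha i
  field_simp
  linear_combination h1

end Pool.Agent.X61.CU
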