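import Mathlib
import Pool.Agent.X61.CU.Pow3

/-!
Self-maps of the integers with finitely many affine branches: words, forms, windows, densities.
-/

namespace Pool.Agent.X61.CU

/-- A self-map of the integers with affine branches. -/
structure PA (ι : Type) where
  f : ℤ → ℤ
  br : ℤ → ι
  al : ι → ℚ
  be : ι → ℚ
  ne : ∀ i, al i ≠ 0
  eq : ∀ x, (f x : ℚ) = al (br x) * x + be (br x)

namespace PA

variable {ι : Type} (M : PA ι)

/-- slope along a word -/
def sl (w : ℕ → ι) : ℕ → ℚ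
  | 0 => 1
  | k + 1 => M.al (w k) * sl w k

/-- constant along a word -/
def co (w : ℕ → ι) : ℕ → ℚ
  | 0 => 0
  | k + 1 => M.al (w k) * co w k + M.be (w k)

/-- the word of `x` -/
def wd (x : ℤ) : ℕ → ι := fun j => M.br (M.f^[j] x)

theorem iter (x : ℤ) (k : ℕ) :
    ((M.f^[k] x : ℤ) : ℚ) = M.sl (M.wd x) k * x + M.co (M.wd x) k := by
  induction k with
  | zero => simp [sl, co]
  | succ k ih =>
    rw [Function.iterate_succ_apply', M.eq, ih]
    simp only [sl, co, wd]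
    ring

theorem sl_ne (w : ℕ → ι) (k : ℕ) : M.sl w k ≠ 0 := by
  induction k with
  | zero => exact one_ne_zero
  | succ k ih => exact mul_ne_zero (M.ne _) ih

theorem comp (w : ℕ → ι) (i k : ℕ) :
    M.sl w (i + k) = M.sl (fun j => w (i + j)) k * M.sl w i ∧
    M.co w (i + k) = M.sl (fun j => w (i + j)) k * M.co w i + M.co (fun j => w (i + j)) k := by
  induction k with
  | zero => simp [sl, co]
  | succ k ih =>
    obtain ⟨h1, h2⟩ := ih
    rw [← add_assoc]
    simp only [sl, co, h1, h2]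
    constructor <;> ring

theorem wd_shift (x : ℤ) (i : ℕ) : (fun j => M.wd x (i + j)) = M.wd (M.f^[i] x) := by
  funext j
  unfold wd
  rw [← Function.iterate_add_apply, Nat.add_comm]

/-- only finitely many affine maps of given length -/
theorem forms_finite [Finite ι] (k : ℕ) : (Set.range fun w : ℕ → ι => (M.sl w k, M.co w k)).Finite := by
  induction k with
  | zero =>
    refine (Set.finite_singleton ((1 : ℚ), (0 : ℚ))).subset ?_
    rintro _ ⟨w, rfl⟩
    rfl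
  | succ k ih =>
    have h := (Set.finite_univ (α := ι)).prod ih
    refine (h.image fun q : ι × ℚ × ℚ =>
      (M.al q.1 * q.2.1, M.al q.1 * q.2.2 + M.be q.1)).subset ?_
    rintro _ ⟨w, rfl⟩
    exact ⟨(w k, M.sl w k, M.co w k), ⟨trivial, ⟨w, rfl⟩⟩, rfl⟩

/-- `r` is not fixed along the trajectory between two visits of `Q` -/
def Free (Q : ℤ → Prop) (r : ℚ) : Prop := ∀ x : ℤ, ∀ k : ℕ, Q x → Q (M.f^[k] x) → 1 ≤ k →
  M.sl (M.wd x) k * r + M.co (M.wd x) k ≠ r

theorem free_forms {Q : ℤ → Prop} {r : ℚ} (h : M.Free Q r) {x : ℤ} {i j : ℕ} (hij : i < j)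
    (hi : Q (M.f^[i] x)) (hj : Q (M.f^[j] x)) :
    M.sl (M.wd x) i * (M.co (M.wd x) j - r) ≠ M.sl (M.wd x) j * (M.co (M.wd x) i - r) := by
  obtain ⟨k, rfl⟩ : ∃ k, j = i + k := ⟨j - i, by omega⟩
  obtain ⟨h1, h2⟩ := M.comp (M.wd x) i k
  rw [M.wd_shift] at h1 h2
  have h3 : Q (M.f^[k] (M.f^[i] x)) := by
    rw [← Function.iterate_add_apply, Nat.add_comm]
    exact hj
  have h4 := h _ k hi h3 (by omega)
  intro h5
  rw [h1, h2] at h5
  have h6 : M.sl (M.wd x) i ≠ 0 := M.sl_ne _ _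
  apply h4
  have h7 : M.sl (M.wd x) i * (M.sl (M.wd (M.f^[i] x)) k * M.co (M.wd x) i +
      M.co (M.wd (M.f^[i] x)) k - r) =
      M.sl (M.wd x) i * (M.sl (M.wd (M.f^[i] x)) k * (M.co (M.wd x) i - r)) := by
    rw [h5]
    ring
  have h8 := mul_left_cancel₀ h6 h7
  linarith

/-- In long windows of trajectories of large integers at most two terms are (up to the shift `r`)
perfect powers times units. -/
theorem window [Finite ι] {Q : ℤ → Prop} {r : ℚ} (h : M.Free Q r) (n : ℕ) (hn : 2 ≤ n) (S : Finset ℕ)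
    (hS : ∀ p ∈ S, p.Prime) (P : ℤ → Prop) (hP : ∀ z, P z → Q z ∧ ∃ s y : ℤ, SInt S s ∧
      (r.den : ℤ) * z - r.num = s * y ^ n) (J : ℕ) :
    {x : ℤ | ∃ i j k : ℕ, i < j ∧ j < k ∧ k < J ∧ P (M.f^[i] x) ∧ P (M.f^[j] x) ∧
      P (M.f^[k] x)}.Finite := by
  have hfin : (⋃ t : Fin J × Fin J × Fin J, ⋃ q ∈ ((Set.range fun w : ℕ → ι => (M.sl w t.1, M.co w t.1)) ×ˢ
      (Set.range fun w : ℕ → ι => (M.sl w t.2.1, M.co w t.2.1)) ×ˢ
      (Set.range fun w : ℕ → ι => (M.sl w t.2.2, M.co w t.2.2))),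
      {x : ℤ | (∀ i j : Fin 3, i ≠ j → (r.den * (![q.1.1, q.2.1.1, q.2.2.1] : Fin 3 → ℚ) i) *
        (r.den * (![q.1.2, q.2.1.2, q.2.2.2] : Fin 3 → ℚ) j - r.num) ≠
        (r.den * (![q.1.1, q.2.1.1, q.2.2.1] : Fin 3 → ℚ) j) *
        (r.den * (![q.1.2, q.2.1.2, q.2.2.2] : Fin 3 → ℚ) i - r.num)) ∧
        ∀ i : Fin 3, ∃ s y : ℤ, SInt S s ∧
          (r.den * (![q.1.1, q.2.1.1, q.2.2.1] : Fin 3 → ℚ) i) * x +
          (r.den * (![q.1.2, q.2.1.2, q.2.2.2] : Fin 3 → ℚ) i - r.num) = s * (y : ℚ) ^ n}).Finite := by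
    refine Set.finite_iUnion fun t => ?_
    refine Set.Finite.biUnion ((M.forms_finite _).prod ((M.forms_finite _).prod
      (M.forms_finite _))) fun q hq => ?_
    by_cases hdet : ∀ i j : Fin 3, i ≠ j → (r.den * (![q.1.1, q.2.1.1, q.2.2.1] : Fin 3 → ℚ) i) *
        (r.den * (![q.1.2, q.2.1.2, q.2.2.2] : Fin 3 → ℚ) j - r.num) ≠
        (r.den * (![q.1.1, q.2.1.1, q.2.2.1] : Fin 3 → ℚ) j) *
        (r.den * (![q.1.2, q.2.1.2, q.2.2.2] : Fin 3 → ℚ) i - r.num)
    · refine (pow3 n hn S hS _ _ ?_ hdet).subset fun x hx => hx.2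
      obtain ⟨⟨w1, h1⟩, ⟨w2, h2⟩, ⟨w3, h3⟩⟩ := hq
      intro i
      refine mul_ne_zero (by exact_mod_cast r.den_nz) ?_
      fin_cases i
      · show q.1.1 ≠ 0
        rw [← h1]
        exact M.sl_ne _ _
      · show q.2.1.1 ≠ 0
        rw [← h2]
        exact M.sl_ne _ _
      · show q.2.2.1 ≠ 0
        rw [← h3]
        exact M.sl_ne _ _
    · refine Set.Finite.subset Set.finite_empty fun x hx => hdet hx.1
  refine hfin.subset ?_
  rintro x ⟨i, j, k, hij, hjk, hkJ, hi, hj, hk⟩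
  refine Set.mem_iUnion.2 ⟨(⟨i, by omega⟩, ⟨j, by omega⟩, ⟨k, hkJ⟩), ?_⟩
  refine Set.mem_iUnion₂.2 ⟨((M.sl (M.wd x) i, M.co (M.wd x) i), (M.sl (M.wd x) j, M.co (M.wd x) j),
    (M.sl (M.wd x) k, M.co (M.wd x) k)), ⟨⟨M.wd x, rfl⟩, ⟨M.wd x, rfl⟩, ⟨M.wd x, rfl⟩⟩, ?_, ?_⟩
  · have hr : (r.num : ℚ) = r.den * r := by
      rw [mul_comm]
      exact (Rat.mul_den_eq_num r).symm
    have key : ∀ i j : ℕ, i < j → P (M.f^[i] x) → P (M.f^[j] x) →
        (r.den * M.sl (M.wd x) i) * (r.den * M.co (M.wd x) j - r.num) ≠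
        (r.den * M.sl (M.wd x) j) * (r.den * M.co (M.wd x) i - r.num) := by
      intro i j hij hi hj h1
      have h2 := M.free_forms h hij (hP _ hi).1 (hP _ hj).1
      apply h2
      have hd : (r.den : ℚ) ≠ 0 := by exact_mod_cast r.den_nz
      have h3 : (r.den : ℚ) * r.den * (M.sl (M.wd x) i * (M.co (M.wd x) j - r)) =
          (r.den : ℚ) * r.den * (M.sl (M.wd x) j * (M.co (M.wd x) i - r)) := by
        rw [hr] at h1
        linear_combination h1
      exact mul_left_cancel₀ (mul_ne_zero hd hd) h3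
    intro a b hab
    fin_cases a <;> fin_cases b
    · exact absurd rfl hab
    · exact key i j hij hi hj
    · exact key i k (hij.trans hjk) hi hk
    · exact (key i j hij hi hj).symm
    · exact absurd rfl hab
    · exact key j k hjk hj hk
    · exact (key i k (hij.trans hjk) hi hk).symm
    · exact (key j k hjk hj hk).symm
    · exact absurd rfl hab
  · have key : ∀ i : ℕ, P (M.f^[i] x) → ∃ s y : ℤ, SInt S s ∧
        (r.den * M.sl (M.wd x) i) * x + (r.den * M.co (M.wd x) i - r.num) = s * (y : ℚ) ^ n := by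
      intro i hi
      obtain ⟨s, y, h1, h2⟩ := (hP _ hi).2
      refine ⟨s, y, h1, ?_⟩
      have h3 := M.iter x i
      have h4 : ((r.den : ℤ) : ℚ) * ((M.f^[i] x : ℤ) : ℚ) - r.num = s * (y : ℚ) ^ n := by
        exact_mod_cast h2
      rw [← h4, h3]
      push_cast
      ring
    intro a
    fin_cases a
    · exact key i hi
    · exact key j hj
    · exact key k hk

end PA

/-! ### densities -/

open Classical in
/-- the number of `k < N` with `P (f^k x)` -/
noncomputable def cnt (f : ℤ → ℤ) (P : ℤ → Prop) (x : ℤ) (N : ℕ) : ℕ :=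
  ((Finset.range N).filter fun k => P (f^[k] x)).card

theorem cnt_mono (f : ℤ → ℤ) (P : ℤ → Prop) (x : ℤ) {N N' : ℕ} (h : N ≤ N') :
    cnt f P x N ≤ cnt f P x N' := by
  classical
  exact Finset.card_le_card (Finset.filter_subset_filter _ (Finset.range_subset_range.2 h))

theorem cnt_add (f : ℤ → ℤ) (P : ℤ → Prop) (x : ℤ) (J N : ℕ) :
    cnt f P x (J + N) = cnt f P x J + cnt f P (f^[J] x) N := by
  classical
  unfold cnt
  have h0 : Finset.range (J + N) = Finset.range J ∪ Finset.Ico J (J + N) := by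
    ext i
    simp only [Finset.mem_union, Finset.mem_range, Finset.mem_Ico]
    omega
  have h1 : ((Finset.Ico J (J + N)).filter fun k => P (f^[k] x)).card =
      ((Finset.range N).filter fun k => P (f^[k] (f^[J] x))).card := by
    refine Finset.card_bij' (fun i _ => i - J) (fun i _ => i + J) ?_ ?_ ?_ ?_
    · intro i hi
      simp only [Finset.mem_filter, Finset.mem_Ico, Finset.mem_range] at hi ⊢
      refine ⟨by omega, ?_⟩
      rw [← Function.iterate_add_apply, show i - J + J = i by omega]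
      exact hi.2
    · intro i hi
      simp only [Finset.mem_filter, Finset.mem_Ico, Finset.mem_range] at hi ⊢
      refine ⟨⟨by omega, by omega⟩, ?_⟩
      rw [Function.iterate_add_apply]
      exact hi.2
    · intro i hi
      simp only [Finset.mem_filter, Finset.mem_Ico] at hi
      omega
    · intro i _
      omega
  rw [h0, Finset.filter_union, Finset.card_union_of_disjoint, h1]
  refine Finset.disjoint_filter_filter ?_
  rw [Finset.disjoint_left]
  intro a ha hb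
  rw [Finset.mem_range] at ha
  rw [Finset.mem_Ico] at hb
  omega

theorem cnt_le {f : ℤ → ℤ} {P : ℤ → Prop} {m J : ℕ} (hJ : 0 < J) : ∀ (N : ℕ) (x : ℤ),
    (∀ i, cnt f P (f^[i] x) J ≤ m) → cnt f P x N ≤ (N / J + 1) * m := by
  intro N
  induction N using Nat.strong_induction_on with
  | _ N ih =>
    intro x hx
    rcases Nat.lt_or_ge N J with h | h
    · have h1 := cnt_mono f P x h.le
      have h2 := hx 0
      rw [Nat.div_eq_of_lt h]
      simp only [Function.iterate_zero, id] at h2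
      omega
    · obtain ⟨N', rfl⟩ : ∃ N', N = J + N' := ⟨N - J, by omega⟩
      have h1 := ih N' (by omega) (f^[J] x) (fun i => by
        rw [← Function.iterate_add_apply]
        exact hx _)
      have h2 := hx 0
      simp only [Function.iterate_zero, id] at h2
      rw [cnt_add, Nat.add_div_left N' hJ]
      calc cnt f P x J + cnt f P (f^[J] x) N' ≤ m + (N' / J + 1) * m := Nat.add_le_add h2 h1
        _ = (N' / J).succ.succ * m := by simp only [Nat.succ_eq_add_one]; ring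

/-- **Windows give densities.** -/
theorem rare_traj {f : ℤ → ℤ} {P : ℤ → Prop} {m : ℕ}
    (h : ∀ J : ℕ, {x : ℤ | m < cnt f P x J}.Finite) (ε : ℝ) (hε : 0 < ε) :
    ∃ F : Finset ℤ, ∀ x : ℤ, (∃ k : ℕ, f^[k] x ∈ F) ∨
      ∀ N : ℕ, (cnt f P x N : ℝ) ≤ ε * N + m := by
  obtain ⟨J0, hJ0⟩ := exists_nat_ge ((m : ℝ) / ε)
  set J := J0 + 1 with hJ
  refine ⟨(h J).toFinset, fun x => ?_⟩
  by_cases hx : ∃ k : ℕ, f^[k] x ∈ (h J).toFinset
  · exact Or.inl hx
  refine Or.inr fun N => ?_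
  push Not at hx
  have h1 := cnt_le (f := f) (P := P) (m := m) (J := J) (by omega) N x (fun i => by
    by_contra hcon
    exact hx i ((h J).mem_toFinset.2 (not_le.1 hcon)))
  have h2 : (cnt f P x N : ℝ) ≤ (((N / J : ℕ) : ℝ) + 1) * m := by exact_mod_cast h1
  have h3 : ((N / J : ℕ) : ℝ) ≤ (N : ℝ) / J := Nat.cast_div_le
  have hJpos : (0 : ℝ) < J := by positivity
  have h4 : (m : ℝ) ≤ J * ε := by
    rw [div_le_iff₀ hε] at hJ0
    have : (J : ℝ) = J0 + 1 := by rw [hJ]; push_cast; ring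
    rw [this]
    linarith
  have h5 : (N : ℝ) / J * m ≤ ε * N := by
    rw [div_mul_eq_mul_div, div_le_iff₀ hJpos]
    calc (N : ℝ) * m ≤ N * (J * ε) := mul_le_mul_of_nonneg_left h4 (Nat.cast_nonneg _)
      _ = ε * N * J := by ring
  calc (cnt f P x N : ℝ) ≤ (((N / J : ℕ) : ℝ) + 1) * m := h2
    _ ≤ ((N : ℝ) / J + 1) * m := mul_le_mul_of_nonneg_right (by linarith) (Nat.cast_nonneg _)
    _ = (N : ℝ) / J * m + m := by ring
    _ ≤ ε * N + m := by linarith

/-- a set of three elements is found in a large filter -/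
theorem three_of_cnt {f : ℤ → ℤ} {P : ℤ → Prop} {x : ℤ} {J : ℕ} (h : 2 < cnt f P x J) :
    ∃ i j k : ℕ, i < j ∧ j < k ∧ k < J ∧ P (f^[i] x) ∧ P (f^[j] x) ∧ P (f^[k] x) := by
  classical
  unfold cnt at h
  set A := (Finset.range J).filter fun k => P (f^[k] x) with hA
  have hm : ∀ a ∈ A, a < J ∧ P (f^[a] x) := fun a ha =>
    ⟨Finset.mem_range.1 (Finset.mem_filter.1 ha).1, (Finset.mem_filter.1 ha).2⟩
  have hmem : ∀ t : Fin A.card, A.orderEmbOfFin rfl t ∈ A := fun t => Finset.orderEmbOfFin_mem _ _ _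
  have hlt : ∀ s t : Fin A.card, s < t → A.orderEmbOfFin rfl s < A.orderEmbOfFin rfl t :=
    fun s t hst => (A.orderEmbOfFin rfl).strictMono hst
  have hP : ∀ t : Fin A.card, A.orderEmbOfFin rfl t < J ∧ P (f^[A.orderEmbOfFin rfl t] x) :=
    fun t => hm _ (hmem t)
  have h0 : 0 < A.card := by omega
  have h1 : 1 < A.card := by omega
  refine ⟨A.orderEmbOfFin rfl ⟨0, h0⟩, A.orderEmbOfFin rfl ⟨1, h1⟩, A.orderEmbOfFin rfl ⟨2, h⟩,
    hlt _ _ (by simp), hlt _ _ (by simp), (hP _).1, (hP _).2, (hP _).2, (hP _).2⟩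

/-- cycle of a map -/
def Cyc (f : ℤ → ℤ) (Z : Finset ℤ) : Prop :=
  ∃ (x : ℤ) (p : ℕ), 1 ≤ p ∧ f^[p] x = x ∧ Z = (Finset.range p).image fun i => f^[i] x

theorem Cyc.iter_mem {f : ℤ → ℤ} {Z : Finset ℤ} (hZ : Cyc f Z) {y : ℤ} (hy : y ∈ Z) (j : ℕ) :
    f^[j] y ∈ Z := by
  obtain ⟨x, p, hp, hx, rfl⟩ := hZ
  rw [Finset.mem_image] at hy ⊢
  obtain ⟨i, _, rfl⟩ := hy
  refine ⟨(j + i) % p, Finset.mem_range.2 (Nat.mod_lt _ hp), ?_⟩
  rw [← Function.iterate_add_apply]
  exact (show Function.IsPeriodicPt f p x from hx).iterate_mod_apply (j + i)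

theorem Cyc.back {f : ℤ → ℤ} {Z : Finset ℤ} (hZ : Cyc f Z) {y z : ℤ} (hy : y ∈ Z) (hz : z ∈ Z) :
    ∃ j : ℕ, f^[j] y = z := by
  obtain ⟨x, p, hp, hx, rfl⟩ := hZ
  obtain ⟨i, hi, rfl⟩ := Finset.mem_image.1 hy
  obtain ⟨j, _, rfl⟩ := Finset.mem_image.1 hz
  rw [Finset.mem_range] at hi
  refine ⟨j + (p - i), ?_⟩
  rw [← Function.iterate_add_apply, show j + (p - i) + i = j + p by omega,
    Function.iterate_add_apply, hx]

theorem Cyc.eq_of_mem {f : ℤ → ℤ} {Z Z' : Finset ℤ} (hZ : Cyc f Z) (hZ' : Cyc f Z') {y : ℤ}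
    (hy : y ∈ Z) (hy' : y ∈ Z') : Z = Z' := by
  ext z
  constructor
  · intro hz
    obtain ⟨j, rfl⟩ := hZ.back hy hz
    exact hZ'.iter_mem hy' j
  · intro hz
    obtain ⟨j, rfl⟩ := hZ'.back hy' hz
    exact hZ.iter_mem hy j

theorem Cyc.finite_meet (f : ℤ → ℤ) (F : Finset ℤ) :
    {Z : Finset ℤ | Cyc f Z ∧ ∃ x ∈ Z, x ∈ F}.Finite := by
  classical
  have h : ∀ Z : {Z : Finset ℤ // Cyc f Z ∧ ∃ x ∈ Z, x ∈ F}, ∃ x : ℤ, x ∈ Z.1 ∧ x ∈ F :=
    fun Z => Z.2.2
  choose g hg using h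
  have hfin : Finite {Z : Finset ℤ // Cyc f Z ∧ ∃ x ∈ Z, x ∈ F} := by
    refine Finite.of_injective (fun Z => (⟨g Z, (hg Z).2⟩ : F)) ?_
    intro Z Z' h
    have h1 : g Z = g Z' := congrArg Subtype.val h
    apply Subtype.ext
    refine Z.2.1.eq_of_mem Z'.2.1 (hg Z).1 ?_
    rw [h1]
    exact (hg Z').1
  exact Set.finite_coe_iff.1 hfin

theorem Cyc.period {f : ℤ → ℤ} {Z : Finset ℤ} (hZ : Cyc f Z) : ∃ x ∈ Z, 1 ≤ Z.card ∧
    f^[Z.card] x = x ∧ Z = (Finset.range Z.card).image fun i => f^[i] x := by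
  obtain ⟨x, p, hp, hx, hZ⟩ := hZ
  have hper : x ∈ Function.periodicPts f := ⟨p, hp, hx⟩
  set q := Function.minimalPeriod f x with hq
  have hq0 : 0 < q := Function.minimalPeriod_pos_of_mem_periodicPts hper
  have himg : Z = (Finset.range q).image fun i => f^[i] x := by
    rw [hZ]
    ext y
    simp only [Finset.mem_image, Finset.mem_range]
    constructor
    · rintro ⟨i, _, rfl⟩
      exact ⟨i % q, Nat.mod_lt _ hq0, Function.iterate_mod_minimalPeriod_eq⟩
    · rintro ⟨i, _, rfl⟩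
      refine ⟨i % p, Nat.mod_lt _ hp, ?_⟩
      exact (show Function.IsPeriodicPt f p x from hx).iterate_mod_apply i
  have hcard : Z.card = q := by
    rw [himg, Finset.card_image_of_injOn, Finset.card_range]
    intro i hi j hj hij
    have hi' := Finset.mem_coe.1 hi
    have hj' := Finset.mem_coe.1 hj
    rw [Finset.mem_range] at hi' hj'
    exact Function.iterate_injOn_Iio_minimalPeriod hi' hj' hij
  refine ⟨x, ?_, by omega, ?_, ?_⟩
  · rw [himg]
    exact Finset.mem_image.2 ⟨0, Finset.mem_range.2 hq0, rfl⟩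
  · rw [hcard]
    exact Function.iterate_minimalPeriod
  · rw [hcard]
    exact himg

open Classical in
theorem cnt_cycle {f : ℤ → ℤ} {P : ℤ → Prop} {x : ℤ} {Z : Finset ℤ} (hx : f^[Z.card] x = x)
    (hZ : Z = (Finset.range Z.card).image fun i => f^[i] x) (t : ℕ) :
    cnt f P x (t * Z.card) = t * (Z.filter P).card := by
  have h1 : cnt f P x Z.card = (Z.filter P).card := by
    unfold cnt
    have hinj : Set.InjOn (fun i => f^[i] x) (Finset.range Z.card : Set ℕ) := by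
      apply Finset.injOn_of_card_image_eq
      rw [← hZ, Finset.card_range]
    conv_rhs => rw [hZ, Finset.filter_image]
    rw [Finset.card_image_of_injOn]
    intro i hi j hj hij
    exact hinj (Finset.mem_filter.1 hi).1 (Finset.mem_filter.1 hj).1 hij
  induction t with
  | zero => simp [cnt]
  | succ t ih =>
    rw [add_mul, one_mul, add_comm, cnt_add, hx, ih, h1]
    ring

open Classical in
/-- **Cycles.** -/
theorem rare_cyc {f : ℤ → ℤ} {P : ℤ → Prop} {m : ℕ}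
    (h : ∀ ε : ℝ, 0 < ε → ∃ F : Finset ℤ, ∀ x : ℤ, (∃ k : ℕ, f^[k] x ∈ F) ∨
      ∀ N : ℕ, (cnt f P x N : ℝ) ≤ ε * N + m) (ε : ℝ) (hε : 0 < ε) :
    {Z : Finset ℤ | Cyc f Z ∧ ε * Z.card < ((Z.filter P).card : ℝ)}.Finite := by
  obtain ⟨F, hF⟩ := h ε hε
  refine (Cyc.finite_meet f F).subset ?_
  rintro Z ⟨hZ, hlt⟩
  refine ⟨hZ, ?_⟩
  obtain ⟨x, hxZ, hp, hx, himg⟩ := hZ.period
  rcases hF x with ⟨k, hk⟩ | hN
  · exact ⟨_, hZ.iter_mem hxZ k, hk⟩
  · exfalso
    set δ : ℝ := ((Z.filter P).card : ℝ) - ε * Z.card with hδ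
    have hδ0 : 0 < δ := by linarith
    obtain ⟨t, ht⟩ := exists_nat_gt ((m : ℝ) / δ)
    have h1 := hN (t * Z.card)
    rw [cnt_cycle hx himg] at h1
    push_cast at h1
    rw [div_lt_iff₀ hδ0] at ht
    rw [hδ] at ht
    nlinarith

/-- **Trajectories which are not eventually periodic.** -/
theorem rare_inj {f : ℤ → ℤ} {P : ℤ → Prop} {m : ℕ}
    (h : ∀ ε : ℝ, 0 < ε → ∃ F : Finset ℤ, ∀ x : ℤ, (∃ k : ℕ, f^[k] x ∈ F) ∨
      ∀ N : ℕ, (cnt f P x N : ℝ) ≤ ε * N + m) (x : ℤ) (hx : ∀ i j : ℕ, f^[i] x = f^[j] x → i = j) :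
    Filter.Tendsto (fun N : ℕ => (cnt f P x N : ℝ) / N) Filter.atTop (nhds 0) := by
  rw [Metric.tendsto_atTop]
  intro ε hε
  obtain ⟨F, hF⟩ := h (ε / 2) (by linarith)
  obtain ⟨K, hK⟩ : ∃ K : ℕ, ∀ k ≥ K, f^[k] x ∉ F := by
    have hfin : {k : ℕ | f^[k] x ∈ F}.Finite :=
      Set.Finite.of_injOn (f := fun k => f^[k] x) (t := (F : Set ℤ)) (fun k hk => hk)
        (fun i _ j _ hij => hx i j hij) F.finite_toSet
    obtain ⟨K, hK⟩ := hfin.bddAbove
    refine ⟨K + 1, fun k hk hkF => ?_⟩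
    have := hK hkF
    omega
  obtain ⟨N0, hN0⟩ := exists_nat_gt (2 * (K + m : ℝ) / ε)
  refine ⟨N0 + 1, fun N hN => ?_⟩
  have hNpos : (0 : ℝ) < N := by
    have : 0 < N := by omega
    exact_mod_cast this
  have hb : ∀ M : ℕ, (cnt f P (f^[K] x) M : ℝ) ≤ ε / 2 * M + m := by
    rcases hF (f^[K] x) with ⟨k, hk⟩ | hM
    · rw [← Function.iterate_add_apply] at hk
      exact absurd hk (hK _ (by omega))
    · exact hM
  have h1 : (cnt f P x N : ℝ) ≤ K + (ε / 2 * N + m) := by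
    have h2 : cnt f P x N ≤ cnt f P x (K + N) := cnt_mono f P x (by omega)
    rw [cnt_add] at h2
    have h3 : cnt f P x K ≤ K := by
      classical
      unfold cnt
      exact (Finset.card_filter_le _ _).trans (Finset.card_range K).le
    have h4 : (cnt f P x N : ℝ) ≤ K + cnt f P (f^[K] x) N := by
      have : cnt f P x N ≤ K + cnt f P (f^[K] x) N := by omega
      exact_mod_cast this
    have := hb N
    linarith
  rw [Real.dist_eq, sub_zero, abs_of_nonneg (by positivity), div_lt_iff₀ hNpos]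
  have h2 : 2 * (K + m : ℝ) / ε < N := by
    have : (N0 : ℝ) ≤ N := by
      have : N0 ≤ N := by omega
      exact_mod_cast this
    linarith
  rw [div_lt_iff₀ hε] at h2
  linarith

end Pool.Agent.X61.CU
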