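import Mathlib
import Pool.Agent.TH551.SU.Sst

/-!
The part of a product of affine forms composed of given primes (from the subspace theorem).
-/

namespace Pool.Agent.X61.CU

open Finset Filter Topology Pool.Agent.TH461.SST

/-- the largest divisor of `n` composed of primes in `S`; it is `1` for `n = 0` -/
def part (S : Finset ℕ) (n : ℤ) : ℕ := ∏ p ∈ S, p ^ padicValNat p n.natAbs

theorem part_pos {S : Finset ℕ} (hS : ∀ p ∈ S, p.Prime) (n : ℤ) : 0 < part S n :=
  Finset.prod_pos fun p hp => pow_pos (hS p hp).pos _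

theorem pow_val_dvd (p : ℕ) (n : ℤ) : ((p : ℤ) ^ padicValNat p n.natAbs) ∣ n := by
  have h : p ^ padicValNat p n.natAbs ∣ n.natAbs := pow_padicValNat_dvd
  have h2 := Int.natCast_dvd_natCast.2 h
  rw [Int.dvd_natAbs] at h2
  exact_mod_cast h2

/-- a common power divides the determinant -/
theorem det_dvd {a b a' b' x q : ℤ} (h : q ∣ a * x + b) (h' : q ∣ a' * x + b') :
    q ∣ a * b' - a' * b := by
  have e : a * b' - a' * b = a * (a' * x + b') - a' * (a * x + b) := by ring
  rw [e]
  exact dvd_sub (Dvd.dvd.mul_left h' _) (Dvd.dvd.mul_left h _)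

/-- **Ridout's theorem** for products of affine forms with rational zeros: the part composed of given
primes is at most `|x| ^ (1 + ε)` for all large `x`. -/
theorem ridout (S : Finset ℕ) (hS : ∀ p ∈ S, p.Prime) (I : Finset ℕ) (a b : ℕ → ℤ)
    (ha : ∀ i ∈ I, a i ≠ 0) (hab : ∀ i ∈ I, ∀ j ∈ I, i ≠ j → a i * b j ≠ a j * b i) (ε : ℝ)
    (hε : 0 < ε) : ∃ X : ℕ, ∀ x : ℤ, (X : ℤ) < |x| →
      ∏ i ∈ I, (part S (a i * x + b i) : ℝ) ≤ |(x : ℝ)| ^ (1 + ε) := by
  classical
  rcases I.eq_empty_or_nonempty with hI | ⟨i00, hi00⟩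
  · subst hI
    refine ⟨1, fun x hx => ?_⟩
    rw [Finset.prod_empty]
    have h1 : (1 : ℝ) ≤ |(x : ℝ)| := by
      have : (1 : ℤ) ≤ |x| := by
        push_cast at hx
        linarith
      exact_mod_cast this
    exact Real.one_le_rpow h1 (by linarith)
  by_contra hcon
  push Not at hcon
  -- the best form at each prime
  have hbest : ∀ (x : ℤ) (p : ℕ), ∃ i ∈ I, ∀ j ∈ I, padicValNat p (a j * x + b j).natAbs ≤
      padicValNat p (a i * x + b i).natAbs := fun x p =>
    Finset.exists_max_image I _ ⟨i00, hi00⟩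
  choose best hbestI hbestle using hbest
  -- a pattern which occurs infinitely often
  let pat : ℤ → (S → I) := fun x p => ⟨best x p, hbestI x p⟩
  obtain ⟨f, hf⟩ : ∃ f : S → I, ∀ X : ℕ, ∃ x : ℤ, (X : ℤ) < |x| ∧ pat x = f ∧
      |(x : ℝ)| ^ (1 + ε) < ∏ i ∈ I, (part S (a i * x + b i) : ℝ) := by
    by_contra hno
    push Not at hno
    choose Y hY using hno
    obtain ⟨x, hx1, hx2⟩ := hcon (Finset.univ.sup Y)
    have h1 : (Y (pat x) : ℤ) ≤ (Finset.univ.sup Y : ℕ) := by
      exact_mod_cast Finset.le_sup (f := Y) (Finset.mem_univ (pat x))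
    exact absurd hx2 (not_lt.2 (hY (pat x) x (lt_of_le_of_lt h1 hx1) rfl))
  -- constants
  obtain ⟨D, hD⟩ : ∃ D : ℕ, 0 < D ∧ (∀ i ∈ I, ∀ j ∈ I, (a i * b j - a j * b i).natAbs ≤ D) ∧
      (∀ i ∈ I, (a i).natAbs + (b i).natAbs ≤ D) := by
    refine ⟨1 + I.sup (fun i => I.sup fun j => (a i * b j - a j * b i).natAbs) +
      I.sup (fun i => (a i).natAbs + (b i).natAbs), by omega, fun i hi j hj => ?_, fun i hi => ?_⟩
    · have h1 : (a i * b j - a j * b i).natAbs ≤ I.sup fun j => (a i * b j - a j * b i).natAbs :=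
        Finset.le_sup (f := fun j => (a i * b j - a j * b i).natAbs) hj
      have h2 := Finset.le_sup (f := fun i => I.sup fun j => (a i * b j - a j * b i).natAbs) hi
      omega
    · have h2 := Finset.le_sup (f := fun i => (a i).natAbs + (b i).natAbs) hi
      omega
  obtain ⟨hD0, hD1, hD2⟩ := hD
  set C : ℝ := ∏ _p ∈ S, ∏ _i ∈ I, (D : ℝ) with hC
  have hD0' : (1 : ℝ) ≤ D := by exact_mod_cast hD0
  have hC1 : 1 ≤ C := by
    rw [hC]
    simp only [Finset.prod_const]
    exact one_le_pow₀ (one_le_pow₀ hD0')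
  -- the product is concentrated
  have hconc : ∀ x : ℤ, ∏ i ∈ I, (part S (a i * x + b i) : ℝ) ≤
      C * ∏ p ∈ S, (p : ℝ) ^ padicValNat p (a (best x p) * x + b (best x p)).natAbs := by
    intro x
    have e1 : ∏ i ∈ I, (part S (a i * x + b i) : ℝ) =
        ∏ p ∈ S, ∏ i ∈ I, (p : ℝ) ^ padicValNat p (a i * x + b i).natAbs := by
      rw [Finset.prod_comm]
      refine Finset.prod_congr rfl fun i _ => ?_
      unfold part
      push_cast
      rfl
    rw [e1, hC, ← Finset.prod_mul_distrib]
    refine Finset.prod_le_prod (fun p _ => Finset.prod_nonneg fun i _ => by positivity) ?_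
    intro p hp
    have hpp := hS p hp
    rw [← Finset.mul_prod_erase I _ (hbestI x p)]
    have h1 : ∏ i ∈ I.erase (best x p), (p : ℝ) ^ padicValNat p (a i * x + b i).natAbs ≤
        ∏ _i ∈ I.erase (best x p), (D : ℝ) := by
      refine Finset.prod_le_prod (fun i _ => by positivity) ?_
      intro j hj
      obtain ⟨hj1, hj2⟩ := Finset.mem_erase.1 hj
      have h2 := hbestle x p j hj2
      have h3 : (p : ℤ) ^ padicValNat p (a j * x + b j).natAbs ∣ a (best x p) * x + b (best x p) :=
        (pow_dvd_pow _ h2).trans (pow_val_dvd p _)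
      have h4 : (p : ℤ) ^ padicValNat p (a j * x + b j).natAbs ∣ a j * x + b j := pow_val_dvd p _
      have h5 := det_dvd h4 h3
      have h6 : a j * b (best x p) - a (best x p) * b j ≠ 0 :=
        sub_ne_zero.2 (hab j hj2 _ (hbestI x p) hj1)
      have h7 : p ^ padicValNat p (a j * x + b j).natAbs ≤
          (a j * b (best x p) - a (best x p) * b j).natAbs := by
        have h8 := Int.natAbs_dvd_natAbs.2 h5
        rw [Int.natAbs_pow, Int.natAbs_natCast] at h8
        exact Nat.le_of_dvd (Int.natAbs_pos.2 h6) h8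
      exact_mod_cast h7.trans (hD1 j hj2 _ (hbestI x p))
    have h2 : ∏ _i ∈ I.erase (best x p), (D : ℝ) ≤ ∏ _i ∈ I, (D : ℝ) := by
      rw [Finset.prod_const, Finset.prod_const]
      exact pow_le_pow_right₀ hD0' (Finset.card_le_card (Finset.erase_subset _ _))
    calc (p : ℝ) ^ padicValNat p (a (best x p) * x + b (best x p)).natAbs *
          ∏ i ∈ I.erase (best x p), (p : ℝ) ^ padicValNat p (a i * x + b i).natAbs
        ≤ (p : ℝ) ^ padicValNat p (a (best x p) * x + b (best x p)).natAbs * ∏ _i ∈ I, (D : ℝ) :=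
          mul_le_mul_of_nonneg_left (h1.trans h2) (by positivity)
      _ = (∏ _i ∈ I, (D : ℝ)) * (p : ℝ) ^ padicValNat p (a (best x p) * x + b (best x p)).natAbs :=
          mul_comm _ _
  -- the sequence
  obtain ⟨K, hK⟩ := exists_nat_ge (Real.exp (1 + 2 * Real.log C / ε + Real.log D))
  choose xs hxs1 hxs2 hxs3 using fun t : ℕ => hf (K + 3 + D + t)
  have hxbig : ∀ t : ℕ, ((K + 3 + D + t : ℕ) : ℝ) < |(xs t : ℝ)| := by
    intro t
    have := hxs1 t
    exact_mod_cast this
  have hK' : ∀ t : ℕ, 1 + 2 * Real.log C / ε + Real.log D ≤ Real.log |(xs t : ℝ)| := by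
    intro t
    rw [Real.le_log_iff_exp_le (lt_of_le_of_lt (Nat.cast_nonneg _) (hxbig t))]
    refine hK.trans (le_trans ?_ (hxbig t).le)
    push_cast
    have : (0 : ℝ) ≤ t := Nat.cast_nonneg t
    have : (0 : ℝ) ≤ D := Nat.cast_nonneg D
    linarith
  have hlogC : 0 ≤ Real.log C := Real.log_nonneg hC1
  have hlogD : 0 ≤ Real.log D := Real.log_nonneg hD0'
  let eq : Fin S.card ≃ S := S.equivFin.symm
  have hpr : ∀ v : Fin S.card, ((eq v : ℕ)).Prime := fun v => hS _ (eq v).2
  let pt : ℕ → Fin 2 → ℤ := fun t => ![xs t, 1]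
  let M : Fin S.card → Matrix (Fin 2) (Fin 2) ℤ := fun v => !![a (f (eq v)), b (f (eq v)); 0, 1]
  let ex : ℕ → Fin S.card → Fin 2 → ℕ := fun t v =>
    ![padicValNat (eq v) (a (f (eq v)) * xs t + b (f (eq v))).natAbs, 0]
  let A : ℕ → Fin 2 → ℝ := fun t => ![|(xs t : ℝ)|, 1]
  have hbf : ∀ (t : ℕ) (v : Fin S.card), best (xs t) (eq v) = f (eq v) := by
    intro t v
    have := congrFun (hxs2 t) (eq v)
    exact congrArg Subtype.val this
  have hN : Tendsto (fun t : ℕ => Real.log |(xs t : ℝ)|) atTop atTop := by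
    refine Real.tendsto_log_atTop.comp (tendsto_atTop_mono (fun t => ?_) tendsto_natCast_atTop_atTop)
    refine le_trans ?_ (hxbig t).le
    push_cast
    have : (0 : ℝ) ≤ K := Nat.cast_nonneg K
    have : (0 : ℝ) ≤ D := Nat.cast_nonneg D
    linarith
  obtain ⟨y, hy, hfreq⟩ := Pool.Agent.TH551.SU.sst 2 S.card (by norm_num) 1 M
    (fun v => (eq v : ℕ)) (by
      refine ⟨by simp, fun v => ?_, fun v => (hpr v).two_le, fun v v' hvv => ?_⟩
      · simp only [M, Matrix.det_fin_two_of, mul_one, mul_zero, sub_zero]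
        exact ha _ (f (eq v)).2
      · exact (Nat.coprime_primes (hpr v) (hpr v')).2 fun h => hvv (eq.injective (Subtype.ext h)))
    2 (ε / 2) (by norm_num) (by positivity) (fun t => Real.log |(xs t : ℝ)|) hN ex A (by
      intro t
      have hx0 : 0 < |(xs t : ℝ)| := lt_of_le_of_lt (Nat.cast_nonneg _) (hxbig t)
      have hlog1 := hK' t
      have hdiv : 0 ≤ 2 * Real.log C / ε := by positivity
      have hN0 : 0 ≤ Real.log |(xs t : ℝ)| := by linarith
      refine ⟨fun v l => ?_, fun l => ?_, fun l => ?_, ?_⟩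
      · fin_cases l
        · -- the power divides the value of the form
          simp only [ex, Fin.zero_eta, Matrix.cons_val_zero]
          set i := (f (eq v) : ℕ) with hi
          have hiI : i ∈ I := (f (eq v)).2
          set n := a i * xs t + b i with hn
          by_cases hn0 : n = 0
          · rw [hn0]
            simp
            positivity
          · have h1 : (eq v : ℕ) ^ padicValNat (eq v) n.natAbs ≤ n.natAbs :=
              Nat.le_of_dvd (Int.natAbs_pos.2 hn0) pow_padicValNat_dvd
            have h2 : (n.natAbs : ℝ) ≤ D * |(xs t : ℝ)| := by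
              have h3 : |(n : ℝ)| ≤ |(a i : ℝ)| * |(xs t : ℝ)| + |(b i : ℝ)| := by
                rw [hn]
                push_cast
                refine (abs_add_le _ _).trans ?_
                rw [abs_mul]
              have h4 : |(a i : ℝ)| + |(b i : ℝ)| ≤ D := by
                have := hD2 i hiI
                have h5 : (((a i).natAbs + (b i).natAbs : ℕ) : ℝ) ≤ D := by exact_mod_cast this
                push_cast at h5
                rwa [Nat.cast_natAbs, Nat.cast_natAbs, Int.cast_abs, Int.cast_abs] at h5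
              have h6 : (1 : ℝ) ≤ |(xs t : ℝ)| := by
                refine le_trans ?_ (hxbig t).le
                push_cast
                have : (0 : ℝ) ≤ K := Nat.cast_nonneg K
                have : (0 : ℝ) ≤ D := Nat.cast_nonneg D
                have : (0 : ℝ) ≤ t := Nat.cast_nonneg t
                linarith
              rw [Nat.cast_natAbs, Int.cast_abs]
              have h7 : 0 ≤ |(b i : ℝ)| := abs_nonneg _
              nlinarith
            have h3 : (padicValNat (eq v) n.natAbs : ℝ) * Real.log ((eq v : ℕ) : ℝ) =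
                Real.log (((eq v : ℕ) ^ padicValNat (eq v) n.natAbs : ℕ) : ℝ) := by
              push_cast
              rw [Real.log_pow]
            rw [h3]
            have h4 : (((eq v : ℕ) ^ padicValNat (eq v) n.natAbs : ℕ) : ℝ) ≤ D * |(xs t : ℝ)| :=
              le_trans (by exact_mod_cast h1) h2
            have h5 : Real.log (((eq v : ℕ) ^ padicValNat (eq v) n.natAbs : ℕ) : ℝ) ≤
                Real.log (D * |(xs t : ℝ)|) :=
              Real.log_le_log (by exact_mod_cast pow_pos (hpr v).pos _) h4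
            rw [Real.log_mul (by linarith) hx0.ne'] at h5
            linarith
        · change ((0 : ℕ) : ℝ) * Real.log ((eq v : ℕ) : ℝ) ≤ 2 * Real.log |(xs t : ℝ)|
          rw [Nat.cast_zero, zero_mul]
          linarith
      · fin_cases l
        · exact hx0
        · simp [A]
      · fin_cases l
        · simp only [A, Fin.zero_eta, Matrix.cons_val_zero]
          rw [abs_of_nonneg hN0]
          linarith
        · simp only [A, Fin.mk_one, Matrix.cons_val_one, Matrix.cons_val_fin_one, Real.log_one, abs_zero]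
          linarith
      · rw [Fin.sum_univ_two]
        simp only [A, Matrix.cons_val_zero, Matrix.cons_val_one, Matrix.cons_val_fin_one,
          Real.log_one, add_zero]
        have h1 : ∑ v : Fin S.card, ∑ l, (ex t v l : ℝ) * Real.log ((eq v : ℕ) : ℝ) =
            Real.log (∏ p ∈ S, (p : ℝ) ^ padicValNat p (a (best (xs t) p) * xs t +
              b (best (xs t) p)).natAbs) := by
          rw [Real.log_prod (fun p hp => by
            have := (hS p hp).pos
            positivity)]
          rw [← Finset.sum_coe_sort S, ← Equiv.sum_comp eq]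
          refine Finset.sum_congr rfl fun v _ => ?_
          rw [Fin.sum_univ_two, Real.log_pow, hbf t v]
          simp [ex]
        rw [h1]
        have h2 := (hxs3 t).le.trans (hconc (xs t))
        have h3 : Real.log (|(xs t : ℝ)| ^ (1 + ε)) ≤ Real.log (C * ∏ p ∈ S, (p : ℝ) ^
            padicValNat p (a (best (xs t) p) * xs t + b (best (xs t) p)).natAbs) :=
          Real.log_le_log (by positivity) h2
        have h4 : 0 < ∏ p ∈ S, (p : ℝ) ^ padicValNat p (a (best (xs t) p) * xs t +
            b (best (xs t) p)).natAbs := Finset.prod_pos fun p hp => by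
          have := (hS p hp).pos
          positivity
        rw [Real.log_rpow hx0, Real.log_mul (by linarith) h4.ne'] at h3
        have h5 : Real.log C ≤ ε / 2 * Real.log |(xs t : ℝ)| := by
          have h6 : 2 * Real.log C / ε ≤ Real.log |(xs t : ℝ)| := by linarith
          rw [div_le_iff₀ hε] at h6
          linarith
        linarith)
    pt (by
      intro t h0
      have := congrFun h0 1
      simp [pt] at this)
    (by
      intro t
      refine ⟨fun l => ?_, fun v l => ?_⟩
      · fin_cases l
        · simp [pt, A, Matrix.one_apply]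
        · simp [pt, A, Matrix.one_apply]
      · fin_cases l
        · simp only [ex, M, pt, Fin.zero_eta, Fin.sum_univ_two, Matrix.of_apply,
            Matrix.cons_val_zero, Matrix.cons_val_one, Matrix.cons_val_fin_one, mul_one]
          exact pow_val_dvd _ _
        · simp [ex])
  -- conclusion
  have hfr : ∃ᶠ t in atTop, y 0 * xs t + y 1 = 0 := by
    refine hfreq.mono fun t ht => ?_
    rw [Fin.sum_univ_two] at ht
    simpa [pt] using ht
  by_cases hy0 : y 0 = 0
  · obtain ⟨t, ht⟩ := hfr.exists
    rw [hy0, zero_mul, zero_add] at ht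
    apply hy
    funext l
    fin_cases l
    · exact hy0
    · exact ht
  · obtain ⟨t, ht1, ht2⟩ := (hfr.and_eventually (eventually_ge_atTop (y 1).natAbs)).exists
    have h1 := hxs1 t
    have h2 : |xs t| ≤ |y 1| := by
      have h3 : y 0 * xs t = -y 1 := by linarith
      have h4 : |y 0| * |xs t| = |y 1| := by rw [← abs_mul, h3, abs_neg]
      have h5 : 1 ≤ |y 0| := Int.one_le_abs hy0
      have h6 : 0 ≤ |xs t| := abs_nonneg _
      nlinarith
    have h3 : |y 1| ≤ (t : ℤ) := by
      rw [Int.abs_eq_natAbs]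
      exact_mod_cast ht2
    push_cast at h1
    have : (0 : ℤ) ≤ K := Int.natCast_nonneg K
    have : (0 : ℤ) ≤ D := Int.natCast_nonneg D
    linarith

end Pool.Agent.X61.CU
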