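import Mathlib
import Pool.Agent.X61.CU.Map
import Pool.Agent.X61.CU.Ridout
import Pool.Agent.Y670.RD.Rid

/-!
The part composed of given primes of the values of a polynomial along trajectories.
-/

namespace Pool.Agent.X61.CU

open Polynomial Pool.Agent.Y670.RD

/-- the affine substitution -/
theorem irr_comp {g : ℚ[X]} {a b : ℚ} (ha : a ≠ 0) (h : Irreducible g) :
    Irreducible (g.comp (C a * X + C b)) := by
  have : Invertible a := invertibleOfNonzero ha
  have h1 := (MulEquiv.irreducible_iff (Polynomial.algEquivCMulXAddC a b).toRingEquiv.toMulEquiv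
    (x := g)).2 h
  exact h1

/-- An irreducible polynomial of degree at least two does not divide its composition with an affine
map of slope `≠ 0, 1, -1`. -/
theorem not_dvd_comp {g : ℚ[X]} (h : Irreducible g) (hd : 2 ≤ g.natDegree) {a b : ℚ} (ha0 : a ≠ 0)
    (ha : |a| ≠ 1) : ¬ g ∣ g.comp (C a * X + C b) := by
  intro hdvd
  have hg0 : g ≠ 0 := h.ne_zero
  -- the complex roots
  set R : Finset ℂ := (g.aroots ℂ).toFinset with hR
  have hsep : g.Separable := h.separable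
  have hcard : R.card = g.natDegree := by
    rw [hR, Multiset.toFinset_card_of_nodup (nodup_aroots_iff_of_splits hg0
      (IsAlgClosed.splits _) |>.2 hsep)]
    exact IsAlgClosed.card_aroots_eq_natDegree_of_isUnit_leadingCoeff (by
      simp [hg0])
  have hmem : ∀ z : ℂ, z ∈ R ↔ aeval z g = 0 := by
    intro z
    rw [hR, Multiset.mem_toFinset, mem_aroots]
    exact ⟨fun h => h.2, fun h => ⟨hg0, h⟩⟩
  let φ : ℂ → ℂ := fun z => (a : ℂ) * z + b
  have haC : (a : ℂ) ≠ 0 := by exact_mod_cast ha0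
  have hφinj : Function.Injective φ := by
    intro z w hzw
    have h1 : (a : ℂ) * z + b = a * w + b := hzw
    exact mul_left_cancel₀ haC (add_right_cancel h1)
  have hφR : R.image φ ⊆ R := by
    intro w hw
    obtain ⟨z, hz, rfl⟩ := Finset.mem_image.1 hw
    rw [hmem] at hz ⊢
    obtain ⟨q, hq⟩ := hdvd
    have h1 : aeval z (g.comp (C a * X + C b)) = aeval (φ z) g := by
      rw [aeval_comp]
      congr 1
      simp [φ]
    rw [← h1, hq, map_mul, hz, zero_mul]
  have hφeq : R.image φ = R :=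
    Finset.eq_of_subset_of_card_le hφR (Finset.card_image_of_injective R hφinj).ge
  -- the diameter
  have hne : (R ×ˢ R).Nonempty := by
    have : R.Nonempty := Finset.card_pos.1 (by omega)
    exact this.product this
  obtain ⟨⟨α, β⟩, hαβ, hmax⟩ := Finset.exists_max_image (R ×ˢ R) (fun p => ‖p.1 - p.2‖) hne
  obtain ⟨u, hu, v, hv, huv⟩ := Finset.one_lt_card.1 (show 1 < R.card by omega)
  have hpos : 0 < ‖α - β‖ := by
    have h1 := hmax (u, v) (Finset.mem_product.2 ⟨hu, hv⟩)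
    have h2 : 0 < ‖u - v‖ := norm_pos_iff.2 (sub_ne_zero.2 huv)
    exact lt_of_lt_of_le h2 h1
  have hφd : ∀ z w, ‖φ z - φ w‖ = |(a : ℝ)| * ‖z - w‖ := by
    intro z w
    have h1 : φ z - φ w = (a : ℂ) * (z - w) := by
      simp only [φ]
      ring
    rw [h1, norm_mul]
    congr 1
    rw [show (a : ℂ) = ((a : ℝ) : ℂ) by norm_cast, Complex.norm_real, Real.norm_eq_abs]
  obtain ⟨hα, hβ⟩ := Finset.mem_product.1 hαβ
  have h1 : |(a : ℝ)| * ‖α - β‖ ≤ ‖α - β‖ := by
    rw [← hφd]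
    exact hmax (φ α, φ β) (Finset.mem_product.2
      ⟨hφR (Finset.mem_image_of_mem _ hα), hφR (Finset.mem_image_of_mem _ hβ)⟩)
  have h2 : ‖α - β‖ ≤ |(a : ℝ)| * ‖α - β‖ := by
    rw [← hφeq] at hα hβ
    obtain ⟨α', hα', e1⟩ := Finset.mem_image.1 hα
    obtain ⟨β', hβ', e2⟩ := Finset.mem_image.1 hβ
    have h3 : ‖α - β‖ = |(a : ℝ)| * ‖α' - β'‖ := by rw [← hφd, e1, e2]
    rw [h3]
    refine mul_le_mul_of_nonneg_left ?_ (abs_nonneg _)
    rw [← h3]
    exact hmax (α', β') (Finset.mem_product.2 ⟨hα', hβ'⟩)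
  have h3 : |(a : ℝ)| = 1 := by
    have h4 : |(a : ℝ)| * ‖α - β‖ = 1 * ‖α - β‖ := by
      rw [one_mul]
      exact le_antisymm h1 h2
    exact mul_right_cancel₀ hpos.ne' h4
  apply ha
  exact_mod_cast h3

/-- products of values: the part composed of given primes -/
theorem part_mul {S : Finset ℕ} (hS : ∀ p ∈ S, p.Prime) {m n : ℤ} (hm : m ≠ 0) (hn : n ≠ 0) :
    part S (m * n) = part S m * part S n := by
  unfold part
  rw [← Finset.prod_mul_distrib]
  refine Finset.prod_congr rfl fun p hp => ?_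
  have : Fact p.Prime := ⟨hS p hp⟩
  rw [Int.natAbs_mul, padicValNat.mul (Int.natAbs_ne_zero.2 hm) (Int.natAbs_ne_zero.2 hn), pow_add]

theorem part_prod {S : Finset ℕ} (hS : ∀ p ∈ S, p.Prime) {ι : Type} (I : Finset ι) (a : ι → ℤ)
    (ha : ∀ i ∈ I, a i ≠ 0) : part S (∏ i ∈ I, a i) = ∏ i ∈ I, part S (a i) := by
  classical
  induction I using Finset.induction_on with
  | empty =>
    simp only [Finset.prod_empty]
    unfold part
    refine Finset.prod_eq_one fun p _ => ?_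
    simp
  | insert i I hi ih =>
    rw [Finset.prod_insert hi, Finset.prod_insert hi, part_mul hS (ha i (Finset.mem_insert_self i I))
      (Finset.prod_ne_zero_iff.2 fun j hj => ha j (Finset.mem_insert_of_mem hj)),
      ih fun j hj => ha j (Finset.mem_insert_of_mem hj)]

theorem part_norm {S : Finset ℕ} (hS : ∀ p ∈ S, p.Prime) {n : ℤ} (hn : n ≠ 0) :
    (part S n : ℝ) * ∏ p ∈ S, (padicNorm p (n : ℚ) : ℝ) = 1 := by
  unfold part
  push_cast
  rw [← Finset.prod_mul_distrib]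
  refine Finset.prod_eq_one fun p hp => ?_
  have : Fact p.Prime := ⟨hS p hp⟩
  have hp0 : (p : ℝ) ≠ 0 := by exact_mod_cast (hS p hp).ne_zero
  rw [padicNorm.eq_zpow_of_nonzero (by exact_mod_cast hn), padicValRat.of_int]
  push_cast
  rw [zpow_neg, padicValInt, zpow_natCast]
  exact mul_inv_cancel₀ (pow_ne_zero _ hp0)

/-- **Values of squarefree polynomials.** -/
theorem part_poly (G : ℤ[X]) (hG : Squarefree (G.map (Int.castRingHom ℚ))) (hd : 1 ≤ G.natDegree)
    (S : Finset ℕ) (hS : ∀ p ∈ S, p.Prime) :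
    ∃ A : ℝ, 0 < A ∧ ∀ x : ℤ, 1 ≤ |x| → G.eval x ≠ 0 →
      (part S (G.eval x) : ℝ) ≤ A * |(x : ℝ)| ^ 3 := by
  obtain ⟨c, hc, h⟩ := rid_form' G hG hd S hS 1 one_pos
  set n := G.natDegree with hn
  obtain ⟨B, hB, hBG⟩ : ∃ B : ℝ, 0 < B ∧ ∀ x : ℤ, 1 ≤ |x| →
      |((G.eval x : ℤ) : ℝ)| ≤ B * |(x : ℝ)| ^ n := by
    refine ⟨1 + ∑ i ∈ Finset.range (n + 1), |(G.coeff i : ℝ)|,
      by positivity, fun x hx => ?_⟩
    have hx1 : (1 : ℝ) ≤ |(x : ℝ)| := by exact_mod_cast hx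
    rw [eval_eq_sum_range]
    push_cast
    calc |∑ i ∈ Finset.range (G.natDegree + 1), (G.coeff i : ℝ) * (x : ℝ) ^ i|
        ≤ ∑ i ∈ Finset.range (n + 1), |(G.coeff i : ℝ) * (x : ℝ) ^ i| :=
          Finset.abs_sum_le_sum_abs _ _
      _ ≤ ∑ i ∈ Finset.range (n + 1), |(G.coeff i : ℝ)| * |(x : ℝ)| ^ n := by
          refine Finset.sum_le_sum fun i hi => ?_
          rw [abs_mul, abs_pow]
          refine mul_le_mul_of_nonneg_left ?_ (abs_nonneg _)
          exact pow_le_pow_right₀ hx1 (by have := Finset.mem_range.1 hi; omega)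
      _ = (∑ i ∈ Finset.range (n + 1), |(G.coeff i : ℝ)|) * |(x : ℝ)| ^ n := by
          rw [Finset.sum_mul]
      _ ≤ _ := by
          refine mul_le_mul_of_nonneg_right (by linarith) (by positivity)
  refine ⟨B / c, by positivity, fun x hx hx0 => ?_⟩
  have hx1 : (1 : ℝ) ≤ |(x : ℝ)| := by exact_mod_cast hx
  have hx00 : (0 : ℝ) < |(x : ℝ)| := by linarith
  have hfv : fv n G x 1 = G.eval x := by
    unfold fv
    rw [eval_eq_sum_range]
    refine Finset.sum_congr rfl fun i _ => ?_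
    rw [one_pow, mul_one]
  have h1 := h x 1 isCoprime_one_right (by rw [hfv]; exact hx0)
  rw [hfv] at h1
  have h2 := part_norm hS hx0
  have hpos : (0 : ℝ) < part S (G.eval x) := by exact_mod_cast part_pos hS _
  have h3 : ∏ p ∈ S, (padicNorm p ((G.eval x : ℤ) : ℚ) : ℝ) = 1 / part S (G.eval x) := by
    rw [eq_div_iff hpos.ne', mul_comm]
    exact h2
  rw [h3] at h1
  have hmax : max |(x : ℝ)| |((1 : ℤ) : ℝ)| = |(x : ℝ)| := by
    rw [Int.cast_one, abs_one]
    exact max_eq_left hx1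
  rw [hmax] at h1
  have h4 : |(x : ℝ)| ^ ((n : ℝ) - 2 - 1) * |(x : ℝ)| ^ 3 = |(x : ℝ)| ^ n := by
    rw [← Real.rpow_natCast, ← Real.rpow_add hx00, ← Real.rpow_natCast]
    congr 1
    push_cast
    ring
  have h5 : c * |(x : ℝ)| ^ ((n : ℝ) - 2 - 1) * part S (G.eval x) ≤ B * |(x : ℝ)| ^ n := by
    calc c * |(x : ℝ)| ^ ((n : ℝ) - 2 - 1) * part S (G.eval x)
        ≤ |((G.eval x : ℤ) : ℝ)| * (1 / part S (G.eval x)) * part S (G.eval x) :=
          mul_le_mul_of_nonneg_right h1 hpos.le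
      _ = |((G.eval x : ℤ) : ℝ)| := by field_simp
      _ ≤ _ := hBG x hx
  rw [← h4] at h5
  have h6 : 0 < |(x : ℝ)| ^ ((n : ℝ) - 2 - 1) := Real.rpow_pos_of_pos hx00 _
  rw [div_mul_eq_mul_div, le_div_iff₀ hc]
  have h7 : |(x : ℝ)| ^ ((n : ℝ) - 2 - 1) * (part S (G.eval x) * c) ≤
      |(x : ℝ)| ^ ((n : ℝ) - 2 - 1) * (B * |(x : ℝ)| ^ 3) := by
    calc |(x : ℝ)| ^ ((n : ℝ) - 2 - 1) * (part S (G.eval x) * c)
        = c * |(x : ℝ)| ^ ((n : ℝ) - 2 - 1) * part S (G.eval x) := by ring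
      _ ≤ B * (|(x : ℝ)| ^ ((n : ℝ) - 2 - 1) * |(x : ℝ)| ^ 3) := h5
      _ = _ := by ring
  exact le_of_mul_le_mul_left h7 h6

end Pool.Agent.X61.CU
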