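import Mathlib
import Pool.Agent.X61.CU.Poly

/-!
The part composed of given primes of the values of a polynomial along trajectories: windows.
-/

namespace Pool.Agent.X61.CU

open Polynomial

theorem eval_ne {g : ℤ[X]} (hg : Irreducible (g.map (Int.castRingHom ℚ))) (hd : 2 ≤ g.natDegree)
    (y : ℤ) : g.eval y ≠ 0 := by
  intro h0
  have h1 : (g.map (Int.castRingHom ℚ)).IsRoot (y : ℚ) := by
    rw [IsRoot, eval_intCast_map]
    simp [h0]
  have h2 : (g.map (Int.castRingHom ℚ)).natDegree = 1 :=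
    natDegree_eq_of_degree_eq_some (degree_eq_one_of_irreducible_of_root hg h1)
  have h3 : (g.map (Int.castRingHom ℚ)).natDegree = g.natDegree :=
    natDegree_map_eq_of_injective (RingHom.injective_int _) g
  omega

/-- one word -/
theorem word_poly {g : ℤ[X]} (hg : Irreducible (g.map (Int.castRingHom ℚ))) (hd : 2 ≤ g.natDegree)
    (S : Finset ℕ) (hS : ∀ p ∈ S, p.Prime) (J : ℕ) (hJ : 1 ≤ J) (a b : ℕ → ℚ) (ha : ∀ i, a i ≠ 0)
    (hcop : ∀ i j, i < j → |a j / a i| ≠ 1) :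
    ∃ A : ℝ, 0 < A ∧ ∀ (x : ℤ) (y : ℕ → ℤ), 1 ≤ |x| → (∀ i < J, (y i : ℚ) = a i * x + b i) →
      ∏ i ∈ Finset.range J, (part S (g.eval (y i)) : ℝ) ≤ A * |(x : ℝ)| ^ 3 := by
  set gQ := g.map (Int.castRingHom ℚ) with hgQ
  have hdQ : gQ.natDegree = g.natDegree :=
    natDegree_map_eq_of_injective (RingHom.injective_int _) g
  set P : ℚ[X] := ∏ i ∈ Finset.range J, gQ.comp (C (a i) * X + C (b i)) with hP
  have hirr : ∀ i, Irreducible (gQ.comp (C (a i) * X + C (b i))) := fun i => irr_comp (ha i) hg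
  have hrel : ∀ i j, i < j → IsRelPrime (gQ.comp (C (a i) * X + C (b i)))
      (gQ.comp (C (a j) * X + C (b j))) := by
    intro i j hij
    rw [(hirr i).isRelPrime_iff_not_dvd]
    intro hdvd
    -- substitute the inverse of the first map
    obtain ⟨q, hq⟩ := hdvd
    have h1 : (gQ.comp (C (a j) * X + C (b j))).comp (C ((a i)⁻¹) * X + C (-(b i / a i))) =
        (gQ.comp (C (a i) * X + C (b i))).comp (C ((a i)⁻¹) * X + C (-(b i / a i))) *
          q.comp (C ((a i)⁻¹) * X + C (-(b i / a i))) := by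
      rw [hq, mul_comp]
    have h2 : (gQ.comp (C (a i) * X + C (b i))).comp (C ((a i)⁻¹) * X + C (-(b i / a i))) = gQ := by
      rw [comp_assoc]
      have e : (C (a i) * X + C (b i)).comp (C ((a i)⁻¹) * X + C (-(b i / a i))) = (X : ℚ[X]) := by
        simp only [add_comp, mul_comp, C_comp, X_comp]
        rw [mul_add, ← mul_assoc, ← C_mul, ← C_mul, mul_inv_cancel₀ (ha i), add_assoc, ← C_add]
        have : a i * -(b i / a i) + b i = 0 := by
          have := ha i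
          field_simp
          ring
        rw [this]
        simp
      rw [e, comp_X]
    have h3 : (gQ.comp (C (a j) * X + C (b j))).comp (C ((a i)⁻¹) * X + C (-(b i / a i))) =
        gQ.comp (C (a j / a i) * X + C (a j * -(b i / a i) + b j)) := by
      rw [comp_assoc]
      congr 1
      simp only [add_comp, mul_comp, C_comp, X_comp]
      rw [mul_add, ← mul_assoc, ← C_mul, ← C_mul, add_assoc, ← C_add, ← div_eq_mul_inv]
    rw [h2, h3] at h1
    exact not_dvd_comp hg (by omega) (div_ne_zero (ha j) (ha i)) (hcop i j hij) ⟨_, h1⟩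
  have hsq : Squarefree P := by
    refine Finset.squarefree_prod_of_pairwise_isCoprime ?_ fun i _ => (hirr i).squarefree
    intro i _ j _ hij
    rcases lt_or_gt_of_ne hij with h | h
    · exact hrel i j h
    · exact (hrel j i h).symm
  have hPdeg : 1 ≤ P.natDegree := by
    have h0 : gQ.comp (C (a 0) * X + C (b 0)) ∣ P :=
      Finset.dvd_prod_of_mem _ (Finset.mem_range.2 (by omega))
    have h1 := natDegree_le_of_dvd h0 hsq.ne_zero
    have h2 := (hirr 0).natDegree_pos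
    omega
  obtain ⟨β, hβ, hGβ⟩ := IsLocalization.integerNormalization_spec (nonZeroDivisors ℤ) P
  set G := IsLocalization.integerNormalization (nonZeroDivisors ℤ) P with hG
  have hβ0 : β ≠ 0 := nonZeroDivisors.ne_zero hβ
  have hβQ : (β : ℚ) ≠ 0 := by exact_mod_cast hβ0
  have hGmap : G.map (Int.castRingHom ℚ) = C (β : ℚ) * P := by
    have h1 : G.map (algebraMap ℤ ℚ) = β • P := hGβ
    have h2 : (algebraMap ℤ ℚ) = Int.castRingHom ℚ := rfl
    rw [h2] at h1
    rw [h1, zsmul_eq_mul]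
    congr 1
  have hunit : IsUnit (C (β : ℚ)) := isUnit_C.2 hβQ.isUnit
  have hGsq : Squarefree (G.map (Int.castRingHom ℚ)) := by
    rw [hGmap]
    exact hsq.squarefree_of_dvd ((IsUnit.mul_left_dvd hunit).2 dvd_rfl)
  have hGdeg : 1 ≤ G.natDegree := by
    rw [← natDegree_map_eq_of_injective (RingHom.injective_int (Int.castRingHom ℚ)) G, hGmap,
      natDegree_C_mul hβQ]
    exact hPdeg
  obtain ⟨A, hA, h⟩ := part_poly G hGsq hGdeg S hS
  refine ⟨A, hA, fun x y hx hy => ?_⟩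
  have heval : G.eval x = β * ∏ i ∈ Finset.range J, g.eval (y i) := by
    have h1 : (G.map (Int.castRingHom ℚ)).eval (x : ℚ) = β * P.eval (x : ℚ) := by
      rw [hGmap, eval_mul, eval_C]
    rw [eval_intCast_map] at h1
    have h2 : P.eval (x : ℚ) = ∏ i ∈ Finset.range J, ((g.eval (y i) : ℤ) : ℚ) := by
      rw [hP, eval_prod]
      refine Finset.prod_congr rfl fun i hi => ?_
      rw [eval_comp]
      simp only [eval_add, eval_mul, eval_C, eval_X]
      rw [← hy i (Finset.mem_range.1 hi), hgQ, eval_intCast_map]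
      rfl
    rw [h2] at h1
    have h3 : ((G.eval x : ℤ) : ℚ) = ((β * ∏ i ∈ Finset.range J, g.eval (y i) : ℤ) : ℚ) := by
      push_cast
      exact h1
    exact_mod_cast h3
  have hne : ∀ i ∈ Finset.range J, g.eval (y i) ≠ 0 := fun i _ => eval_ne hg hd _
  have hprod : ∏ i ∈ Finset.range J, g.eval (y i) ≠ 0 := Finset.prod_ne_zero_iff.2 hne
  have h1 := h x hx (by rw [heval]; exact mul_ne_zero hβ0 hprod)
  refine le_trans ?_ h1
  rw [heval, part_mul hS hβ0 hprod, part_prod hS _ _ hne]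
  push_cast
  have h2 : (1 : ℝ) ≤ part S β := by exact_mod_cast part_pos hS β
  have h3 : (0 : ℝ) ≤ ∏ i ∈ Finset.range J, (part S (g.eval (y i)) : ℝ) :=
    Finset.prod_nonneg fun i _ => Nat.cast_nonneg _
  nlinarith

theorem PA.ratio {ι : Type} (M : PA ι) (w : ℕ → ι) {i j : ℕ} (hij : i ≤ j) :
    M.sl w j / M.sl w i = M.sl (fun k => w (i + k)) (j - i) := by
  have h := (M.comp w i (j - i)).1
  rw [show i + (j - i) = j by omega] at h
  rw [h, mul_div_assoc, div_self (M.sl_ne w i), mul_one]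

/-- **Windows.** -/
theorem window_poly {ι : Type} [Finite ι] (M : PA ι) (hsl : ∀ w k, 1 ≤ k → |M.sl w k| ≠ 1) {g : ℤ[X]}
    (hg : Irreducible (g.map (Int.castRingHom ℚ))) (hd : 2 ≤ g.natDegree) (S : Finset ℕ)
    (hS : ∀ p ∈ S, p.Prime) (J : ℕ) : ∃ X : ℕ, ∀ x : ℤ, (X : ℤ) < |x| →
      ∑ i ∈ Finset.range J, Real.log (part S (g.eval (M.f^[i] x))) ≤ 4 * Real.log |(x : ℝ)| := by
  rcases Nat.eq_zero_or_pos J with hJ | hJ
  · subst hJ
    refine ⟨1, fun x hx => ?_⟩
    have hx1 : (1 : ℝ) ≤ |(x : ℝ)| := by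
      have : (1 : ℤ) ≤ |x| := le_of_lt (by exact_mod_cast hx)
      exact_mod_cast this
    have := Real.log_nonneg hx1
    simp only [Finset.range_zero, Finset.sum_empty]
    linarith
  set Q : Set (Fin J → ℚ × ℚ) := Set.range fun w : ℕ → ι => fun i : Fin J => (M.sl w i, M.co w i)
    with hQ
  have hQfin : Q.Finite := by
    refine (Set.Finite.pi' (t := fun i : Fin J => Set.range fun w : ℕ → ι => (M.sl w i, M.co w i))
      fun i => M.forms_finite i).subset ?_
    rintro _ ⟨w, rfl⟩ i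
    exact ⟨w, rfl⟩
  have hex : ∀ q : Fin J → ℚ × ℚ, ∃ A : ℝ, q ∈ Q → 0 < A ∧ ∀ (x : ℤ) (y : ℕ → ℤ), 1 ≤ |x| →
      (∀ i : Fin J, (y i : ℚ) = (q i).1 * x + (q i).2) →
      ∏ i ∈ Finset.range J, (part S (g.eval (y i)) : ℝ) ≤ A * |(x : ℝ)| ^ 3 := by
    intro q
    by_cases hq : q ∈ Q
    · obtain ⟨w, rfl⟩ := hq
      obtain ⟨A, hA, h⟩ := word_poly hg hd S hS J hJ (M.sl w) (M.co w) (M.sl_ne w) (by
        intro i j hij
        rw [M.ratio w hij.le]
        exact hsl _ _ (by omega))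
      exact ⟨A, fun _ => ⟨hA, fun x y hx hy => h x y hx fun i hi => hy ⟨i, hi⟩⟩⟩
    · exact ⟨0, fun h => absurd h hq⟩
  choose A hA using hex
  obtain ⟨B, hB⟩ : ∃ B : ℝ, ∀ q ∈ Q, A q ≤ B := by
    obtain ⟨B, hB⟩ := (hQfin.image A).bddAbove
    exact ⟨B, fun q hq => hB ⟨q, hq, rfl⟩⟩
  obtain ⟨X, hX⟩ := exists_nat_ge (max B 1)
  refine ⟨X, fun x hx => ?_⟩
  have hxX : (X : ℝ) < |(x : ℝ)| := by exact_mod_cast hx
  have hxB : B ≤ |(x : ℝ)| := by linarith [le_max_left B 1]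
  have hx1 : (1 : ℝ) ≤ |(x : ℝ)| := by linarith [le_max_right B 1]
  have hx1' : (1 : ℤ) ≤ |x| := by exact_mod_cast hx1
  set q : Fin J → ℚ × ℚ := fun i => (M.sl (M.wd x) i, M.co (M.wd x) i) with hq
  have hqQ : q ∈ Q := ⟨M.wd x, rfl⟩
  have h1 := (hA q hqQ).2 x (fun i => M.f^[i] x) hx1' fun i => M.iter x i
  have h2 : ∏ i ∈ Finset.range J, (part S (g.eval (M.f^[i] x)) : ℝ) ≤ |(x : ℝ)| ^ 4 := by
    refine h1.trans ?_
    calc A q * |(x : ℝ)| ^ 3 ≤ |(x : ℝ)| * |(x : ℝ)| ^ 3 :=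
          mul_le_mul_of_nonneg_right ((hB q hqQ).trans hxB) (by positivity)
      _ = |(x : ℝ)| ^ 4 := by ring
  rw [← Real.log_prod fun i _ => by
    have := part_pos hS (g.eval (M.f^[i] x))
    positivity]
  have h3 : Real.log (∏ i ∈ Finset.range J, (part S (g.eval (M.f^[i] x)) : ℝ)) ≤
      Real.log (|(x : ℝ)| ^ 4) := by
    refine Real.log_le_log (Finset.prod_pos fun i _ => ?_) h2
    exact_mod_cast part_pos hS _
  rw [Real.log_pow] at h3
  push_cast at h3
  exact h3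

theorem log_iter {f : ℤ → ℤ} {A : ℝ} (hA : 1 ≤ A) (hup : ∀ x : ℤ, x ≠ 0 → |(f x : ℝ)| ≤ A * |(x : ℝ)|)
    (hlo : ∀ x : ℤ, x ≠ 0 → |(x : ℝ)| ≤ A * |(f x : ℝ)|) {x : ℤ} (hx : ∀ k, f^[k] x ≠ 0) (i : ℕ) :
    Real.log |(x : ℝ)| - i * Real.log A ≤ Real.log |(f^[i] x : ℝ)| ∧
      Real.log |(f^[i] x : ℝ)| ≤ Real.log |(x : ℝ)| + i * Real.log A := by
  induction i with
  | zero => simp
  | succ i ih =>
    obtain ⟨h1, h2⟩ := ih
    have h0 := hx i
    have h0' := hx (i + 1)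
    rw [Function.iterate_succ_apply'] at h0' ⊢
    have a0 : 0 < |(f^[i] x : ℝ)| := abs_pos.2 (by exact_mod_cast h0)
    have a1 : 0 < |(f (f^[i] x) : ℝ)| := abs_pos.2 (by exact_mod_cast h0')
    have hA0 : 0 < A := by linarith
    have h3 := Real.log_le_log a1 (hup _ h0)
    have h4 := Real.log_le_log a0 (hlo _ h0)
    rw [Real.log_mul hA0.ne' a0.ne'] at h3
    rw [Real.log_mul hA0.ne' a1.ne'] at h4
    push_cast
    constructor <;> linarith

/-- **Sums along trajectories.** -/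
theorem sum_traj {f : ℤ → ℤ} {h : ℤ → ℝ} {K A : ℝ} (hK : 0 < K) (hA : 1 ≤ A) (hh : ∀ x, 0 ≤ h x)
    (hup : ∀ x : ℤ, x ≠ 0 → |(f x : ℝ)| ≤ A * |(x : ℝ)|)
    (hlo : ∀ x : ℤ, x ≠ 0 → |(x : ℝ)| ≤ A * |(f x : ℝ)|)
    (hw : ∀ J : ℕ, ∃ X : ℕ, ∀ x : ℤ, (X : ℤ) < |x| →
      ∑ i ∈ Finset.range J, h (f^[i] x) ≤ K * Real.log |(x : ℝ)|) (ε : ℝ) (hε : 0 < ε) :
    ∃ F : Finset ℤ, ∀ x : ℤ, (∃ k : ℕ, f^[k] x ∈ F) ∨
      ∀ N : ℕ, ∑ k ∈ Finset.range N, h (f^[k] x) ≤
        ε * ∑ k ∈ Finset.range N, Real.log |(f^[k] x : ℝ)| + K * Real.log |(x : ℝ)| := by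
  obtain ⟨J0, hJ0⟩ := exists_nat_ge (2 * K / ε)
  set J := J0 + 1 with hJ
  have hJR : (J : ℝ) = J0 + 1 := by rw [hJ]; push_cast; ring
  have hJε : 2 * K ≤ ε * J := by
    rw [div_le_iff₀ hε] at hJ0
    rw [hJR]
    nlinarith
  have hlogA : 0 ≤ Real.log A := Real.log_nonneg hA
  obtain ⟨X, hX⟩ := hw J
  -- a bound for the size
  set L : ℝ := (K * J * Real.log A + ε * J * J * Real.log A) / K with hL
  obtain ⟨Y, hY⟩ := exists_nat_ge (Real.exp L)
  set W : ℕ := max (max X Y) 1 with hW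
  refine ⟨Finset.Icc (-(W : ℤ)) W, fun x => ?_⟩
  by_cases hx : ∃ k : ℕ, f^[k] x ∈ Finset.Icc (-(W : ℤ)) W
  · exact Or.inl hx
  refine Or.inr ?_
  have hbig : ∀ x : ℤ, (∀ k, f^[k] x ∉ Finset.Icc (-(W : ℤ)) W) → ∀ k, (W : ℤ) < |f^[k] x| := by
    intro x hx k
    by_contra hcon
    exact hx k (Finset.mem_Icc.2 (abs_le.1 (not_lt.1 hcon)))
  push Not at hx
  have main : ∀ N : ℕ, ∀ x : ℤ, (∀ k, f^[k] x ∉ Finset.Icc (-(W : ℤ)) W) →
      ∑ k ∈ Finset.range N, h (f^[k] x) ≤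
        ε * ∑ k ∈ Finset.range N, Real.log |(f^[k] x : ℝ)| + K * Real.log |(x : ℝ)| := by
    intro N
    induction N using Nat.strong_induction_on with
    | _ N ih =>
      intro x hx
      have hb := hbig x hx
      have hX' : (X : ℤ) < |x| := by
        refine lt_of_le_of_lt ?_ (hb 0)
        exact_mod_cast (le_max_left X Y).trans (le_max_left _ 1)
      have hone : ∀ k, (1 : ℝ) ≤ |(f^[k] x : ℝ)| := by
        intro k
        have h1 : (1 : ℤ) < |f^[k] x| := lt_of_le_of_lt (by exact_mod_cast le_max_right _ 1) (hb k)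
        exact_mod_cast h1.le
      have hne : ∀ k, f^[k] x ≠ 0 := by
        intro k h0
        have := hone k
        rw [h0] at this
        simp at this
        linarith
      have hlog : ∀ k, 0 ≤ Real.log |(f^[k] x : ℝ)| := fun k => Real.log_nonneg (hone k)
      have hsum : ∀ n, 0 ≤ ∑ k ∈ Finset.range n, Real.log |(f^[k] x : ℝ)| :=
        fun n => Finset.sum_nonneg fun k _ => hlog k
      have hwin := hX x hX'
      rcases Nat.lt_or_ge N J with hN | hN
      · have h1 : ∑ k ∈ Finset.range N, h (f^[k] x) ≤ ∑ k ∈ Finset.range J, h (f^[k] x) :=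
          Finset.sum_le_sum_of_subset_of_nonneg (Finset.range_subset_range.2 hN.le)
            fun _ _ _ => hh _
        have h2 : 0 ≤ ε * ∑ k ∈ Finset.range N, Real.log |(f^[k] x : ℝ)| :=
          mul_nonneg hε.le (hsum N)
        linarith
      · obtain ⟨N', rfl⟩ : ∃ N', N = J + N' := ⟨N - J, by omega⟩
        have h1 := ih N' (by omega) (f^[J] x) (fun k => by
          rw [← Function.iterate_add_apply]
          exact hx _)
        have e1 : ∀ F : ℤ → ℝ, ∑ k ∈ Finset.range (J + N'), F (f^[k] x) =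
            ∑ k ∈ Finset.range J, F (f^[k] x) + ∑ k ∈ Finset.range N', F (f^[k] (f^[J] x)) := by
          intro F
          rw [Finset.sum_range_add]
          congr 1
          refine Finset.sum_congr rfl fun k _ => ?_
          rw [← Function.iterate_add_apply, Nat.add_comm k J]
        have e2 := e1 h
        have e3 := e1 fun z => Real.log |(z : ℝ)|
        rw [e2, e3]
        -- the step
        have hxlog : L ≤ Real.log |(x : ℝ)| := by
          have hx1 : (1 : ℝ) ≤ |(x : ℝ)| := hone 0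
          rw [Real.le_log_iff_exp_le (by linarith)]
          have h2 : (Y : ℤ) < |x| := by
            refine lt_of_le_of_lt ?_ (hb 0)
            exact_mod_cast (le_max_right X Y).trans (le_max_left _ 1)
          have h3 : (Y : ℝ) < |(x : ℝ)| := by exact_mod_cast h2
          linarith
        have h4 : (J : ℝ) * (Real.log |(x : ℝ)| - J * Real.log A) ≤
            ∑ k ∈ Finset.range J, Real.log |(f^[k] x : ℝ)| := by
          rw [← Finset.card_range J, ← nsmul_eq_mul, Finset.card_range]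
          rw [show J • (Real.log |(x : ℝ)| - J * Real.log A) =
            ∑ _k ∈ Finset.range J, (Real.log |(x : ℝ)| - J * Real.log A) by
              rw [Finset.sum_const, Finset.card_range]]
          refine Finset.sum_le_sum fun k hk => ?_
          have h5 := (log_iter hA hup hlo hne k).1
          have h6 : (k : ℝ) * Real.log A ≤ J * Real.log A := by
            refine mul_le_mul_of_nonneg_right ?_ hlogA
            exact_mod_cast (Finset.mem_range.1 hk).le
          linarith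
        have h5 := (log_iter hA hup hlo hne J).2
        have h6 : K * Real.log |(f^[J] x : ℝ)| ≤
            ε * ∑ k ∈ Finset.range J, Real.log |(f^[k] x : ℝ)| := by
          have h7 : ε * ((J : ℝ) * (Real.log |(x : ℝ)| - J * Real.log A)) ≤
              ε * ∑ k ∈ Finset.range J, Real.log |(f^[k] x : ℝ)| :=
            mul_le_mul_of_nonneg_left h4 hε.le
          refine le_trans ?_ h7
          have h8 : K * Real.log |(f^[J] x : ℝ)| ≤ K * (Real.log |(x : ℝ)| + J * Real.log A) :=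
            mul_le_mul_of_nonneg_left h5 hK.le
          refine h8.trans ?_
          have h9 : K * J * Real.log A + ε * J * J * Real.log A ≤ K * Real.log |(x : ℝ)| := by
            rw [hL, div_le_iff₀ hK] at hxlog
            linarith
          have h10 : 0 ≤ Real.log |(x : ℝ)| := hlog 0
          nlinarith
        linarith
  exact fun N => main N x hx

theorem sum_shift {f : ℤ → ℤ} (F : ℤ → ℝ) (x : ℤ) (J N : ℕ) :
    ∑ k ∈ Finset.range (J + N), F (f^[k] x) =
      ∑ k ∈ Finset.range J, F (f^[k] x) + ∑ k ∈ Finset.range N, F (f^[k] (f^[J] x)) := by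
  rw [Finset.sum_range_add]
  congr 1
  refine Finset.sum_congr rfl fun k _ => ?_
  rw [← Function.iterate_add_apply, Nat.add_comm k J]

theorem sum_cycle {f : ℤ → ℤ} (F : ℤ → ℝ) {x : ℤ} {Z : Finset ℤ} (hx : f^[Z.card] x = x)
    (hZ : Z = (Finset.range Z.card).image fun i => f^[i] x) (t : ℕ) :
    ∑ k ∈ Finset.range (t * Z.card), F (f^[k] x) = t * ∑ z ∈ Z, F z := by
  have h1 : ∑ k ∈ Finset.range Z.card, F (f^[k] x) = ∑ z ∈ Z, F z := by
    have hinj : Set.InjOn (fun i => f^[i] x) (Finset.range Z.card : Set ℕ) := by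
      apply Finset.injOn_of_card_image_eq
      rw [← hZ, Finset.card_range]
    conv_rhs => rw [hZ]
    rw [Finset.sum_image fun i hi j hj h => hinj hi hj h]
  induction t with
  | zero => simp
  | succ t ih =>
    rw [add_mul, one_mul, add_comm (t * Z.card), sum_shift, hx, ih, h1]
    push_cast
    ring

/-- **Cycles.** -/
theorem sum_cyc {f : ℤ → ℤ} {h : ℤ → ℝ} {K : ℝ}
    (H : ∀ ε : ℝ, 0 < ε → ∃ F : Finset ℤ, ∀ x : ℤ, (∃ k : ℕ, f^[k] x ∈ F) ∨
      ∀ N : ℕ, ∑ k ∈ Finset.range N, h (f^[k] x) ≤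
        ε * ∑ k ∈ Finset.range N, Real.log |(f^[k] x : ℝ)| + K * Real.log |(x : ℝ)|)
    (ε : ℝ) (hε : 0 < ε) :
    {Z : Finset ℤ | Cyc f Z ∧ ε * ∑ z ∈ Z, Real.log |(z : ℝ)| < ∑ z ∈ Z, h z}.Finite := by
  obtain ⟨F, hF⟩ := H ε hε
  refine (Cyc.finite_meet f F).subset ?_
  rintro Z ⟨hZ, hlt⟩
  refine ⟨hZ, ?_⟩
  obtain ⟨x, hxZ, hp, hx, himg⟩ := hZ.period
  rcases hF x with ⟨k, hk⟩ | hN
  · exact ⟨_, hZ.iter_mem hxZ k, hk⟩
  · exfalso
    set δ : ℝ := ∑ z ∈ Z, h z - ε * ∑ z ∈ Z, Real.log |(z : ℝ)| with hδ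
    have hδ0 : 0 < δ := by linarith
    obtain ⟨t, ht⟩ := exists_nat_gt (K * Real.log |(x : ℝ)| / δ)
    have h1 := hN (t * Z.card)
    rw [sum_cycle h hx himg, sum_cycle (fun z => Real.log |(z : ℝ)|) hx himg] at h1
    rw [div_lt_iff₀ hδ0] at ht
    rw [hδ] at ht
    nlinarith

/-- **Trajectories which are not eventually periodic.** -/
theorem sum_inj {f : ℤ → ℤ} {h : ℤ → ℝ} {K : ℝ}
    (H : ∀ ε : ℝ, 0 < ε → ∃ F : Finset ℤ, ∀ x : ℤ, (∃ k : ℕ, f^[k] x ∈ F) ∨
      ∀ N : ℕ, ∑ k ∈ Finset.range N, h (f^[k] x) ≤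
        ε * ∑ k ∈ Finset.range N, Real.log |(f^[k] x : ℝ)| + K * Real.log |(x : ℝ)|)
    (ε : ℝ) (hε : 0 < ε) (x : ℤ) (hx : ∀ i j : ℕ, f^[i] x = f^[j] x → i = j) :
    ∀ᶠ N : ℕ in Filter.atTop, ∑ k ∈ Finset.range N, h (f^[k] x) ≤
      ε * ∑ k ∈ Finset.range N, Real.log |(f^[k] x : ℝ)| := by
  obtain ⟨F, hF⟩ := H (ε / 2) (by linarith)
  -- the trajectory leaves all finite sets
  obtain ⟨k0, hk0⟩ : ∃ k0 : ℕ, ∀ k ≥ k0, f^[k] x ∉ F ∪ Finset.Icc (-3) 3 := by
    have hfin : {k : ℕ | f^[k] x ∈ F ∪ Finset.Icc (-3) 3}.Finite :=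
      Set.Finite.of_injOn (f := fun k => f^[k] x) (t := ((F ∪ Finset.Icc (-3) 3 : Finset ℤ) : Set ℤ))
        (fun k hk => hk) (fun i _ j _ hij => hx i j hij) (Finset.finite_toSet _)
    obtain ⟨k0, hk0⟩ := hfin.bddAbove
    refine ⟨k0 + 1, fun k hk hkF => ?_⟩
    have := hk0 hkF
    omega
  have hlog : ∀ k, 0 ≤ Real.log |(f^[k] x : ℝ)| := by
    intro k
    by_cases h0 : f^[k] x = 0
    · rw [h0]
      simp
    · refine Real.log_nonneg ?_
      exact_mod_cast Int.one_le_abs h0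
  have hlog1 : ∀ k ≥ k0, 1 ≤ Real.log |(f^[k] x : ℝ)| := by
    intro k hk
    have h1 := hk0 k hk
    have h2 : (3 : ℤ) < |f^[k] x| := by
      by_contra hcon
      exact h1 (Finset.mem_union_right _ (Finset.mem_Icc.2 (abs_le.1 (not_lt.1 hcon))))
    have h3 : (3 : ℝ) < |(f^[k] x : ℝ)| := by exact_mod_cast h2
    rw [Real.le_log_iff_exp_le (by linarith)]
    have := Real.exp_one_lt_d9
    linarith
  set y : ℤ := f^[k0] x with hy
  have hN : ∀ N : ℕ, ∑ k ∈ Finset.range N, h (f^[k] y) ≤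
      ε / 2 * ∑ k ∈ Finset.range N, Real.log |(f^[k] y : ℝ)| + K * Real.log |(y : ℝ)| := by
    rcases hF y with ⟨k, hk⟩ | hN
    · rw [hy, ← Function.iterate_add_apply] at hk
      exact absurd (Finset.mem_union_left _ hk) (hk0 _ (by omega))
    · exact hN
  set c : ℝ := ∑ k ∈ Finset.range k0, h (f^[k] x) + K * Real.log |(y : ℝ)| with hc
  obtain ⟨n1, hn1⟩ := exists_nat_ge (2 * c / ε)
  filter_upwards [Filter.eventually_ge_atTop (k0 + n1)] with N hNge
  obtain ⟨N', rfl⟩ : ∃ N', N = k0 + N' := ⟨N - k0, by omega⟩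
  rw [sum_shift h, sum_shift fun z => Real.log |(z : ℝ)|]
  have h1 := hN N'
  have h2 : 0 ≤ ∑ k ∈ Finset.range k0, Real.log |(f^[k] x : ℝ)| := Finset.sum_nonneg fun k _ => hlog k
  have h3 : (N' : ℝ) ≤ ∑ k ∈ Finset.range N', Real.log |(f^[k] y : ℝ)| := by
    calc (N' : ℝ) = ∑ _k ∈ Finset.range N', (1 : ℝ) := by simp
      _ ≤ _ := by
        refine Finset.sum_le_sum fun k _ => ?_
        rw [hy, ← Function.iterate_add_apply]
        exact hlog1 _ (by omega)
  have h4 : 2 * c / ε ≤ N' := by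
    refine hn1.trans ?_
    exact_mod_cast (by omega : n1 ≤ N')
  rw [div_le_iff₀ hε] at h4
  have h5 : c ≤ ε / 2 * ∑ k ∈ Finset.range N', Real.log |(f^[k] y : ℝ)| := by nlinarith
  have h6 : 0 ≤ ε * ∑ k ∈ Finset.range k0, Real.log |(f^[k] x : ℝ)| := mul_nonneg hε.le h2
  rw [hc] at h5
  linarith

end Pool.Agent.X61.CU
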