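import Mathlib

/-!
The `3x+1` map on the integers and its cycles: the affine formula, cycles with small elements, a
counting lemma.
-/

namespace Pool.Agent.X61.CU

/-- The 3x+1 map on the integers. -/
def T (x : ℤ) : ℤ := if x % 2 = 0 then x / 2 else (3 * x + 1) / 2

/-- `Z` is a cycle of `T`. -/
def IsCycle (Z : Finset ℤ) : Prop :=
  ∃ (x : ℤ) (p : ℕ), 1 ≤ p ∧ T^[p] x = x ∧ Z = (Finset.range p).image fun i => T^[i] x

/-- the number of odd terms among the first `n` terms -/
def od (x : ℤ) : ℕ → ℕ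
  | 0 => 0
  | n + 1 => od x n + if T^[n] x % 2 = 0 then 0 else 1

/-- the constant term -/
def cc (x : ℤ) : ℕ → ℤ
  | 0 => 0
  | n + 1 => if T^[n] x % 2 = 0 then cc x n else 3 * cc x n + 2 ^ n

theorem T_even {x : ℤ} (h : x % 2 = 0) : 2 * T x = x := by
  unfold T
  rw [if_pos h]
  omega

theorem T_odd {x : ℤ} (h : ¬ x % 2 = 0) : 2 * T x = 3 * x + 1 := by
  unfold T
  rw [if_neg h]
  omega

theorem affine (x : ℤ) (n : ℕ) : 2 ^ n * T^[n] x = 3 ^ od x n * x + cc x n := by
  induction n with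
  | zero => simp [od, cc]
  | succ n ih =>
    rw [Function.iterate_succ_apply', pow_succ]
    by_cases h : T^[n] x % 2 = 0
    · simp only [od, cc, if_pos h, add_zero]
      rw [mul_assoc, T_even h, ih]
    · simp only [od, cc, if_neg h]
      rw [mul_assoc, T_odd h]
      have : (2 : ℤ) ^ n * (3 * T^[n] x + 1) = 3 * (2 ^ n * T^[n] x) + 2 ^ n := by ring
      rw [this, ih]
      ring

theorem cc_bounds (x : ℤ) (n : ℕ) : 0 ≤ cc x n ∧ cc x n + 2 ^ n ≤ 3 ^ n := by
  induction n with
  | zero => simp [cc]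
  | succ n ih =>
    obtain ⟨h1, h2⟩ := ih
    have h3 : (0 : ℤ) < 2 ^ n := by positivity
    have h4 : (0 : ℤ) < 3 ^ n := by positivity
    simp only [cc]
    split_ifs
    · refine ⟨h1, ?_⟩
      rw [pow_succ, pow_succ]
      linarith
    · refine ⟨by linarith, ?_⟩
      rw [pow_succ, pow_succ]
      linarith

theorem cc_abs (x : ℤ) (n : ℕ) : |cc x n| ≤ 3 ^ n := by
  obtain ⟨h1, h2⟩ := cc_bounds x n
  rw [abs_of_nonneg h1]
  have : (0 : ℤ) < 2 ^ n := by positivity
  linarith

theorem od_le (x : ℤ) (n : ℕ) : od x n ≤ n := by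
  induction n with
  | zero => simp [od]
  | succ n ih =>
    simp only [od]
    split_ifs <;> omega

theorem od_mono (x : ℤ) {m n : ℕ} (h : m ≤ n) : od x m ≤ od x n := by
  induction n, h using Nat.le_induction with
  | base => exact le_rfl
  | succ n _ ih =>
    simp only [od]
    split_ifs <;> omega

theorem cc_pos (x : ℤ) (n : ℕ) (h : 1 ≤ od x n) : 0 < cc x n := by
  induction n with
  | zero => simp [od] at h
  | succ n ih =>
    simp only [od] at h
    simp only [cc]
    split_ifs at h ⊢ with h1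
    · exact ih h
    · have h3 : (0 : ℤ) < 2 ^ n := by positivity
      have := (cc_bounds x n).1
      linarith

/-- the number of odd terms as a cardinality -/
theorem od_card (x : ℤ) (n : ℕ) : od x n = ((Finset.range n).filter fun i => T^[i] x % 2 ≠ 0).card := by
  induction n with
  | zero => simp [od]
  | succ n ih =>
    rw [Finset.range_add_one, Finset.filter_insert]
    simp only [od]
    by_cases h : T^[n] x % 2 = 0
    · rw [if_pos h, if_neg (not_not.2 h), ih, add_zero]
    · rw [if_neg h, if_pos h, Finset.card_insert_of_notMem (by simp), ih]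

theorem od_iter (x : ℤ) (m n : ℕ) :
    od (T^[m] x) n = ((Finset.Ico m (m + n)).filter fun i => T^[i] x % 2 ≠ 0).card := by
  rw [od_card]
  refine Finset.card_bij (fun i _ => m + i) ?_ ?_ ?_
  · intro i hi
    simp only [Finset.mem_filter, Finset.mem_range, Finset.mem_Ico] at hi ⊢
    refine ⟨⟨by omega, by omega⟩, ?_⟩
    rw [Nat.add_comm, Function.iterate_add_apply]
    exact hi.2
  · intro i _ j _ h
    omega
  · intro i hi
    simp only [Finset.mem_filter, Finset.mem_Ico] at hi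
    refine ⟨i - m, ?_, by omega⟩
    simp only [Finset.mem_filter, Finset.mem_range]
    refine ⟨by omega, ?_⟩
    rw [← Function.iterate_add_apply, show i - m + m = i by omega]
    exact hi.2

/-! ### cycles -/

theorem IsCycle.normal {Z : Finset ℤ} (hZ : IsCycle Z) : ∃ x : ℤ, x ∈ Z ∧ 1 ≤ Z.card ∧
    T^[Z.card] x = x ∧ Set.InjOn (fun i => T^[i] x) (Set.Iio Z.card) ∧
    Z = (Finset.range Z.card).image fun i => T^[i] x := by
  obtain ⟨x, p, hp, hx, hZ⟩ := hZ
  have hper : x ∈ Function.periodicPts T := ⟨p, hp, hx⟩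
  set q := Function.minimalPeriod T x with hq
  have hq0 : 0 < q := Function.minimalPeriod_pos_of_mem_periodicPts hper
  have hinj : Set.InjOn (fun i => T^[i] x) (Set.Iio q) := Function.iterate_injOn_Iio_minimalPeriod
  have himg : Z = (Finset.range q).image fun i => T^[i] x := by
    rw [hZ]
    ext y
    simp only [Finset.mem_image, Finset.mem_range]
    constructor
    · rintro ⟨i, _, rfl⟩
      exact ⟨i % q, Nat.mod_lt _ hq0, Function.iterate_mod_minimalPeriod_eq⟩
    · rintro ⟨i, _, rfl⟩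
      have hpp : Function.IsPeriodicPt T p x := hx
      exact ⟨i % p, Nat.mod_lt _ hp, hpp.iterate_mod_apply i⟩
  have hcard : Z.card = q := by
    rw [himg, Finset.card_image_of_injOn, Finset.card_range]
    intro i hi j hj h
    exact hinj (by simpa using hi) (by simpa using hj) h
  refine ⟨x, ?_, ?_, ?_, ?_, ?_⟩
  · rw [himg, Finset.mem_image]
    exact ⟨0, Finset.mem_range.2 hq0, rfl⟩
  · omega
  · rw [hcard]
    exact Function.isPeriodicPt_minimalPeriod T x
  · rw [hcard]
    exact hinj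
  · rw [hcard]
    exact himg

theorem IsCycle.iter_mem {Z : Finset ℤ} (hZ : IsCycle Z) {y : ℤ} (hy : y ∈ Z) (j : ℕ) :
    T^[j] y ∈ Z := by
  obtain ⟨x, p, hp, hx, rfl⟩ := hZ
  rw [Finset.mem_image] at hy ⊢
  obtain ⟨i, _, rfl⟩ := hy
  have hpp : Function.IsPeriodicPt T p x := hx
  refine ⟨(j + i) % p, Finset.mem_range.2 (Nat.mod_lt _ hp), ?_⟩
  rw [hpp.iterate_mod_apply, Function.iterate_add_apply]

theorem IsCycle.back {Z : Finset ℤ} (hZ : IsCycle Z) {y z : ℤ} (hy : y ∈ Z) (hz : z ∈ Z) :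
    ∃ j : ℕ, T^[j] y = z := by
  obtain ⟨x, p, hp, hx, rfl⟩ := hZ
  obtain ⟨i, hi, rfl⟩ := Finset.mem_image.1 hy
  obtain ⟨j, _, rfl⟩ := Finset.mem_image.1 hz
  rw [Finset.mem_range] at hi
  refine ⟨j + (p - i), ?_⟩
  rw [← Function.iterate_add_apply, show j + (p - i) + i = j + p by omega,
    Function.iterate_add_apply, hx]

theorem IsCycle.eq_of_mem {Z Z' : Finset ℤ} (hZ : IsCycle Z) (hZ' : IsCycle Z') {y : ℤ} (hy : y ∈ Z)
    (hy' : y ∈ Z') : Z = Z' := by
  ext z
  constructor
  · intro hz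
    obtain ⟨j, rfl⟩ := hZ.back hy hz
    exact hZ'.iter_mem hy' j
  · intro hz
    obtain ⟨j, rfl⟩ := hZ'.back hy' hz
    exact hZ.iter_mem hy j

/-- only finitely many cycles have a small element -/
theorem finite_small (X : ℕ) : {Z : Finset ℤ | IsCycle Z ∧ ∃ x ∈ Z, |x| ≤ X}.Finite := by
  classical
  have h : ∀ Z : {Z : Finset ℤ // IsCycle Z ∧ ∃ x ∈ Z, |x| ≤ X}, ∃ x : ℤ, x ∈ Z.1 ∧ |x| ≤ X :=
    fun Z => Z.2.2
  choose f hf using h
  have hfin : Finite {Z : Finset ℤ // IsCycle Z ∧ ∃ x ∈ Z, |x| ≤ X} := by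
    refine Finite.of_injective (fun Z => (⟨f Z, ?_⟩ : Set.Icc (-(X : ℤ)) X)) ?_
    · exact abs_le.1 (hf Z).2
    · intro Z Z' h
      have h1 : f Z = f Z' := congrArg Subtype.val h
      apply Subtype.ext
      exact Z.2.1.eq_of_mem Z'.2.1 (hf Z).1 (h1 ▸ (hf Z').1)
  exact Set.finite_coe_iff.1 hfin

theorem IsCycle.period {Z : Finset ℤ} (hZ : IsCycle Z) {y : ℤ} (hy : y ∈ Z) : T^[Z.card] y = y := by
  obtain ⟨x, hx, _, h2, _, _⟩ := hZ.normal
  obtain ⟨j, rfl⟩ := hZ.back hx hy
  rw [← Function.iterate_add_apply, Nat.add_comm, Function.iterate_add_apply, h2]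

theorem abs_le_of_period {x : ℤ} {p : ℕ} (hp : 1 ≤ p) (h : T^[p] x = x) : |x| ≤ 3 ^ p := by
  have h1 := affine x p
  rw [h] at h1
  have h2 : ((2 : ℤ) ^ p - 3 ^ od x p) * x = cc x p := by linarith
  have h3 : (2 : ℤ) ^ p - 3 ^ od x p ≠ 0 := by
    intro h0
    have h4 : (2 : ℤ) ^ p = 3 ^ od x p := by linarith
    have h5 : Odd ((3 : ℤ) ^ od x p) := Odd.pow (by decide)
    rw [← h4] at h5
    obtain ⟨q, rfl⟩ : ∃ q, p = q + 1 := ⟨p - 1, by omega⟩
    rw [pow_succ] at h5
    exact (Int.not_odd_iff_even.2 ⟨2 ^ q, by ring⟩) h5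
  have h4 : 1 ≤ |(2 : ℤ) ^ p - 3 ^ od x p| := Int.one_le_abs h3
  have h5 : |(2 : ℤ) ^ p - 3 ^ od x p| * |x| = |cc x p| := by rw [← abs_mul, h2]
  have h6 := cc_abs x p
  have h7 : 0 ≤ |x| := abs_nonneg x
  nlinarith

/-- only finitely many cycles have few elements or a small element -/
theorem finite_exceptions (X P : ℕ) :
    {Z : Finset ℤ | IsCycle Z ∧ ¬ (P ≤ Z.card ∧ ∀ x ∈ Z, (X : ℤ) < |x|)}.Finite := by
  refine (finite_small (max X (3 ^ P))).subset ?_
  rintro Z ⟨hZ, h⟩
  refine ⟨hZ, ?_⟩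
  by_cases h1 : P ≤ Z.card
  · have h2 : ¬ ∀ x ∈ Z, (X : ℤ) < |x| := fun h2 => h ⟨h1, h2⟩
    push Not at h2
    obtain ⟨x, hx, hx2⟩ := h2
    exact ⟨x, hx, hx2.trans (by exact_mod_cast le_max_left _ _)⟩
  · obtain ⟨x, hx, h2, h3, _, _⟩ := hZ.normal
    refine ⟨x, hx, (abs_le_of_period h2 h3).trans ?_⟩
    have h4 : (3 : ℤ) ^ Z.card ≤ 3 ^ P := pow_le_pow_right₀ (by norm_num) (by omega)
    refine h4.trans ?_
    have : (3 ^ P : ℕ) ≤ max X (3 ^ P) := le_max_right _ _
    exact_mod_cast this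

/-- a set of indices with at most `m + 1` elements in each window of length `J` -/
theorem count_windows (B : Finset ℕ) (p J m : ℕ) (hJ : 0 < J) (hB : B ⊆ Finset.range p)
    (h : ∀ i ∈ B, ∀ i' ∈ B, i < i' → i' < i + J → (B.filter fun t => i ≤ t ∧ t < i').card ≤ m) :
    B.card ≤ (m + 1) * (p / J + 1) := by
  have h1 : B.card ≤ (m + 1) * (B.image fun i => i / J).card := by
    refine Finset.card_le_mul_card_image B (m + 1) ?_
    intro b hb
    set F := B.filter fun i => i / J = b with hF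
    by_contra hcon
    push Not at hcon
    have hne : F.Nonempty := Finset.card_pos.1 (by omega)
    set i := F.min' hne with hi
    set i' := F.max' hne with hi'
    have hiF : i ∈ F := F.min'_mem hne
    have hiF' : i' ∈ F := F.max'_mem hne
    have hii : i < i' := Finset.min'_lt_max'_of_card F (by omega)
    have e1 : i / J = b := (Finset.mem_filter.1 hiF).2
    have e2 : i' / J = b := (Finset.mem_filter.1 hiF').2
    have hlt : i' < i + J := by
      have h2 : i' < J * b + J := by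
        rw [← e2]
        have := Nat.lt_mul_div_succ i' hJ
        rw [Nat.mul_add, Nat.mul_one] at this
        exact this
      have h3 : J * b ≤ i := by
        rw [← e1]
        exact Nat.mul_div_le i J
      omega
    have h4 := h i (Finset.mem_filter.1 hiF).1 i' (Finset.mem_filter.1 hiF').1 hii hlt
    have h5 : F.erase i' ⊆ B.filter fun t => i ≤ t ∧ t < i' := by
      intro t ht
      obtain ⟨ht1, ht2⟩ := Finset.mem_erase.1 ht
      rw [Finset.mem_filter]
      refine ⟨(Finset.mem_filter.1 ht2).1, F.min'_le t ht2, ?_⟩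
      exact lt_of_le_of_ne (F.le_max' t ht2) ht1
    have h6 := Finset.card_le_card h5
    rw [Finset.card_erase_of_mem hiF'] at h6
    omega
  refine h1.trans (Nat.mul_le_mul_left _ ?_)
  have h2 : (B.image fun i => i / J) ⊆ Finset.range (p / J + 1) := by
    intro b hb
    rw [Finset.mem_image] at hb
    obtain ⟨i, hi, rfl⟩ := hb
    have := Finset.mem_range.1 (hB hi)
    rw [Finset.mem_range]
    exact Nat.lt_succ_of_le (Nat.div_le_div_right (by omega))
  exact (Finset.card_le_card h2).trans (by simp)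

end Pool.Agent.X61.CU
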