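import Mathlib
import Pool.Agent.X61.CU.Base
import Pool.Agent.X61.CU.Ridout

/-!
The part of the product of the elements of a cycle composed of given primes.
-/

namespace Pool.Agent.X61.CU

open Finset

/-! ### patterns -/

/-- number of odd terms before `n`, if the odd terms are at the positions `E` -/
def oE (E : Finset ℕ) : ℕ → ℕ
  | 0 => 0
  | n + 1 => oE E n + if n ∈ E then 1 else 0

/-- the constant term, if the odd terms are at the positions `E` -/
def cE (E : Finset ℕ) : ℕ → ℤ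
  | 0 => 0
  | n + 1 => if n ∈ E then 3 * cE E n + 2 ^ n else cE E n

/-- the odd terms among the first `J` terms of the trajectory of `x` are at the positions `E` -/
def HasPat (E : Finset ℕ) (J : ℕ) (x : ℤ) : Prop := ∀ n < J, (n ∈ E ↔ ¬ T^[n] x % 2 = 0)

theorem pat_eq {E : Finset ℕ} {J : ℕ} {x : ℤ} (h : HasPat E J x) :
    ∀ n ≤ J, od x n = oE E n ∧ cc x n = cE E n := by
  intro n
  induction n with
  | zero => intro _; exact ⟨rfl, rfl⟩
  | succ n ih =>
    intro hn
    obtain ⟨h1, h2⟩ := ih (by omega)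
    have h3 := h n (by omega)
    simp only [od, cc, oE, cE]
    by_cases h4 : T^[n] x % 2 = 0
    · have h5 : n ∉ E := fun h6 => (h3.1 h6) h4
      rw [if_pos h4, if_pos h4, if_neg h5, if_neg h5, h1, h2]
      exact ⟨rfl, rfl⟩
    · have h5 : n ∈ E := h3.2 h4
      rw [if_neg h4, if_neg h4, if_pos h5, if_pos h5, h1, h2]
      exact ⟨rfl, rfl⟩

theorem exists_pat (J : ℕ) (x : ℤ) : ∃ E ∈ (Finset.range J).powerset, HasPat E J x := by
  refine ⟨(Finset.range J).filter fun n => ¬ T^[n] x % 2 = 0,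
    Finset.mem_powerset.2 (Finset.filter_subset _ _), fun n hn => ?_⟩
  rw [Finset.mem_filter, Finset.mem_range]
  exact ⟨fun h => h.2, fun h => ⟨hn, h⟩⟩

/-- the zeros increase at the odd terms -/
theorem cE_lt {E : Finset ℕ} {i j : ℕ} (hij : i < j) (hi : i ∈ E) :
    cE E i * 3 ^ oE E j < cE E j * 3 ^ oE E i := by
  induction j, hij using Nat.le_induction with
  | base =>
    simp only [oE, cE, if_pos hi, pow_succ]
    have h1 : (0 : ℤ) < 2 ^ i * 3 ^ oE E i := by positivity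
    linarith
  | succ j _ ih =>
    simp only [oE, cE]
    split_ifs
    · rw [pow_succ]
      have h1 : (0 : ℤ) < 2 ^ j * 3 ^ oE E i := by positivity
      linarith
    · rw [add_zero]
      exact ih

/-! ### compositions of the two branches -/

/-- composition of the branches `z / 2` (`false`) and `(3 z + 1) / 2` (`true`) -/
def run (w : List Bool) (y : ℚ) : ℚ := w.foldl (fun z b => if b then (3 * z + 1) / 2 else z / 2) y

/-- the affine map -/
def Phi (E : Finset ℕ) (n : ℕ) (y : ℚ) : ℚ := (3 ^ oE E n * y + cE E n) / 2 ^ n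

theorem Phi_succ (E : Finset ℕ) (n : ℕ) (y : ℚ) : Phi E (n + 1) y =
    if n ∈ E then (3 * Phi E n y + 1) / 2 else Phi E n y / 2 := by
  unfold Phi
  simp only [oE, cE]
  split_ifs
  · push_cast
    rw [pow_succ, pow_succ]
    field_simp
    ring
  · rw [add_zero, pow_succ]
    field_simp

theorem Phi_run (E : Finset ℕ) {i j : ℕ} (hij : i ≤ j) :
    ∃ w : List Bool, w.length = j - i ∧ ∀ y, Phi E j y = run w (Phi E i y) := by
  induction j, hij using Nat.le_induction with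
  | base => exact ⟨[], by simp, fun y => rfl⟩
  | succ j hj ih =>
    obtain ⟨w, hw, h⟩ := ih
    refine ⟨w ++ [decide (j ∈ E)], by rw [List.length_append, hw, List.length_singleton]; omega,
      fun y => ?_⟩
    rw [Phi_succ, h y]
    unfold run
    rw [List.foldl_append]
    simp

/-- the forms have different zeros if `p / q` is not periodic -/
theorem det_ne {E : Finset ℕ} {p q : ℤ} (hq : q ≠ 0)
    (hr : ∀ w : List Bool, w ≠ [] → run w ((p : ℚ) / q) ≠ (p : ℚ) / q) {i j : ℕ} (hij : i < j) :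
    (q * 3 ^ oE E i) * (q * cE E j - 2 ^ j * p) ≠ (q * 3 ^ oE E j) * (q * cE E i - 2 ^ i * p) := by
  intro h
  obtain ⟨w, hw, hrun⟩ := Phi_run E hij.le
  have hq' : (q : ℚ) ≠ 0 := by exact_mod_cast hq
  -- the common zero
  set y : ℚ := -((q : ℚ) * cE E i - 2 ^ i * p) / (q * 3 ^ oE E i) with hy
  have h3 : ∀ n : ℕ, (3 : ℚ) ^ n ≠ 0 := fun n => by positivity
  have e1 : Phi E i y = (p : ℚ) / q := by
    unfold Phi
    rw [hy]
    field_simp
    ring
  have h' : ((q : ℚ) * 3 ^ oE E i) * (q * cE E j - 2 ^ j * p) =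
      (q * 3 ^ oE E j) * (q * cE E i - 2 ^ i * p) := by exact_mod_cast h
  have e2 : y = -((q : ℚ) * cE E j - 2 ^ j * p) / (q * 3 ^ oE E j) := by
    rw [hy, div_eq_div_iff (mul_ne_zero hq' (h3 _)) (mul_ne_zero hq' (h3 _))]
    linear_combination h'
  have e3 : Phi E j y = (p : ℚ) / q := by
    unfold Phi
    rw [e2]
    field_simp
    ring
  refine hr w ?_ ?_
  · intro h0
    rw [h0, List.length_nil] at hw
    omega
  · rw [← e1, ← hrun, e3, e1]

/-! ### blocks -/

theorem part_le {S : Finset ℕ} {m n : ℤ} (h : m ∣ n) (hn : n ≠ 0) (hS : ∀ p ∈ S, p.Prime) :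
    part S m ≤ part S n := by
  unfold part
  refine Finset.prod_le_prod' fun p hp => ?_
  refine Nat.pow_le_pow_right (hS p hp).pos ?_
  have hpf : Fact p.Prime := ⟨hS p hp⟩
  have h1 : m.natAbs ∣ n.natAbs := Int.natAbs_dvd_natAbs.2 h
  exact (padicValNat_dvd_iff_le (Int.natAbs_ne_zero.2 hn)).1 (pow_padicValNat_dvd.trans h1)

/-- the value of the form -/
theorem form_eq {E : Finset ℕ} {J : ℕ} {x : ℤ} (h : HasPat E J x) (p q : ℤ) {i : ℕ} (hi : i < J) :
    (q * 3 ^ oE E i) * x + (q * cE E i - 2 ^ i * p) = 2 ^ i * (q * T^[i] x - p) := by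
  obtain ⟨h1, h2⟩ := pat_eq h i hi.le
  have h3 := affine x i
  rw [h1, h2] at h3
  linear_combination (-q) * h3

/-- **Blocks.** -/
theorem block (S : Finset ℕ) (hS : ∀ p ∈ S, p.Prime) (J : ℕ) (p q : ℤ) (hq : q ≠ 0)
    (sel : Finset ℕ → Finset ℕ) (hsel : ∀ E, sel E ⊆ Finset.range J)
    (hdet : ∀ E, ∀ i ∈ sel E, ∀ j ∈ sel E, i < j →
      (q * 3 ^ oE E i) * (q * cE E j - 2 ^ j * p) ≠ (q * 3 ^ oE E j) * (q * cE E i - 2 ^ i * p))
    (ε : ℝ) (hε : 0 < ε) : ∃ X : ℕ, ∀ x : ℤ, (X : ℤ) < |x| → ∀ E ∈ (Finset.range J).powerset,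
      HasPat E J x → ∏ i ∈ sel E, (part S (q * T^[i] x - p) : ℝ) ≤ |(x : ℝ)| ^ (1 + ε) := by
  have h : ∀ E : Finset ℕ, ∃ X : ℕ, ∀ x : ℤ, (X : ℤ) < |x| → HasPat E J x →
      ∏ i ∈ sel E, (part S (q * T^[i] x - p) : ℝ) ≤ |(x : ℝ)| ^ (1 + ε) := by
    intro E
    obtain ⟨X, hX⟩ := ridout S hS (sel E) (fun i => q * 3 ^ oE E i)
      (fun i => q * cE E i - 2 ^ i * p) (fun i _ => mul_ne_zero hq (by positivity)) (by
        intro i hi j hj hij
        rcases lt_or_gt_of_ne hij with h | h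
        · exact hdet E i hi j hj h
        · exact (hdet E j hj i hi h).symm) ε hε
    refine ⟨X, fun x hx hpat => le_trans ?_ (hX x hx)⟩
    refine Finset.prod_le_prod (fun i _ => Nat.cast_nonneg _) fun i hi => ?_
    rw [form_eq hpat p q (Finset.mem_range.1 (hsel E hi))]
    by_cases h0 : q * T^[i] x - p = 0
    · rw [h0, mul_zero]
    · have h1 : q * T^[i] x - p ∣ 2 ^ i * (q * T^[i] x - p) := Dvd.intro_left _ rfl
      exact_mod_cast part_le h1 (mul_ne_zero (by positivity) h0) hS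
  choose X hX using h
  refine ⟨(Finset.range J).powerset.sup X, fun x hx E hE hpat => hX E x ?_ hpat⟩
  have h1 : (X E : ℤ) ≤ ((Finset.range J).powerset.sup X : ℕ) := by
    exact_mod_cast Finset.le_sup (f := X) hE
  exact lt_of_le_of_lt h1 hx

/-! ### cycles -/

theorem IsCycle.sum_iter {Z : Finset ℤ} (hZ : IsCycle Z) (f : ℤ → ℝ) (t : ℕ) :
    ∑ x ∈ Z, f (T^[t] x) = ∑ x ∈ Z, f x := by
  have hinj : Set.InjOn (fun x => T^[t] x) (Z : Set ℤ) := by
    intro x hx y hy hxy
    simp only at hxy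
    have h1 : ∀ z ∈ Z, T^[Z.card * t] z = z := by
      intro z hz
      rw [Function.iterate_mul]
      exact Function.iterate_fixed (hZ.period hz) t
    have hp : 1 ≤ Z.card := Finset.card_pos.2 ⟨x, hx⟩
    obtain ⟨m, hm⟩ : ∃ m, Z.card * t = m + t := ⟨Z.card * t - t, by
      have : t ≤ Z.card * t := Nat.le_mul_of_pos_left t hp
      omega⟩
    rw [← h1 x hx, ← h1 y hy, hm, Function.iterate_add_apply, Function.iterate_add_apply, hxy]
  have himg : Z.image (fun x => T^[t] x) = Z := by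
    refine Finset.eq_of_subset_of_card_le ?_ ?_
    · intro y hy
      obtain ⟨x, hx, rfl⟩ := Finset.mem_image.1 hy
      exact hZ.iter_mem hx t
    · rw [Finset.card_image_of_injOn hinj]
  conv_rhs => rw [← himg]
  rw [Finset.sum_image fun x hx y hy h => hinj hx hy h]

/-- A nonnegative function whose sums over long blocks are small compared with `log |x|`. -/
theorem small_sum (g : ℤ → ℝ) (K : ℝ) (h : ∀ J : ℕ, ∃ X : ℕ, ∀ x : ℤ, (X : ℤ) < |x| →
      ∑ i ∈ Finset.range J, g (T^[i] x) ≤ K * Real.log |(x : ℝ)|) (ε : ℝ) (hε : 0 < ε) :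
    {Z : Finset ℤ | IsCycle Z ∧ ε * ∑ x ∈ Z, Real.log |(x : ℝ)| < ∑ x ∈ Z, g x}.Finite := by
  obtain ⟨J0, hJ0⟩ := exists_nat_ge (K / ε)
  set J := J0 + 1 with hJ
  obtain ⟨X, hX⟩ := h J
  refine (finite_small (max X 1)).subset ?_
  rintro Z ⟨hZ, hlt⟩
  refine ⟨hZ, ?_⟩
  by_contra hcon
  push Not at hcon
  have hbig : ∀ x ∈ Z, (X : ℤ) < |x| ∧ (1 : ℤ) < |x| := by
    intro x hx
    have h1 := hcon x hx
    constructor
    · exact lt_of_le_of_lt (by exact_mod_cast le_max_left X 1) h1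
    · exact lt_of_le_of_lt (by exact_mod_cast le_max_right X 1) h1
  have hsum : (J : ℝ) * ∑ x ∈ Z, g x ≤ K * ∑ x ∈ Z, Real.log |(x : ℝ)| := by
    calc (J : ℝ) * ∑ x ∈ Z, g x = ∑ i ∈ Finset.range J, ∑ x ∈ Z, g (T^[i] x) := by
          rw [Finset.sum_congr rfl fun i _ => hZ.sum_iter g i, Finset.sum_const, Finset.card_range,
            nsmul_eq_mul]
      _ = ∑ x ∈ Z, ∑ i ∈ Finset.range J, g (T^[i] x) := Finset.sum_comm
      _ ≤ ∑ x ∈ Z, K * Real.log |(x : ℝ)| := Finset.sum_le_sum fun x hx => hX x (hbig x hx).1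
      _ = K * ∑ x ∈ Z, Real.log |(x : ℝ)| := by rw [Finset.mul_sum]
  have hlog : 0 ≤ ∑ x ∈ Z, Real.log |(x : ℝ)| := by
    refine Finset.sum_nonneg fun x hx => Real.log_nonneg ?_
    have := (hbig x hx).2
    exact_mod_cast this.le
  have hJK : K ≤ J * ε := by
    rw [div_le_iff₀ hε] at hJ0
    have : (J : ℝ) = J0 + 1 := by rw [hJ]; push_cast; ring
    rw [this]
    linarith
  have hJ0' : (0 : ℝ) < J := by
    have : (J : ℝ) = J0 + 1 := by rw [hJ]; push_cast; ring
    rw [this]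
    positivity
  have h1 : (J : ℝ) * ∑ x ∈ Z, g x ≤ J * (ε * ∑ x ∈ Z, Real.log |(x : ℝ)|) := by
    refine hsum.trans ?_
    rw [← mul_assoc]
    exact mul_le_mul_of_nonneg_right hJK hlog
  have h2 := le_of_mul_le_mul_left h1 hJ0'
  linarith

/-- **The odd elements.** -/
theorem spart_odd (S : Finset ℕ) (hS : ∀ p ∈ S, p.Prime) (ε : ℝ) (hε : 0 < ε) :
    {Z : Finset ℤ | IsCycle Z ∧ ε * ∑ x ∈ Z, Real.log |(x : ℝ)| <
      ∑ x ∈ Z, if x % 2 = 0 then 0 else Real.log (part S x)}.Finite := by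
  refine small_sum _ 2 (fun J => ?_) ε hε
  obtain ⟨X, hX⟩ := block S hS J 0 1 one_ne_zero (fun E => E ∩ Finset.range J)
    (fun E => Finset.inter_subset_right) (by
      intro E i hi j hj hij
      have h1 := cE_lt hij (Finset.mem_inter.1 hi).1
      simp only [mul_zero, sub_zero, one_mul]
      intro h2
      linarith) 1 one_pos
  refine ⟨max X 1, fun x hx => ?_⟩
  have hx1 : (X : ℤ) < |x| := lt_of_le_of_lt (by exact_mod_cast le_max_left X 1) hx
  have hx2 : (1 : ℤ) < |x| := lt_of_le_of_lt (by exact_mod_cast le_max_right X 1) hx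
  have hx0 : (0 : ℝ) < |(x : ℝ)| := by
    have : (0 : ℤ) < |x| := by linarith
    exact_mod_cast this
  obtain ⟨E, hE, hpat⟩ := exists_pat J x
  have h1 := hX x hx1 E hE hpat
  have hEJ : E ∩ Finset.range J = E := Finset.inter_eq_left.2 (Finset.mem_powerset.1 hE)
  rw [hEJ] at h1
  have h2 : ∑ i ∈ Finset.range J, (if T^[i] x % 2 = 0 then 0 else Real.log (part S (T^[i] x))) =
      ∑ i ∈ E, Real.log (part S (1 * T^[i] x - 0)) := by
    have h3 : E = (Finset.range J).filter fun i => i ∈ E := by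
      ext i
      rw [Finset.mem_filter]
      exact ⟨fun h => ⟨Finset.mem_powerset.1 hE h, h⟩, fun h => h.2⟩
    rw [h3, Finset.sum_filter]
    refine Finset.sum_congr rfl fun i hi => ?_
    have h4 := hpat i (Finset.mem_range.1 hi)
    by_cases h5 : i ∈ E
    · rw [if_pos h5, if_neg (h4.1 h5), one_mul, sub_zero]
    · rw [if_neg h5, if_pos]
      by_contra h6
      exact h5 (h4.2 h6)
  rw [h2, ← Real.log_prod fun i _ => by
    have := part_pos hS (1 * T^[i] x - 0)
    positivity]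
  have h3 : Real.log (∏ i ∈ E, (part S (1 * T^[i] x - 0) : ℝ)) ≤ Real.log (|(x : ℝ)| ^ (1 + 1 : ℝ)) := by
    refine Real.log_le_log (Finset.prod_pos fun i _ => ?_) h1
    exact_mod_cast part_pos hS _
  rw [Real.log_rpow hx0] at h3
  linarith

/-- **All elements, shifted.** -/
theorem spart_shift (S : Finset ℕ) (hS : ∀ p ∈ S, p.Prime) (p q : ℤ) (hq : q ≠ 0)
    (hr : ∀ w : List Bool, w ≠ [] → run w ((p : ℚ) / q) ≠ (p : ℚ) / q) (ε : ℝ) (hε : 0 < ε) :
    {Z : Finset ℤ | IsCycle Z ∧ ε * ∑ x ∈ Z, Real.log |(x : ℝ)| <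
      ∑ x ∈ Z, Real.log (part S (q * x - p))}.Finite := by
  refine small_sum _ 2 (fun J => ?_) ε hε
  obtain ⟨X, hX⟩ := block S hS J p q hq (fun _ => Finset.range J) (fun _ => subset_rfl)
    (fun E i _ j _ hij => det_ne hq hr hij) 1 one_pos
  refine ⟨max X 1, fun x hx => ?_⟩
  have hx1 : (X : ℤ) < |x| := lt_of_le_of_lt (by exact_mod_cast le_max_left X 1) hx
  have hx2 : (1 : ℤ) < |x| := lt_of_le_of_lt (by exact_mod_cast le_max_right X 1) hx
  have hx0 : (0 : ℝ) < |(x : ℝ)| := by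
    have : (0 : ℤ) < |x| := by linarith
    exact_mod_cast this
  obtain ⟨E, hE, hpat⟩ := exists_pat J x
  have h1 := hX x hx1 E hE hpat
  rw [← Real.log_prod fun i _ => by
    have := part_pos hS (q * T^[i] x - p)
    positivity]
  have h3 : Real.log (∏ i ∈ Finset.range J, (part S (q * T^[i] x - p) : ℝ)) ≤
      Real.log (|(x : ℝ)| ^ (1 + 1 : ℝ)) := by
    refine Real.log_le_log (Finset.prod_pos fun i _ => ?_) h1
    exact_mod_cast part_pos hS _
  rw [Real.log_rpow hx0] at h3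
  linarith

end Pool.Agent.X61.CU
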