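import Mathlib
import Pool.Agent.X61.CU.SPart
import Pool.Agent.H319R2.Measure

/-!
Entropy of the parity words of a cycle against its oscillation.
-/

namespace Pool.Agent.X61.CU

open Finset

theorem same_par {x y : ℤ} {n : ℕ} (h : ∀ j < n, T^[j] x % 2 = T^[j] y % 2) :
    od x n = od y n ∧ cc x n = cc y n := by
  induction n with
  | zero => exact ⟨rfl, rfl⟩
  | succ n ih =>
    obtain ⟨h1, h2⟩ := ih fun j hj => h j (by omega)
    have h3 := h n (by omega)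
    simp only [od, cc]
    by_cases h4 : T^[n] x % 2 = 0
    · have h5 : T^[n] y % 2 = 0 := by rw [← h3]; exact h4
      rw [if_pos h4, if_pos h4, if_pos h5, if_pos h5, h1, h2]
      exact ⟨rfl, rfl⟩
    · have h5 : ¬ T^[n] y % 2 = 0 := by rw [← h3]; exact h4
      rw [if_neg h4, if_neg h4, if_neg h5, if_neg h5, h1, h2]
      exact ⟨rfl, rfl⟩

/-- equal parity words give congruent numbers -/
theorem dvd_of_same {x y : ℤ} {n : ℕ} (h : ∀ j < n, T^[j] x % 2 = T^[j] y % 2) :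
    (2 : ℤ) ^ n ∣ x - y := by
  obtain ⟨h1, h2⟩ := same_par h
  have h3 := affine x n
  have h4 := affine y n
  rw [h1, h2] at h3
  have h5 : (2 : ℤ) ^ n ∣ 3 ^ od y n * (x - y) := ⟨T^[n] x - T^[n] y, by linear_combination h4 - h3⟩
  have hc : IsCoprime ((2 : ℤ) ^ n) (3 ^ od y n) := by
    apply IsCoprime.pow
    rw [Int.isCoprime_iff_gcd_eq_one]
    rfl
  exact hc.dvd_of_dvd_mul_left h5

/-- the parity word of length `n` of `x` -/
def word (n : ℕ) (x : ℤ) : Fin n → ℤ := fun j => T^[(j : ℕ)] x % 2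

/-- the parity words of length `n` which can be read along `Z` -/
def words (Z : Finset ℤ) (n : ℕ) : Finset (Fin n → ℤ) := Z.image (word n)

/-- the elements of absolute value below `2 ^ n` -/
theorem count_words (Z : Finset ℤ) (n : ℕ) :
    (Z.filter fun x => |x| < 2 ^ n).card ≤ (words Z (n + 1)).card := by
  refine Finset.card_le_card_of_injOn (word (n + 1)) ?_ ?_
  · intro x hx
    exact Finset.mem_image_of_mem _ (Finset.mem_filter.1 hx).1
  · intro x hx y hy hxy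
    rw [Finset.mem_coe, Finset.mem_filter] at hx hy
    have h1 : (2 : ℤ) ^ (n + 1) ∣ x - y := by
      refine dvd_of_same fun j hj => ?_
      exact congrFun hxy ⟨j, hj⟩
    by_contra hne
    have h2 : x - y ≠ 0 := sub_ne_zero.2 hne
    have h3 := Int.le_of_dvd (abs_pos.2 h2) ((dvd_abs _ _).2 h1)
    have h4 : |x - y| ≤ |x| + |y| := abs_sub x y
    rw [pow_succ] at h3
    linarith [hx.2, hy.2]

/-- counting function of a cycle -/
theorem count_le {Z : Finset ℤ} {h C : ℝ} (hh : 0 ≤ h) (hC : 0 ≤ C)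
    (hw : ∀ n : ℕ, ((words Z n).card : ℝ) ≤ C * 2 ^ (h * n)) (X : ℝ) (hX : 1 ≤ X) :
    ((Z.filter fun x : ℤ => |(x : ℝ)| ≤ X).card : ℝ) ≤ C * 4 ^ h * X ^ h := by
  have hX0 : 0 < X := by linarith
  obtain ⟨n, hn1, hn2⟩ : ∃ n : ℕ, (2 : ℝ) ^ n ≤ X ∧ X < 2 ^ (n + 1) :=
    exists_nat_pow_near hX (by norm_num)
  have h1 : (Z.filter fun x : ℤ => |(x : ℝ)| ≤ X).card ≤ (words Z (n + 2)).card := by
    refine le_trans (Finset.card_le_card fun x hx => ?_) (count_words Z (n + 1))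
    rw [Finset.mem_filter] at hx ⊢
    refine ⟨hx.1, ?_⟩
    have h2 : |(x : ℝ)| < 2 ^ (n + 1) := lt_of_le_of_lt hx.2 hn2
    exact_mod_cast h2
  have h2 : ((Z.filter fun x : ℤ => |(x : ℝ)| ≤ X).card : ℝ) ≤ (words Z (n + 2)).card := by
    exact_mod_cast h1
  refine h2.trans ((hw _).trans ?_)
  rw [mul_assoc]
  refine mul_le_mul_of_nonneg_left ?_ hC
  have h3 : (2 : ℝ) ^ (h * ((n + 2 : ℕ) : ℝ)) = 4 ^ h * ((2 : ℝ) ^ n) ^ h := by
    rw [← Real.mul_rpow (by norm_num) (by positivity), show (4 : ℝ) * 2 ^ n = 2 ^ (n + 2) by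
      rw [pow_add]; ring, ← Real.rpow_natCast 2 (n + 2), ← Real.rpow_mul (by norm_num), mul_comm h]
  rw [h3]
  exact mul_le_mul_of_nonneg_left (Real.rpow_le_rpow (by positivity) hn1 hh) (by positivity)

/-- sum of the reciprocals -/
theorem recip_le {Z : Finset ℤ} {h B N : ℝ} (hh : 0 ≤ h) (hh1 : h < 1) (hB : 0 ≤ B) (hN : 1 ≤ N)
    (hcount : ∀ X : ℝ, 1 ≤ X → ((Z.filter fun x : ℤ => |(x : ℝ)| ≤ X).card : ℝ) ≤ B * X ^ h)
    (hmin : ∀ x ∈ Z, N ≤ |(x : ℝ)|) :
    ∑ x ∈ Z, 1 / |(x : ℝ)| ≤ B * 2 ^ h / (1 - 2 ^ (h - 1)) * N ^ (h - 1) := by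
  have hN0 : 0 < N := by linarith
  -- every element is below `N 2 ^ K`
  obtain ⟨K, hK⟩ : ∃ K : ℕ, ∀ x ∈ Z, |(x : ℝ)| < N * 2 ^ K := by
    obtain ⟨K, hK⟩ := pow_unbounded_of_one_lt (∑ x ∈ Z, |(x : ℝ)|) (by norm_num : (1 : ℝ) < 2)
    refine ⟨K, fun x hx => ?_⟩
    have h1 : |(x : ℝ)| ≤ ∑ x ∈ Z, |(x : ℝ)| :=
      Finset.single_le_sum (f := fun x : ℤ => |(x : ℝ)|) (fun _ _ => abs_nonneg _) hx
    have h2 : (1 : ℝ) * 2 ^ K ≤ N * 2 ^ K := mul_le_mul_of_nonneg_right hN (by positivity)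
    linarith
  have h1 : ∀ x ∈ Z, 1 / |(x : ℝ)| ≤
      ∑ k ∈ Finset.range K, if |(x : ℝ)| ≤ N * 2 ^ (k + 1) then 1 / (N * 2 ^ k) else 0 := by
    intro x hx
    have hx1 : 1 ≤ |(x : ℝ)| / N := (one_le_div hN0).2 (hmin x hx)
    obtain ⟨k, hk1, hk2⟩ := exists_nat_pow_near hx1 (by norm_num : (1 : ℝ) < 2)
    rw [le_div_iff₀ hN0] at hk1
    rw [div_lt_iff₀ hN0] at hk2
    have hkK : k < K := by
      have h3 : (2 : ℝ) ^ k * N < 2 ^ K * N := by
        have := hK x hx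
        linarith
      have h4 := lt_of_mul_lt_mul_right h3 hN0.le
      exact (pow_lt_pow_iff_right₀ (by norm_num)).1 h4
    refine le_trans ?_ (Finset.single_le_sum (f := fun k =>
      if |(x : ℝ)| ≤ N * 2 ^ (k + 1) then 1 / (N * 2 ^ k) else 0) (fun i _ => ?_)
      (Finset.mem_range.2 hkK))
    · rw [if_pos (by linarith)]
      exact one_div_le_one_div_of_le (by positivity) (by linarith)
    · split_ifs
      · positivity
      · exact le_rfl
  have hr0 : (0 : ℝ) < 2 ^ (h - 1) := Real.rpow_pos_of_pos (by norm_num) _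
  have hr1 : (2 : ℝ) ^ (h - 1) < 1 := Real.rpow_lt_one_of_one_lt_of_neg (by norm_num) (by linarith)
  calc ∑ x ∈ Z, 1 / |(x : ℝ)| ≤ ∑ x ∈ Z, ∑ k ∈ Finset.range K,
        (if |(x : ℝ)| ≤ N * 2 ^ (k + 1) then 1 / (N * 2 ^ k) else 0) := Finset.sum_le_sum h1
    _ = ∑ k ∈ Finset.range K, ∑ x ∈ Z,
        (if |(x : ℝ)| ≤ N * 2 ^ (k + 1) then 1 / (N * 2 ^ k) else 0) := Finset.sum_comm
    _ = ∑ k ∈ Finset.range K,
        ((Z.filter fun x : ℤ => |(x : ℝ)| ≤ N * 2 ^ (k + 1)).card : ℝ) * (1 / (N * 2 ^ k)) := by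
        refine Finset.sum_congr rfl fun k _ => ?_
        rw [← Finset.sum_filter, Finset.sum_const, nsmul_eq_mul]
    _ ≤ ∑ k ∈ Finset.range K, B * 2 ^ h * N ^ (h - 1) * (2 ^ (h - 1)) ^ k := by
        refine Finset.sum_le_sum fun k _ => ?_
        have h2 : 1 ≤ N * 2 ^ (k + 1) := by
          have : (1 : ℝ) ≤ 2 ^ (k + 1) := one_le_pow₀ (by norm_num)
          calc (1 : ℝ) = 1 * 1 := by ring
            _ ≤ N * 2 ^ (k + 1) := mul_le_mul hN this (by norm_num) hN0.le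
        have h3 := hcount _ h2
        have h4 : (0 : ℝ) ≤ 1 / (N * 2 ^ k) := by positivity
        refine (mul_le_mul_of_nonneg_right h3 h4).trans_eq ?_
        have e1 : (N * 2 ^ (k + 1)) ^ h = 2 ^ h * (N * 2 ^ k) ^ h := by
          rw [← Real.mul_rpow (by norm_num) (by positivity)]
          congr 1
          rw [pow_succ]
          ring
        have e2 : (N * 2 ^ k) ^ h * (1 / (N * 2 ^ k)) = (N * 2 ^ k) ^ (h - 1) := by
          rw [Real.rpow_sub_one (by positivity)]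
          ring
        have e3 : (N * 2 ^ k) ^ (h - 1) = N ^ (h - 1) * (2 ^ (h - 1)) ^ k := by
          rw [Real.mul_rpow hN0.le (by positivity)]
          congr 1
          rw [← Real.rpow_natCast, ← Real.rpow_natCast, ← Real.rpow_mul (by norm_num),
            ← Real.rpow_mul (by norm_num), mul_comm]
        rw [e1]
        calc B * (2 ^ h * (N * 2 ^ k) ^ h) * (1 / (N * 2 ^ k))
            = B * 2 ^ h * ((N * 2 ^ k) ^ h * (1 / (N * 2 ^ k))) := by ring
          _ = _ := by rw [e2, e3]; ring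
    _ = B * 2 ^ h * N ^ (h - 1) * ∑ k ∈ Finset.range K, (2 ^ (h - 1)) ^ k := by rw [Finset.mul_sum]
    _ ≤ B * 2 ^ h * N ^ (h - 1) * (1 / (1 - 2 ^ (h - 1))) := by
        refine mul_le_mul_of_nonneg_left ?_ (by positivity)
        rw [geom_sum_eq hr1.ne, ← neg_div_neg_eq, neg_sub, neg_sub]
        refine div_le_div_of_nonneg_right ?_ (by linarith)
        have : (0 : ℝ) < (2 ^ (h - 1)) ^ K := by positivity
        linarith
    _ = _ := by ring

/-- number of odd elements -/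
def odds (Z : Finset ℤ) : ℕ := (Z.filter fun x => ¬ x % 2 = 0).card

/-- the linear form of a cycle -/
theorem form_le {Z : Finset ℤ} (hZ : IsCycle Z) (h0 : ∀ x ∈ Z, (1 : ℝ) ≤ |(x : ℝ)|) :
    |(Z.card : ℝ) * Real.log 2 - odds Z * Real.log 3| ≤ ∑ x ∈ Z, 1 / |(x : ℝ)| := by
  have h1 := hZ.sum_iter (fun x => Real.log |(x : ℝ)|) 1
  simp only [Function.iterate_one] at h1
  have h2 : ∀ x ∈ Z, Real.log |(T x : ℝ)| = Real.log |(x : ℝ)| - Real.log 2 +
      (if ¬ x % 2 = 0 then Real.log 3 + Real.log (1 + 1 / (3 * (x : ℝ))) else 0) := by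
    intro x hx
    have hx1 := h0 x hx
    have hxpos : 0 < |(x : ℝ)| := by linarith
    have hx0 : (x : ℝ) ≠ 0 := abs_pos.1 hxpos
    by_cases hx2 : x % 2 = 0
    · rw [if_neg (not_not.2 hx2), add_zero]
      have h3 : (2 : ℝ) * (T x : ℝ) = x := by exact_mod_cast T_even hx2
      have h4 : |(T x : ℝ)| = |(x : ℝ)| / 2 := by
        rw [← h3, abs_mul, abs_of_pos (by norm_num : (0 : ℝ) < 2)]
        ring
      rw [h4, Real.log_div hxpos.ne' (by norm_num)]
    · rw [if_pos hx2]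
      have h3 : (2 : ℝ) * (T x : ℝ) = 3 * x + 1 := by exact_mod_cast T_odd hx2
      have h4 : (T x : ℝ) = x / 2 * 3 * (1 + 1 / (3 * (x : ℝ))) := by
        field_simp
        linarith
      have h5 : |1 / (3 * (x : ℝ))| ≤ 1 / 3 := by
        rw [abs_div, abs_one, abs_mul, abs_of_pos (by norm_num : (0 : ℝ) < 3)]
        exact one_div_le_one_div_of_le (by norm_num) (by linarith)
      have h6 : 0 < 1 + 1 / (3 * (x : ℝ)) := by
        have := (abs_le.1 h5).1
        linarith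
      rw [h4, abs_mul, abs_mul, abs_div, abs_of_pos (by norm_num : (0 : ℝ) < 2),
        abs_of_pos (by norm_num : (0 : ℝ) < 3), abs_of_pos h6, Real.log_mul (by positivity) h6.ne',
        Real.log_mul (by positivity) (by norm_num), Real.log_div hxpos.ne' (by norm_num)]
      ring
  rw [Finset.sum_congr rfl h2, Finset.sum_add_distrib, Finset.sum_sub_distrib, Finset.sum_const,
    nsmul_eq_mul, ← Finset.sum_filter, Finset.sum_add_distrib, Finset.sum_const, nsmul_eq_mul] at h1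
  have h3 : (Z.card : ℝ) * Real.log 2 - odds Z * Real.log 3 =
      ∑ x ∈ Z.filter (fun x => ¬ x % 2 = 0), Real.log (1 + 1 / (3 * (x : ℝ))) := by
    unfold odds
    linarith
  rw [h3]
  refine (Finset.abs_sum_le_sum_abs _ _).trans ?_
  refine le_trans (Finset.sum_le_sum (g := fun x : ℤ => 1 / |(x : ℝ)|) fun x hx => ?_)
    (Finset.sum_le_sum_of_subset_of_nonneg (Finset.filter_subset _ _) fun x _ _ => by positivity)
  have hx1 := h0 x (Finset.mem_filter.1 hx).1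
  have hxpos : 0 < |(x : ℝ)| := by linarith
  have hx0 : (x : ℝ) ≠ 0 := abs_pos.1 hxpos
  set t : ℝ := 1 / (3 * (x : ℝ)) with ht
  have habs : |t| = 1 / (3 * |(x : ℝ)|) := by
    rw [ht, abs_div, abs_one, abs_mul, abs_of_pos (by norm_num : (0 : ℝ) < 3)]
  have h5 : |t| ≤ 1 / 3 := by
    rw [habs]
    exact one_div_le_one_div_of_le (by norm_num) (by linarith)
  obtain ⟨h6, h7⟩ := abs_le.1 h5
  have h8 : 0 < 1 + t := by linarith
  have h9 : Real.log (1 + t) ≤ t := by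
    have := Real.log_le_sub_one_of_pos h8
    linarith
  have h10 : 1 - (1 + t)⁻¹ ≤ Real.log (1 + t) := Real.one_sub_inv_le_log_of_pos h8
  have h11 : -(3 * |t|) ≤ 1 - (1 + t)⁻¹ := by
    have e : 1 - (1 + t)⁻¹ = t / (1 + t) := by
      field_simp
      ring
    rw [e, neg_le_iff_add_nonneg, ← sub_neg_eq_add, sub_nonneg]
    have h12 : -(t / (1 + t)) ≤ |t| / (1 + t) := by
      rw [← neg_div]
      exact div_le_div_of_nonneg_right (neg_le_abs t) h8.le
    have h13 : |t| / (1 + t) ≤ 3 * |t| := by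
      rw [div_le_iff₀ h8]
      have := abs_nonneg t
      nlinarith
    linarith
  have h14 : 3 * |t| = 1 / |(x : ℝ)| := by
    rw [habs]
    field_simp
  rw [← h14, abs_le]
  refine ⟨by linarith, h9.trans ?_⟩
  have := le_abs_self t
  have := abs_nonneg t
  linarith

/-- **Lengths.** -/
theorem lengths (h C : ℝ) (hh : 0 ≤ h) (hh1 : h < 1) (hC : 0 ≤ C) : ∃ A : ℝ, 0 < A ∧
    ∀ Z : Finset ℤ, IsCycle Z → (∀ x ∈ Z, (1 : ℝ) ≤ |(x : ℝ)|) →
      (∀ n : ℕ, ((words Z n).card : ℝ) ≤ C * 2 ^ (h * n)) →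
      (∀ N : ℝ, 1 ≤ N → (∀ x ∈ Z, N ≤ |(x : ℝ)|) → N ^ (1 - h) ≤ A * (Z.card : ℝ) ^ 13) ∧
      (∀ M : ℝ, 1 ≤ M → (∀ x ∈ Z, |(x : ℝ)| ≤ M) → (Z.card : ℝ) ≤ A * M ^ h) := by
  obtain ⟨c, hc, hmeas⟩ := Pool.Agent.H319R2.measure
  have hr1 : (2 : ℝ) ^ (h - 1) < 1 := Real.rpow_lt_one_of_one_lt_of_neg (by norm_num) (by linarith)
  set B : ℝ := C * 4 ^ h with hB
  have hB0 : 0 ≤ B := by positivity
  set D : ℝ := B * 2 ^ h / (1 - 2 ^ (h - 1)) with hD
  have hD0 : 0 ≤ D := div_nonneg (by positivity) (by linarith)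
  refine ⟨max (max (2 ^ 13 * D / c) B) 1, lt_of_lt_of_le one_pos (le_max_right _ _), ?_⟩
  intro Z hZ h1Z hw
  have hcount := count_le hh hC hw
  constructor
  · intro N hN hmin
    have hN0 : 0 < N := by linarith
    have h1 := recip_le hh hh1 hB0 hN hcount hmin
    have h2 := form_le hZ h1Z
    have hform : |(Z.card : ℝ) * Real.log 2 - odds Z * Real.log 3| ≤ D * N ^ (h - 1) := h2.trans h1
    obtain ⟨x0, hx0, hp1, _, _, _⟩ := hZ.normal
    have hcard0 : Z.card ≠ 0 := by omega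
    have h4 := hmeas (Z.card : ℤ) (-(odds Z : ℤ)) (Or.inl (by exact_mod_cast hcard0))
    have h5 : (((|(Z.card : ℤ)| + |(-(odds Z : ℤ))| : ℤ)) : ℝ) ≤ 2 * (Z.card : ℝ) := by
      have h6 : (odds Z : ℝ) ≤ Z.card := by
        unfold odds
        exact_mod_cast Finset.card_filter_le _ _
      rw [abs_neg, Nat.abs_cast, Nat.abs_cast]
      push_cast
      linarith
    have h6 : |((Z.card : ℤ) : ℝ) * Real.log 2 + ((-(odds Z : ℤ) : ℤ) : ℝ) * Real.log 3| =
        |(Z.card : ℝ) * Real.log 2 - odds Z * Real.log 3| := by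
      congr 1
      push_cast
      ring
    rw [h6] at h4
    have h7 : c ≤ (2 * (Z.card : ℝ)) ^ 13 * (D * N ^ (h - 1)) := by
      refine h4.trans ?_
      have hcn : (0 : ℝ) ≤ (Z.card : ℝ) := Nat.cast_nonneg _
      refine mul_le_mul ?_ hform (abs_nonneg _) (pow_nonneg (mul_nonneg (by norm_num) hcn) 13)
      refine pow_le_pow_left₀ ?_ h5 13
      have : (0 : ℤ) ≤ |(Z.card : ℤ)| + |(-(odds Z : ℤ))| := add_nonneg (abs_nonneg _) (abs_nonneg _)
      exact_mod_cast this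
    have h10 : 0 < N ^ (1 - h) := Real.rpow_pos_of_pos hN0 _
    have h11 : N ^ (1 - h) * N ^ (h - 1) = 1 := by
      rw [← Real.rpow_add hN0, sub_add_sub_cancel, sub_self, Real.rpow_zero]
    have h12 : N ^ (1 - h) ≤ 2 ^ 13 * D / c * (Z.card : ℝ) ^ 13 := by
      rw [div_mul_eq_mul_div, le_div_iff₀ hc]
      calc N ^ (1 - h) * c ≤ N ^ (1 - h) * ((2 * (Z.card : ℝ)) ^ 13 * (D * N ^ (h - 1))) :=
            mul_le_mul_of_nonneg_left h7 h10.le
        _ = 2 ^ 13 * D * (Z.card : ℝ) ^ 13 * (N ^ (1 - h) * N ^ (h - 1)) := by ring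
        _ = 2 ^ 13 * D * (Z.card : ℝ) ^ 13 := by rw [h11, mul_one]
    refine h12.trans ?_
    have hcn : (0 : ℝ) ≤ (Z.card : ℝ) := Nat.cast_nonneg _
    exact mul_le_mul_of_nonneg_right ((le_max_left _ _).trans (le_max_left _ _)) (pow_nonneg hcn 13)
  · intro M hM hmax
    have h3 := hcount M hM
    rw [Finset.filter_true_of_mem hmax] at h3
    refine h3.trans ?_
    exact mul_le_mul_of_nonneg_right ((le_max_right _ _).trans (le_max_left _ _)) (by positivity)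

/-- **Entropy against oscillation.** -/
theorem entropy (h κ C : ℝ) (hh : 0 ≤ h) (hκ : 0 ≤ κ) (hhκ : h * (1 + 13 * κ) < 1) :
    {Z : Finset ℤ | IsCycle Z ∧ (∀ n : ℕ, ((words Z n).card : ℝ) ≤ C * 2 ^ (h * n)) ∧
      ∀ x ∈ Z, ∀ y ∈ Z, |(x : ℝ)| ≤ C * |(y : ℝ)| ^ κ}.Finite := by
  have hh1 : h < 1 := by
    have : 0 ≤ h * (13 * κ) := by positivity
    linarith
  rcases lt_or_ge C 0 with hC | hC
  · refine Set.Finite.subset (Set.finite_empty) ?_
    rintro Z ⟨_, hw, _⟩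
    have h1 := hw 0
    have h2 : (0 : ℝ) < 2 ^ (h * (0 : ℕ)) := by positivity
    have h3 : (0 : ℝ) ≤ ((words Z 0).card : ℝ) := Nat.cast_nonneg _
    nlinarith
  obtain ⟨A, hA, hlen⟩ := lengths h C hh hh1 hC
  set δ : ℝ := 1 - h * (1 + 13 * κ) with hδ
  have hδ0 : 0 < δ := by linarith
  set E : ℝ := A * (A * (max C 1) ^ h) ^ (13 : ℕ) with hE
  obtain ⟨X, hX⟩ : ∃ X : ℕ, ∀ y : ℝ, (X : ℝ) < y → E < y ^ δ := by
    have h1 := (tendsto_rpow_atTop hδ0).eventually_gt_atTop E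
    obtain ⟨x0, hx0⟩ := Filter.eventually_atTop.1 h1
    obtain ⟨X, hX⟩ := exists_nat_ge x0
    exact ⟨X, fun y hy => hx0 y (by linarith)⟩
  refine (finite_small (max X 1)).subset ?_
  rintro Z ⟨hZ, hw, hosc⟩
  refine ⟨hZ, ?_⟩
  by_contra hcon
  push Not at hcon
  obtain ⟨x0, hx0, hp1, _, _, _⟩ := hZ.normal
  obtain ⟨m, hm, hmin⟩ := Finset.exists_min_image Z (fun x => |x|) ⟨x0, hx0⟩
  set N : ℝ := |(m : ℝ)| with hN
  have hmX : (X : ℝ) < N ∧ (1 : ℝ) < N := by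
    have h1 := hcon m hm
    constructor
    · have : (X : ℤ) < |m| := lt_of_le_of_lt (by exact_mod_cast le_max_left X 1) h1
      rw [hN]
      exact_mod_cast this
    · have : (1 : ℤ) < |m| := lt_of_le_of_lt (by exact_mod_cast le_max_right X 1) h1
      rw [hN]
      exact_mod_cast this
  have hN0 : 0 < N := by linarith [hmX.2]
  have hmin' : ∀ x ∈ Z, N ≤ |(x : ℝ)| := by
    intro x hx
    have := hmin x hx
    rw [hN]
    exact_mod_cast this
  obtain ⟨hl1, hl2⟩ := hlen Z hZ (fun x hx => hmX.2.le.trans (hmin' x hx)) hw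
  have h1 := hl1 N hmX.2.le hmin'
  set M : ℝ := max C 1 * N ^ κ with hM
  have hM1 : 1 ≤ M := by
    have h3 : (1 : ℝ) ≤ N ^ κ := Real.one_le_rpow hmX.2.le hκ
    calc (1 : ℝ) = 1 * 1 := by ring
      _ ≤ M := mul_le_mul (le_max_right _ _) h3 (by norm_num) (by positivity)
  have hcard : (Z.card : ℝ) ≤ A * M ^ h := by
    refine hl2 M hM1 fun x hx => ?_
    refine (hosc x hx m hm).trans ?_
    exact mul_le_mul_of_nonneg_right (le_max_left _ _) (by positivity)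
  have hMh : M ^ h = (max C 1) ^ h * N ^ (h * κ) := by
    rw [hM, Real.mul_rpow (by positivity) (by positivity), ← Real.rpow_mul hN0.le, mul_comm κ]
  rw [hMh] at hcard
  have h7 : N ^ (1 - h) ≤ E * N ^ (13 * (h * κ)) := by
    refine h1.trans ?_
    have h8 : (Z.card : ℝ) ^ 13 ≤ (A * ((max C 1) ^ h * N ^ (h * κ))) ^ 13 :=
      pow_le_pow_left₀ (Nat.cast_nonneg _) hcard 13
    refine (mul_le_mul_of_nonneg_left h8 hA.le).trans_eq ?_
    have e1 : N ^ (13 * (h * κ)) = (N ^ (h * κ)) ^ (13 : ℕ) := by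
      rw [← Real.rpow_natCast, ← Real.rpow_mul hN0.le]
      congr 1
      push_cast
      ring
    rw [e1, hE]
    ring
  have h9 : N ^ δ ≤ E := by
    have h10 : 0 < N ^ (13 * (h * κ)) := Real.rpow_pos_of_pos hN0 _
    have h11 : N ^ (1 - h) = N ^ δ * N ^ (13 * (h * κ)) := by
      rw [← Real.rpow_add hN0]
      congr 1
      rw [hδ]
      ring
    rw [h11] at h7
    exact le_of_mul_le_mul_right h7 h10
  exact absurd (hX N hmX.1) (not_lt.2 h9)

end Pool.Agent.X61.CU
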