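import Mathlib
import Pool.Agent.TH419.WI.Classes

/-!
Two integers related by an affine map `y = (3 ^ o x + c) / 2 ^ j`, both sums of few smooth numbers.
-/

namespace Pool.Agent.X61.CU

open Finset Pool.Agent.TH419.WI

/-- chains of near numbers -/
lemma near_walk {ι : Type} {M : ℕ} (r : ι → ℕ) (G : SimpleGraph ι)
    (hG : ∀ i j, G.Adj i j → Near M (r i) (r j)) :
    ∀ {i j : ι} (w : G.Walk i j), ∃ a b : ℕ, 0 < a ∧ a ≤ M ^ w.length ∧ 0 < b ∧
      b ≤ M ^ w.length ∧ a * r i = b * r j := by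
  intro i j w
  induction w with
  | nil => exact ⟨1, 1, by norm_num, by simp, by norm_num, by simp, rfl⟩
  | @cons i k j h w ih =>
    obtain ⟨a, b, ha, haM, hb, hbM, hab⟩ := ih
    obtain ⟨c, d, hc, hcM, hd, hdM, hcd⟩ := hG _ _ h
    refine ⟨c * a, b * d, Nat.mul_pos hc ha, ?_, Nat.mul_pos hb hd, ?_, ?_⟩
    · rw [SimpleGraph.Walk.length_cons, pow_succ, mul_comm]
      exact Nat.mul_le_mul haM hcM
    · rw [SimpleGraph.Walk.length_cons, pow_succ]
      exact Nat.mul_le_mul hbM hdM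
    · calc c * a * r i = a * (c * r i) := by ring
        _ = a * (d * r k) := by rw [hcd]
        _ = d * (a * r k) := by ring
        _ = d * (b * r j) := by rw [hab]
        _ = b * d * r j := by ring

/-- The connected components of the graph of near numbers: the partition, its sums and the height of
the quotients inside a part. -/
theorem parts (S : Finset ℕ) (hS : ∀ p ∈ S, p.Prime) (s H : ℕ) : ∃ F : ℕ, 0 < F ∧
    ∀ (ι : Type) (_ : Fintype ι) (U : Finset ι) (r : ι → ℕ) (lam : ι → ℤ), Fintype.card ι ≤ s →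
      (∀ i ∈ U, Smooth S (r i)) → (∀ i ∈ U, |lam i| ≤ H) → ∑ i ∈ U, (r i : ℤ) * lam i = 0 →
      ∃ w : ι → ℕ, (∀ w0, ∑ i ∈ U.filter (fun i => w i = w0), (r i : ℤ) * lam i = 0) ∧
        ∀ i ∈ U, ∀ j ∈ U, w i = w j → ∃ a b : ℕ, 0 < a ∧ a ≤ F ∧ 0 < b ∧ b ≤ F ∧
          a * r i = b * r j := by
  classical
  obtain ⟨M, hM⟩ := classes S hS s H
  refine ⟨(M + 1) ^ s, by positivity, ?_⟩
  intro ι _ U r lam hcard hr hlam hsum
  let G : SimpleGraph ι :=
    { Adj := fun i j => i ≠ j ∧ Near (M + 1) (r i) (r j)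
      symm := ⟨by
        rintro i j ⟨hij, a, b, ha, ha', hb, hb', hab⟩
        exact ⟨hij.symm, b, a, hb, hb', ha, ha', hab.symm⟩⟩
      loopless := ⟨fun i hi => hi.1 rfl⟩ }
  let w : ι → ℕ := fun i => ((Finite.equivFin G.ConnectedComponent) (G.connectedComponentMk i) : ℕ)
  have hw : ∀ i j, w i = w j ↔ G.Reachable i j := by
    intro i j
    rw [← SimpleGraph.ConnectedComponent.eq]
    constructor
    · intro h1
      exact (Finite.equivFin G.ConnectedComponent).injective (Fin.ext h1)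
    · intro h1
      simp only [w]
      rw [h1]
  refine ⟨w, ?_, ?_⟩
  · refine hM ι U r lam w ((Finset.card_le_univ U).trans hcard) hr hlam ?_ hsum
    intro i _ j _ hn
    by_cases hij : i = j
    · rw [hij]
    · rw [hw]
      exact SimpleGraph.Adj.reachable ⟨hij, hn.mono (Nat.le_succ M)⟩
  · intro i _ j _ hij
    obtain ⟨wk⟩ := (hw i j).1 hij
    obtain ⟨a, b, ha, haM, hb, hbM, hab⟩ := near_walk (M := M + 1) r G (fun i j h => h.2)
      (wk.toPath).1
    have hlen : (wk.toPath).1.length ≤ s := by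
      have h2 := wk.toPath.2.length_lt
      omega
    exact ⟨a, b, ha, haM.trans (Nat.pow_le_pow_right (Nat.succ_pos M) hlen), hb,
      hbM.trans (Nat.pow_le_pow_right (Nat.succ_pos M) hlen), hab⟩

lemma smooth_mul {S : Finset ℕ} {m n : ℕ} (hm : Smooth S m) (hn : Smooth S n) :
    Smooth S (m * n) := by
  refine ⟨mul_ne_zero hm.1 hn.1, ?_⟩
  rw [Nat.primeFactors_mul hm.1 hn.1]
  exact Finset.union_subset hm.2 hn.2

lemma smooth_pow {S : Finset ℕ} {p : ℕ} (hp : p.Prime) (hpS : p ∈ S) (e : ℕ) :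
    Smooth S (p ^ e) := by
  refine ⟨pow_ne_zero _ hp.ne_zero, ?_⟩
  intro r hr
  have h1 := (Nat.prime_of_mem_primeFactors hr).dvd_of_dvd_pow (Nat.dvd_of_mem_primeFactors hr)
  rw [(Nat.prime_dvd_prime_iff_eq (Nat.prime_of_mem_primeFactors hr) hp).1 h1]
  exact hpS

/-- the index set: the terms of `x`, the terms of `y` and the constant term -/
def UU {k : ℕ} (A B : Finset (Fin k)) : Finset ((Fin k ⊕ Fin k) ⊕ Unit) := (A.disjSum B).disjSum {()}

lemma sum_UU {k : ℕ} (A B : Finset (Fin k)) (f : (Fin k ⊕ Fin k) ⊕ Unit → ℤ) :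
    ∑ i ∈ UU A B, f i = ∑ i ∈ A, f (Sum.inl (Sum.inl i)) + ∑ i ∈ B, f (Sum.inl (Sum.inr i)) +
      f (Sum.inr ()) := by
  unfold UU
  rw [Finset.sum_disjSum, Finset.sum_disjSum, Finset.sum_singleton]

lemma mem_UU1 {k : ℕ} (A B : Finset (Fin k)) (i : Fin k) :
    (Sum.inl (Sum.inl i)) ∈ UU A B ↔ i ∈ A := by
  simp [UU]

lemma mem_UU2 {k : ℕ} (A B : Finset (Fin k)) (i : Fin k) :
    (Sum.inl (Sum.inr i)) ∈ UU A B ↔ i ∈ B := by
  simp [UU]

lemma mem_UU3 {k : ℕ} (A B : Finset (Fin k)) : (Sum.inr ()) ∈ UU A B := by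
  simp [UU]

/-- **The pair lemma.** -/
theorem pair (S : Finset ℕ) (hS : ∀ p ∈ S, p.Prime) (h2 : 2 ∈ S) (h3 : 3 ∈ S) (k H : ℕ) :
    ∃ R : ℕ, 0 < R ∧ ∀ J : ℕ, ∃ F : ℕ, 0 < F ∧
      ∀ (j o : ℕ) (c x y : ℤ) (D Q : ℕ) (A B : Finset (Fin k)) (n n' : Fin k → ℕ)
        (a a' : Fin k → ℤ) (i0 : Fin k), j ≤ J → |c| ≤ 3 ^ J → Smooth S D → Q ≤ H →
        (∀ i, Smooth S (n i)) → (∀ i, Smooth S (n' i)) → (∀ i, |a i| ≤ H) → (∀ i, |a' i| ≤ H) →
        2 ^ j * y = 3 ^ o * x + c → (Q * D : ℤ) * x = ∑ i ∈ A, (n i : ℤ) * a i →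
        (Q * D : ℤ) * y = ∑ i ∈ B, (n' i : ℤ) * a' i →
        (∀ A' ⊆ A, A'.Nonempty → ∑ i ∈ A', (n i : ℤ) * a i ≠ 0) → i0 ∈ A → F * D < n i0 →
        ∃ i1 ∈ B, ∃ s t : ℕ, 0 < s ∧ s ≤ R ∧ 0 < t ∧ t ≤ R ∧
          s * (3 ^ o * n i0) = t * (2 ^ j * n' i1) := by
  classical
  obtain ⟨R, hR, hRp⟩ := parts S hS (k + k + 1) H
  refine ⟨R, hR, fun J => ?_⟩
  obtain ⟨F, hF, hFp⟩ := parts S hS (k + k + 1) (H * 3 ^ J)
  refine ⟨F, hF, ?_⟩
  intro j o c x y D Q A B n n' a a' i0 hj hc hD hQ hn hn' ha ha' hxy hx hy hmin hi0 hfar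
  let r : (Fin k ⊕ Fin k) ⊕ Unit → ℕ := Sum.elim (Sum.elim (fun i => 3 ^ o * n i) (fun i => 2 ^ j * n' i)) (fun _ => D)
  let lam : (Fin k ⊕ Fin k) ⊕ Unit → ℤ := Sum.elim (Sum.elim a (fun i => -a' i)) (fun _ => Q * c)
  set U := UU A B with hUdef
  have hcard : Fintype.card ((Fin k ⊕ Fin k) ⊕ Unit) ≤ k + k + 1 := by
    simp
  have hr : ∀ i ∈ U, Smooth S (r i) := by
    rintro ((i | i) | i) -
    · exact smooth_mul (smooth_pow Nat.prime_three h3 o) (hn i)
    · exact smooth_mul (smooth_pow Nat.prime_two h2 j) (hn' i)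
    · exact hD
  have h3J : (1 : ℤ) ≤ 3 ^ J := one_le_pow₀ (by norm_num)
  have hlam : ∀ i ∈ U, |lam i| ≤ ((H * 3 ^ J : ℕ) : ℤ) := by
    push_cast
    have hH : (H : ℤ) ≤ H * 3 ^ J := le_mul_of_one_le_right (Int.natCast_nonneg H) h3J
    rintro ((i | i) | i) -
    · exact (ha i).trans hH
    · simp only [lam, Sum.elim_inl, Sum.elim_inr, abs_neg]
      exact (ha' i).trans hH
    · simp only [lam, Sum.elim_inr, abs_mul]
      have hQ' : |(Q : ℤ)| ≤ H := by
        rw [abs_of_nonneg (Int.natCast_nonneg Q)]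
        exact_mod_cast hQ
      exact mul_le_mul hQ' hc (abs_nonneg _) (Int.natCast_nonneg H)
  have hsum : ∑ i ∈ U, (r i : ℤ) * lam i = 0 := by
    rw [hUdef, sum_UU]
    simp only [r, lam, Sum.elim_inl, Sum.elim_inr]
    push_cast
    have e1 : ∑ i ∈ A, (3 : ℤ) ^ o * (n i : ℤ) * a i = 3 ^ o * ((Q * D : ℤ) * x) := by
      rw [hx, Finset.mul_sum]
      exact Finset.sum_congr rfl fun i _ => by ring
    have e2 : ∑ i ∈ B, (2 : ℤ) ^ j * (n' i : ℤ) * -a' i = -(2 ^ j * ((Q * D : ℤ) * y)) := by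
      rw [hy, Finset.mul_sum, ← Finset.sum_neg_distrib]
      exact Finset.sum_congr rfl fun i _ => by ring
    rw [e1, e2]
    linear_combination (-(Q * D : ℤ)) * hxy
  obtain ⟨w, hw, hwF⟩ := hFp _ inferInstance U r lam hcard hr hlam hsum
  -- the far terms
  let U2 := U.filter fun i => w i ≠ w (Sum.inr ())
  have hU2 : ∀ i ∈ U2, i ∈ U := fun i hi => (Finset.mem_filter.1 hi).1
  have hlam2 : ∀ i ∈ U2, |lam i| ≤ (H : ℤ) := by
    rintro ((i | i) | i) hi
    · exact ha i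
    · simp only [lam, Sum.elim_inl, Sum.elim_inr, abs_neg]
      exact ha' i
    · exact absurd rfl (Finset.mem_filter.1 hi).2
  have hsum2 : ∑ i ∈ U2, (r i : ℤ) * lam i = 0 := by
    have h1 := Finset.sum_filter_add_sum_filter_not U (fun i => w i = w (Sum.inr ()))
      (fun i => (r i : ℤ) * lam i)
    rw [hsum, hw, zero_add] at h1
    exact h1
  obtain ⟨w2, hw2, hwR⟩ := hRp _ inferInstance U2 r lam hcard (fun i hi => hr i (hU2 i hi)) hlam2 hsum2
  -- the term `i0` is far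
  have hi0U : Sum.inl (Sum.inl i0) ∈ U := (mem_UU1 A B i0).2 hi0
  have hi0U2 : Sum.inl (Sum.inl i0) ∈ U2 := by
    refine Finset.mem_filter.2 ⟨hi0U, fun h => ?_⟩
    have hu : Sum.inr () ∈ U := mem_UU3 A B
    obtain ⟨s, t, hs, _, ht, htF, hst⟩ := hwF _ hi0U _ hu h
    simp only [r, Sum.elim_inl, Sum.elim_inr] at hst
    have h4 : n i0 ≤ F * D := by
      calc n i0 ≤ s * (3 ^ o * n i0) := by
            have : 1 ≤ s * 3 ^ o := Nat.mul_pos hs (by positivity)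
            calc n i0 = 1 * n i0 := (one_mul _).symm
              _ ≤ (s * 3 ^ o) * n i0 := Nat.mul_le_mul_right _ this
              _ = s * (3 ^ o * n i0) := by ring
        _ = t * D := hst
        _ ≤ F * D := Nat.mul_le_mul_right _ htF
    omega
  -- the part of `i0` contains a term of `y`
  by_contra hcon
  push Not at hcon
  have hno : ∀ i ∈ U2, w2 i = w2 (Sum.inl (Sum.inl i0)) → ∃ i' ∈ A, i = Sum.inl (Sum.inl i') := by
    rintro ((i | i) | i) hi hwi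
    · exact ⟨i, (mem_UU1 A B i).1 (hU2 _ hi), rfl⟩
    · exfalso
      have hiB : i ∈ B := (mem_UU2 A B i).1 (hU2 _ hi)
      obtain ⟨s, t, hs, hsR, ht, htR, hst⟩ := hwR _ hi0U2 _ hi hwi.symm
      exact hcon i hiB s t hs hsR ht htR hst
    · exact absurd rfl (Finset.mem_filter.1 hi).2
  have h5 := hw2 (w2 (Sum.inl (Sum.inl i0)))
  let A' : Finset (Fin k) := A.filter fun i =>
    Sum.inl (Sum.inl i) ∈ U2 ∧ w2 (Sum.inl (Sum.inl i)) = w2 (Sum.inl (Sum.inl i0))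
  have h6 : U2.filter (fun i => w2 i = w2 (Sum.inl (Sum.inl i0))) =
      A'.map ⟨fun i => Sum.inl (Sum.inl i), fun i j h => Sum.inl.inj (Sum.inl.inj h)⟩ := by
    ext i
    simp only [Finset.mem_filter, Finset.mem_map, Function.Embedding.coeFn_mk, A']
    constructor
    · rintro ⟨h7, h8⟩
      obtain ⟨i', hi', rfl⟩ := hno i h7 h8
      exact ⟨i', ⟨hi', h7, h8⟩, rfl⟩
    · rintro ⟨i', ⟨_, h7, h8⟩, rfl⟩
      exact ⟨h7, h8⟩
  rw [h6, Finset.sum_map] at h5
  simp only [Function.Embedding.coeFn_mk, r, lam, Sum.elim_inl] at h5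
  push_cast at h5
  have h7 : (3 : ℤ) ^ o * ∑ i ∈ A', (n i : ℤ) * a i = 0 := by
    rw [Finset.mul_sum, ← h5]
    exact Finset.sum_congr rfl fun i _ => by ring
  have h8 : ∑ i ∈ A', (n i : ℤ) * a i = 0 := by
    rcases mul_eq_zero.1 h7 with h | h
    · exact absurd h (by positivity)
    · exact h
  refine hmin A' (Finset.filter_subset _ _) ⟨i0, ?_⟩ h8
  exact Finset.mem_filter.2 ⟨hi0, hi0U2, rfl⟩

/-- a representation without vanishing partial sums -/
theorem exists_min {k : ℕ} (f : Fin k → ℤ) (z : ℤ) (h : z = ∑ i, f i) :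
    ∃ A : Finset (Fin k), z = ∑ i ∈ A, f i ∧ ∀ A' ⊆ A, A'.Nonempty → ∑ i ∈ A', f i ≠ 0 := by
  classical
  have hne : (Finset.univ.filter fun A : Finset (Fin k) => z = ∑ i ∈ A, f i).Nonempty :=
    ⟨Finset.univ, by simp [h]⟩
  obtain ⟨A, hA, hmin⟩ := Finset.exists_min_image _ Finset.card hne
  rw [Finset.mem_filter] at hA
  refine ⟨A, hA.2, fun A' hA' hne' h0 => ?_⟩
  have h1 : z = ∑ i ∈ A \ A', f i := by
    have := Finset.sum_sdiff (f := f) hA'
    rw [h0, add_zero] at this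
    rw [this]
    exact hA.2
  have h2 := hmin (A \ A') (Finset.mem_filter.2 ⟨Finset.mem_univ _, h1⟩)
  have h3 := Finset.card_sdiff_of_subset hA'
  have h4 := Finset.card_pos.2 hne'
  have h5 := Finset.card_le_card hA'
  omega

/-- a large term -/
theorem exists_large {k : ℕ} (A : Finset (Fin k)) (n : Fin k → ℕ) (a : Fin k → ℤ) (H : ℕ)
    (ha : ∀ i, |a i| ≤ H) (X : ℕ) (h : ((k * H * X : ℕ) : ℤ) < |∑ i ∈ A, (n i : ℤ) * a i|) :
    ∃ i ∈ A, X < n i := by
  by_contra hcon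
  push Not at hcon
  have h1 : |∑ i ∈ A, (n i : ℤ) * a i| ≤ ∑ _i ∈ A, (X : ℤ) * H := by
    refine (Finset.abs_sum_le_sum_abs _ _).trans (Finset.sum_le_sum fun i hi => ?_)
    rw [abs_mul, abs_of_nonneg (Int.natCast_nonneg (n i))]
    exact mul_le_mul (by exact_mod_cast hcon i hi) (ha i) (abs_nonneg _) (Int.natCast_nonneg X)
  rw [Finset.sum_const, nsmul_eq_mul] at h1
  have h2 : (A.card : ℤ) ≤ k := by
    have := Finset.card_le_univ A
    rw [Fintype.card_fin] at this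
    exact_mod_cast this
  have h3 : (A.card : ℤ) * (X * H) ≤ k * (X * H) :=
    mul_le_mul_of_nonneg_right h2 (by positivity)
  push_cast at h
  nlinarith

end Pool.Agent.X61.CU
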