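import Mathlib
import Pool.Agent.X61.CU.Base
import Pool.Agent.X61.CU.Pair

/-!
Elements of cycles which are sums of few elements of a finitely generated group.
-/

namespace Pool.Agent.X61.CU

open Finset Pool.Agent.TH419.WI

/-- The integers of the form `c 1 g 1 + ... + c k g k` with `c i ∈ C` and `g i ∈ Γ`. -/
def SumsG (Γ : Subgroup ℚˣ) (C : Finset ℚ) (k : ℕ) : Set ℤ :=
  {x | ∃ (c : Fin k → ℚ) (g : Fin k → ℚˣ), (∀ i, c i ∈ C) ∧ (∀ i, g i ∈ Γ) ∧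
    (x : ℚ) = ∑ i, c i * (g i : ℚ)}

/-- numerator and denominator are composed of primes of `S` -/
def UnitS (S : Finset ℕ) (q : ℚ) : Prop := Smooth S q.num.natAbs ∧ Smooth S q.den

lemma smooth_dvd {S : Finset ℕ} {m n : ℕ} (h : m ∣ n) (hn : Smooth S n) : Smooth S m :=
  ⟨fun h0 => hn.1 (Nat.eq_zero_of_zero_dvd (h0 ▸ h)), (Nat.primeFactors_mono h hn.1).trans hn.2⟩

lemma unitS_of_eq {S : Finset ℕ} {q : ℚ} {a : ℤ} {b : ℕ} (h : q = a / b) (ha : Smooth S a.natAbs)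
    (hb : Smooth S b) : UnitS S q := by
  have hb0 : (b : ℤ) ≠ 0 := by exact_mod_cast hb.1
  constructor
  · have h1 : q.num ∣ a := by
      rw [h]
      exact_mod_cast Rat.num_dvd a hb0
    exact smooth_dvd (Int.natAbs_dvd_natAbs.2 h1) ha
  · have h1 : (q.den : ℤ) ∣ b := by
      rw [h]
      exact_mod_cast Rat.den_dvd a b
    exact smooth_dvd (by exact_mod_cast h1) hb

lemma unitS_mul {S : Finset ℕ} {q r : ℚ} (hq : UnitS S q) (hr : UnitS S r) : UnitS S (q * r) := by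
  refine unitS_of_eq (a := q.num * r.num) (b := q.den * r.den) ?_ ?_ (smooth_mul hq.2 hr.2)
  · have h1 : (q.den : ℚ) ≠ 0 := by exact_mod_cast q.den_nz
    have h2 : (r.den : ℚ) ≠ 0 := by exact_mod_cast r.den_nz
    conv_lhs => rw [← Rat.num_div_den q, ← Rat.num_div_den r]
    push_cast
    field_simp
  · rw [Int.natAbs_mul]
    exact smooth_mul hq.1 hr.1

lemma unitS_inv {S : Finset ℕ} {q : ℚ} (hq : UnitS S q) : UnitS S q⁻¹ := by
  have h1 : (q.den : ℚ) ≠ 0 := by exact_mod_cast q.den_nz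
  have hn0 : q.num ≠ 0 := fun h => hq.1.1 (by rw [h]; rfl)
  refine unitS_of_eq (a := Int.sign q.num * q.den) (b := q.num.natAbs) ?_ ?_ hq.1
  · have h2 : ((q.num.natAbs : ℕ) : ℚ) = (Int.sign q.num : ℚ) * q.num := by
      have h5 := Int.sign_mul_self_eq_abs q.num
      rw [Int.abs_eq_natAbs] at h5
      have h6 : ((Int.sign q.num * q.num : ℤ) : ℚ) = (((q.num.natAbs : ℕ) : ℤ) : ℚ) := by rw [h5]
      push_cast at h6
      rw [h6]
      simp
    have h3 : (q.num : ℚ) ≠ 0 := by exact_mod_cast hn0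
    have h4 : (Int.sign q.num : ℚ) ≠ 0 := by
      have : Int.sign q.num ≠ 0 := by
        rw [Ne, Int.sign_eq_zero_iff_zero]
        exact hn0
      exact_mod_cast this
    rw [h2]
    conv_lhs => rw [← Rat.num_div_den q]
    push_cast
    field_simp
  · rw [Int.natAbs_mul, Int.natAbs_sign_of_ne_zero hn0, one_mul, Int.natAbs_natCast]
    exact hq.2

/-- a finitely generated group consists of `S`-units for some finite set of primes -/
theorem exists_primes (Γ : Subgroup ℚˣ) (hΓ : Γ.FG) : ∃ S : Finset ℕ, (∀ p ∈ S, p.Prime) ∧ 2 ∈ S ∧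
    3 ∈ S ∧ ∀ g ∈ Γ, UnitS S (g : ℚ) := by
  classical
  obtain ⟨G, hG⟩ := hΓ
  let S : Finset ℕ := insert 2 (insert 3 (G.biUnion fun g =>
    (g : ℚ).num.natAbs.primeFactors ∪ (g : ℚ).den.primeFactors))
  refine ⟨S, ?_, by simp [S], by simp [S], ?_⟩
  · intro p hp
    simp only [S, Finset.mem_insert, Finset.mem_biUnion, Finset.mem_union] at hp
    rcases hp with rfl | rfl | ⟨g, _, h | h⟩
    · exact Nat.prime_two
    · exact Nat.prime_three
    · exact Nat.prime_of_mem_primeFactors h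
    · exact Nat.prime_of_mem_primeFactors h
  · intro g hg
    rw [← hG] at hg
    induction hg using Subgroup.closure_induction with
    | mem g hg =>
      refine ⟨⟨?_, ?_⟩, (g : ℚ).den_nz, ?_⟩
      · rw [Ne, Int.natAbs_eq_zero, Rat.num_eq_zero]
        exact g.ne_zero
      · intro p hp
        simp only [S, Finset.mem_insert, Finset.mem_biUnion, Finset.mem_union]
        exact Or.inr (Or.inr ⟨g, hg, Or.inl hp⟩)
      · intro p hp
        simp only [S, Finset.mem_insert, Finset.mem_biUnion, Finset.mem_union]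
        exact Or.inr (Or.inr ⟨g, hg, Or.inr hp⟩)
    | one => exact ⟨by simp [Smooth], by simp [Smooth]⟩
    | mul x y _ _ hx hy => exact unitS_mul hx hy
    | inv x _ hx =>
      rw [Units.val_inv_eq_inv_val]
      exact unitS_inv hx

/-! ### integral coefficients -/

/-- a common denominator of the coefficients -/
def den (C : Finset ℚ) : ℕ := ∏ c ∈ C, c.den

/-- a bound for the integral coefficients -/
def bound (C : Finset ℚ) : ℕ := den C + ∑ c ∈ C, c.num.natAbs * den C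

theorem den_pos (C : Finset ℚ) : 1 ≤ den C := by
  have h : 0 < den C := Finset.prod_pos fun c _ => Rat.den_pos c
  exact h

/-- the integral coefficient -/
def coe (C : Finset ℚ) (c : ℚ) (g : ℚ) : ℤ := c.num * ((den C / c.den : ℕ) : ℤ) * Int.sign g.num

theorem coe_le {C : Finset ℚ} {c : ℚ} (hc : c ∈ C) (g : ℚ) : |coe C c g| ≤ bound C := by
  unfold coe
  rw [abs_mul, abs_mul, Int.abs_eq_natAbs c.num, abs_of_nonneg (Int.natCast_nonneg _)]
  have h0 : |Int.sign g.num| ≤ 1 := by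
    rcases lt_trichotomy g.num 0 with h | h | h
    · rw [Int.sign_eq_neg_one_of_neg h]; simp
    · rw [h]; simp
    · rw [Int.sign_eq_one_of_pos h]; simp
  have h2 : c.num.natAbs * (den C / c.den) ≤ c.num.natAbs * den C :=
    Nat.mul_le_mul_left _ (Nat.div_le_self _ _)
  have h3 : c.num.natAbs * den C ≤ ∑ c ∈ C, c.num.natAbs * den C :=
    Finset.single_le_sum (f := fun c : ℚ => c.num.natAbs * den C) (fun _ _ => Nat.zero_le _) hc
  have h4 : ∑ c ∈ C, c.num.natAbs * den C ≤ bound C := Nat.le_add_left _ _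
  have h5 : (c.num.natAbs : ℤ) * ((den C / c.den : ℕ) : ℤ) ≤ bound C := by
    exact_mod_cast h2.trans (h3.trans h4)
  calc (c.num.natAbs : ℤ) * ((den C / c.den : ℕ) : ℤ) * |Int.sign g.num|
      ≤ (c.num.natAbs : ℤ) * ((den C / c.den : ℕ) : ℤ) * 1 :=
        mul_le_mul_of_nonneg_left h0 (by positivity)
    _ ≤ bound C := by rw [mul_one]; exact h5

/-- the integral term -/
def nat (D : ℕ) (g : ℚ) : ℕ := g.num.natAbs * (D / g.den)

theorem nat_eq {D : ℕ} {g : ℚ} (h : g.den ∣ D) : ((nat D g : ℕ) : ℚ) = D * |g| := by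
  unfold nat
  have h1 : (g.den : ℚ) ≠ 0 := by exact_mod_cast g.den_nz
  rw [Nat.cast_mul, Nat.cast_div h h1, Nat.cast_natAbs, Int.cast_abs]
  have h2 : |g| = |(g.num : ℚ)| / g.den := by
    conv_lhs => rw [← Rat.num_div_den g]
    rw [abs_div, abs_of_pos (by positivity : (0 : ℚ) < g.den)]
  rw [h2]
  field_simp

theorem term_eq {C : Finset ℚ} {c g : ℚ} {D : ℕ} (hc : c ∈ C) (h : g.den ∣ D) :
    ((nat D g : ℕ) : ℚ) * (coe C c g : ℤ) = (den C : ℚ) * D * (c * g) := by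
  rw [nat_eq h]
  unfold coe
  have hd : c.den ∣ den C := Finset.dvd_prod_of_mem _ hc
  have h1 : (c.den : ℚ) ≠ 0 := by exact_mod_cast c.den_nz
  rw [Int.cast_mul, Int.cast_mul, Int.cast_natCast, Nat.cast_div hd h1]
  have h2 : |g| * (Int.sign g.num : ℚ) = g := by
    rcases lt_trichotomy g 0 with hg | hg | hg
    · rw [abs_of_neg hg, Int.sign_eq_neg_one_of_neg (Rat.num_neg.2 hg)]
      push_cast
      ring
    · rw [hg]; simp
    · rw [abs_of_pos hg, Int.sign_eq_one_of_pos (Rat.num_pos.2 hg)]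
      push_cast
      ring
  have h3 : (c.num : ℚ) * ((den C : ℚ) / c.den) = den C * c := by
    conv_rhs => rw [← Rat.num_div_den c]
    field_simp
  calc (D : ℚ) * |g| * ((c.num : ℚ) * ((den C : ℚ) / c.den) * (Int.sign g.num : ℚ))
      = D * ((c.num : ℚ) * ((den C : ℚ) / c.den)) * (|g| * (Int.sign g.num : ℚ)) := by ring
    _ = (den C : ℚ) * D * (c * g) := by rw [h2, h3]; ring

/-- **The pair lemma for sums of elements of a group.** -/
theorem pairG (Γ : Subgroup ℚˣ) (hΓ : Γ.FG) (C : Finset ℚ) (k : ℕ) : ∃ R : ℕ, ∀ J : ℕ, ∃ X : ℕ,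
    ∀ (x y c : ℤ) (j o : ℕ), x ∈ SumsG Γ C k → y ∈ SumsG Γ C k → j ≤ J → |c| ≤ 3 ^ J →
      2 ^ j * y = 3 ^ o * x + c → (X : ℤ) < |x| →
      ∃ (s t : ℕ) (g : ℚˣ), 0 < s ∧ s ≤ R ∧ 0 < t ∧ t ≤ R ∧ g ∈ Γ ∧
        (s : ℚ) * 3 ^ o = t * 2 ^ j * |(g : ℚ)| := by
  obtain ⟨S, hS, h2, h3, hSΓ⟩ := exists_primes Γ hΓ
  obtain ⟨R, hR, hpair⟩ := pair S hS h2 h3 k (bound C)
  refine ⟨R, fun J => ?_⟩
  obtain ⟨F, hF, hp⟩ := hpair J
  refine ⟨k * bound C * F, ?_⟩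
  rintro x y c j o ⟨cx, gx, hcx, hgx, hx⟩ ⟨cy, gy, hcy, hgy, hy⟩ hj hc hxy hX
  set D : ℕ := (∏ i, (gx i : ℚ).den) * ∏ i, (gy i : ℚ).den with hD
  have hprod : ∀ (u : Fin k → ℚˣ), (∀ i, u i ∈ Γ) → Smooth S (∏ i, (u i : ℚ).den) := by
    intro u hu
    refine Finset.prod_induction _ (Smooth S) (fun a b => smooth_mul) ⟨one_ne_zero, by simp⟩
      fun i _ => (hSΓ _ (hu i)).2
  have hDs : Smooth S D := smooth_mul (hprod gx hgx) (hprod gy hgy)
  have hD0 : 0 < D := Nat.pos_of_ne_zero hDs.1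
  have hdx : ∀ i, (gx i : ℚ).den ∣ D := fun i =>
    (Finset.dvd_prod_of_mem (fun i => (gx i : ℚ).den) (Finset.mem_univ i)).mul_right _
  have hdy : ∀ i, (gy i : ℚ).den ∣ D := fun i =>
    (Finset.dvd_prod_of_mem (fun i => (gy i : ℚ).den) (Finset.mem_univ i)).mul_left _
  have hsm : ∀ (g : ℚˣ), g ∈ Γ → (g : ℚ).den ∣ D → Smooth S (nat D g) := by
    intro g hg hd
    exact smooth_mul (hSΓ g hg).1 (smooth_dvd (Nat.div_dvd_of_dvd hd) hDs)
  have hsum : ∀ (z : ℤ) (cz : Fin k → ℚ) (gz : Fin k → ℚˣ), (∀ i, cz i ∈ C) →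
      (∀ i, (gz i : ℚ).den ∣ D) → (z : ℚ) = ∑ i, cz i * (gz i : ℚ) →
      ((den C : ℤ) * D) * z = ∑ i, (nat D (gz i) : ℤ) * coe C (cz i) (gz i) := by
    intro z cz gz hcz hdz hz
    have h4 : ((((den C : ℤ) * D) * z : ℤ) : ℚ) =
        ((∑ i, (nat D (gz i) : ℤ) * coe C (cz i) (gz i) : ℤ) : ℚ) := by
      push_cast
      rw [hz, Finset.mul_sum]
      exact Finset.sum_congr rfl fun i _ => (term_eq (hcz i) (hdz i)).symm
    exact_mod_cast h4
  obtain ⟨A, hA, hAmin⟩ := exists_min (fun i => (nat D (gx i) : ℤ) * coe C (cx i) (gx i)) _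
    (hsum x cx gx hcx hdx hx)
  obtain ⟨B, hB, -⟩ := exists_min (fun i => (nat D (gy i) : ℤ) * coe C (cy i) (gy i)) _
    (hsum y cy gy hcy hdy hy)
  have hbig : ((k * bound C * (F * D) : ℕ) : ℤ) <
      |∑ i ∈ A, (nat D (gx i) : ℤ) * coe C (cx i) (gx i)| := by
    rw [← hA, abs_mul, abs_of_nonneg (by positivity : (0 : ℤ) ≤ (den C : ℤ) * D)]
    have h4 : (1 : ℤ) ≤ den C := by exact_mod_cast den_pos C
    have h5 : (1 : ℤ) ≤ D := by exact_mod_cast hD0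
    have h6 : (D : ℤ) * |x| ≤ (den C : ℤ) * D * |x| := by
      rw [mul_assoc]
      exact le_mul_of_one_le_left (by positivity) h4
    have h7 : ((k * bound C * (F * D) : ℕ) : ℤ) = D * ((k * bound C * F : ℕ) : ℤ) := by
      push_cast
      ring
    rw [h7]
    exact lt_of_lt_of_le (mul_lt_mul_of_pos_left hX (by linarith)) h6
  obtain ⟨i0, hi0, hi0F⟩ := exists_large A _ _ (bound C) (fun i => coe_le (hcx i) _) (F * D) hbig
  obtain ⟨i1, -, s, t, hs, hsR, ht, htR, hst⟩ := hp j o c x y D (den C) A B (fun i => nat D (gx i))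
    (fun i => nat D (gy i)) (fun i => coe C (cx i) (gx i)) (fun i => coe C (cy i) (gy i)) i0 hj hc hDs
    (Nat.le_add_right _ _) (fun i => hsm _ (hgx i) (hdx i)) (fun i => hsm _ (hgy i) (hdy i))
    (fun i => coe_le (hcx i) _) (fun i => coe_le (hcy i) _) hxy hA hB hAmin hi0 hi0F
  refine ⟨s, t, gy i1 / gx i0, hs, hsR, ht, htR, Γ.div_mem (hgy i1) (hgx i0), ?_⟩
  have hst' : (s : ℚ) * (3 ^ o * (nat D (gx i0) : ℕ)) = t * (2 ^ j * (nat D (gy i1) : ℕ)) := by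
    exact_mod_cast hst
  rw [nat_eq (hdx i0), nat_eq (hdy i1)] at hst'
  have hD' : (D : ℚ) ≠ 0 := by exact_mod_cast hDs.1
  have hg0 : |(gx i0 : ℚ)| ≠ 0 := abs_ne_zero.2 (gx i0).ne_zero
  rw [Units.val_div_eq_div_val, abs_div]
  field_simp
  have h8 : (D : ℚ) * ((s : ℚ) * 3 ^ o * |(gx i0 : ℚ)|) = D * (t * 2 ^ j * |(gy i1 : ℚ)|) := by
    linear_combination hst'
  exact mul_left_cancel₀ hD' h8

/-! ### exponents -/

/-- no number `3 ^ a / 2 ^ b` with `a, b ≥ 1` in the group: the number of odd terms between is bounded -/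
theorem bound_o (Γ : Subgroup ℚˣ) (hΓ : ∀ g ∈ Γ, ∀ a b : ℕ, 1 ≤ a → 1 ≤ b → (g : ℚ) ≠ 3 ^ a / 2 ^ b)
    (R : ℕ) : ∃ m : ℕ, ∀ (o j s t : ℕ) (g : ℚˣ), o ≤ j → 0 < s → s ≤ R → 0 < t → t ≤ R → g ∈ Γ →
      (s : ℚ) * 3 ^ o = t * 2 ^ j * |(g : ℚ)| → o ≤ m := by
  have h : ∀ s t : ℕ, ∃ m : ℕ, 0 < s → 0 < t → ∀ (o j : ℕ) (g : ℚˣ), o ≤ j → g ∈ Γ →
      (s : ℚ) * 3 ^ o = t * 2 ^ j * |(g : ℚ)| → o ≤ m := by
    intro s t
    by_cases hex : ∃ (o j : ℕ) (g : ℚˣ), o ≤ j ∧ g ∈ Γ ∧ (s : ℚ) * 3 ^ o = t * 2 ^ j * |(g : ℚ)|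
    · obtain ⟨o1, j1, g1, h1, hg1, he1⟩ := hex
      refine ⟨j1, fun hs ht o j g hoj hg he => ?_⟩
      by_contra hlt
      push Not at hlt
      have hs' : (s : ℚ) ≠ 0 := by exact_mod_cast hs.ne'
      have ht' : (t : ℚ) ≠ 0 := by exact_mod_cast ht.ne'
      have hg0 : |(g : ℚ)| ≠ 0 := abs_ne_zero.2 g.ne_zero
      have hg10 : |(g1 : ℚ)| ≠ 0 := abs_ne_zero.2 g1.ne_zero
      obtain ⟨a, rfl⟩ : ∃ a, o = o1 + a := ⟨o - o1, by omega⟩
      obtain ⟨b, rfl⟩ : ∃ b, j = j1 + b := ⟨j - j1, by omega⟩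
      have e1 : (3 : ℚ) ^ a * |(g1 : ℚ)| = 2 ^ b * |(g : ℚ)| := by
        have e2 : ((s : ℚ) * 3 ^ o1) * (3 ^ a * |(g1 : ℚ)|) =
            ((s : ℚ) * 3 ^ o1) * (2 ^ b * |(g : ℚ)|) := by
          calc ((s : ℚ) * 3 ^ o1) * (3 ^ a * |(g1 : ℚ)|) = (s * 3 ^ (o1 + a)) * |(g1 : ℚ)| := by
                rw [pow_add]; ring
            _ = (t * 2 ^ (j1 + b) * |(g : ℚ)|) * |(g1 : ℚ)| := by rw [he]
            _ = (t * 2 ^ j1 * |(g1 : ℚ)|) * (2 ^ b * |(g : ℚ)|) := by rw [pow_add]; ring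
            _ = ((s : ℚ) * 3 ^ o1) * (2 ^ b * |(g : ℚ)|) := by rw [← he1]
        exact mul_left_cancel₀ (mul_ne_zero hs' (by positivity)) e2
      refine hΓ ((g / g1) ^ 2) (Γ.pow_mem (Γ.div_mem hg hg1) 2) (2 * a) (2 * b) (by omega) (by omega) ?_
      rw [Units.val_pow_eq_pow_val, Units.val_div_eq_div_val, div_pow, ← sq_abs (g : ℚ),
        ← sq_abs (g1 : ℚ), div_eq_div_iff (pow_ne_zero _ hg10) (by positivity)]
      calc |(g : ℚ)| ^ 2 * 2 ^ (2 * b) = (2 ^ b * |(g : ℚ)|) ^ 2 := by ring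
        _ = (3 ^ a * |(g1 : ℚ)|) ^ 2 := by rw [e1]
        _ = 3 ^ (2 * a) * |(g1 : ℚ)| ^ 2 := by ring
    · exact ⟨0, fun _ _ o j g h1 h2 h3 => absurd ⟨o, j, g, h1, h2, h3⟩ hex⟩
  choose m hm using h
  refine ⟨(Finset.range (R + 1)).sup fun s => (Finset.range (R + 1)).sup fun t => m s t, ?_⟩
  intro o j s t g hoj hs hsR ht htR hg he
  refine (hm s t hs ht o j g hoj hg he).trans ?_
  refine le_trans ?_ (Finset.le_sup (f := fun s => (Finset.range (R + 1)).sup fun t => m s t)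
    (Finset.mem_range.2 (by omega : s < R + 1)))
  exact Finset.le_sup (f := fun t => m s t) (Finset.mem_range.2 (by omega : t < R + 1))

/-- no number `3 ^ a / 2 ^ b` with `b ≥ 1` in the group: the number of terms between is bounded -/
theorem bound_j (Γ : Subgroup ℚˣ) (hΓ : ∀ g ∈ Γ, ∀ a b : ℕ, 1 ≤ b → (g : ℚ) ≠ 3 ^ a / 2 ^ b)
    (R : ℕ) : ∃ m : ℕ, ∀ (o j s t : ℕ) (g : ℚˣ), 0 < s → s ≤ R → 0 < t → t ≤ R → g ∈ Γ →
      (s : ℚ) * 3 ^ o = t * 2 ^ j * |(g : ℚ)| → j ≤ m := by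
  classical
  have h : ∀ s t : ℕ, ∃ m : ℕ, 0 < s → 0 < t → ∀ (o j : ℕ) (g : ℚˣ), g ∈ Γ →
      (s : ℚ) * 3 ^ o = t * 2 ^ j * |(g : ℚ)| → j ≤ m := by
    intro s t
    by_cases hex : ∃ (o j : ℕ) (g : ℚˣ), g ∈ Γ ∧ (s : ℚ) * 3 ^ o = t * 2 ^ j * |(g : ℚ)|
    · obtain ⟨j1, g1, hg1, he1⟩ := Nat.find_spec hex
      set o1 := Nat.find hex with ho1
      refine ⟨j1, fun hs ht o j g hg he => ?_⟩
      by_contra hlt
      push Not at hlt
      have ho : o1 ≤ o := Nat.find_min' hex ⟨j, g, hg, he⟩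
      have hs' : (s : ℚ) ≠ 0 := by exact_mod_cast hs.ne'
      have hg10 : |(g1 : ℚ)| ≠ 0 := abs_ne_zero.2 g1.ne_zero
      obtain ⟨a, rfl⟩ : ∃ a, o = o1 + a := ⟨o - o1, by omega⟩
      obtain ⟨b, rfl⟩ : ∃ b, j = j1 + b := ⟨j - j1, by omega⟩
      have e1 : (3 : ℚ) ^ a * |(g1 : ℚ)| = 2 ^ b * |(g : ℚ)| := by
        have e2 : ((s : ℚ) * 3 ^ o1) * (3 ^ a * |(g1 : ℚ)|) =
            ((s : ℚ) * 3 ^ o1) * (2 ^ b * |(g : ℚ)|) := by
          calc ((s : ℚ) * 3 ^ o1) * (3 ^ a * |(g1 : ℚ)|) = (s * 3 ^ (o1 + a)) * |(g1 : ℚ)| := by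
                rw [pow_add]; ring
            _ = (t * 2 ^ (j1 + b) * |(g : ℚ)|) * |(g1 : ℚ)| := by rw [he]
            _ = (t * 2 ^ j1 * |(g1 : ℚ)|) * (2 ^ b * |(g : ℚ)|) := by rw [pow_add]; ring
            _ = ((s : ℚ) * 3 ^ o1) * (2 ^ b * |(g : ℚ)|) := by rw [← he1]
        exact mul_left_cancel₀ (mul_ne_zero hs' (by positivity)) e2
      refine hΓ ((g / g1) ^ 2) (Γ.pow_mem (Γ.div_mem hg hg1) 2) (2 * a) (2 * b) (by omega) ?_
      rw [Units.val_pow_eq_pow_val, Units.val_div_eq_div_val, div_pow, ← sq_abs (g : ℚ),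
        ← sq_abs (g1 : ℚ), div_eq_div_iff (pow_ne_zero _ hg10) (by positivity)]
      calc |(g : ℚ)| ^ 2 * 2 ^ (2 * b) = (2 ^ b * |(g : ℚ)|) ^ 2 := by ring
        _ = (3 ^ a * |(g1 : ℚ)|) ^ 2 := by rw [e1]
        _ = 3 ^ (2 * a) * |(g1 : ℚ)| ^ 2 := by ring
    · exact ⟨0, fun _ _ o j g h2 h3 => absurd ⟨o, j, g, h2, h3⟩ hex⟩
  choose m hm using h
  refine ⟨(Finset.range (R + 1)).sup fun s => (Finset.range (R + 1)).sup fun t => m s t, ?_⟩
  intro o j s t g hs hsR ht htR hg he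
  refine (hm s t hs ht o j g hg he).trans ?_
  refine le_trans ?_ (Finset.le_sup (f := fun s => (Finset.range (R + 1)).sup fun t => m s t)
    (Finset.mem_range.2 (by omega : s < R + 1)))
  exact Finset.le_sup (f := fun t => m s t) (Finset.mem_range.2 (by omega : t < R + 1))

/-! ### counting -/

/-- A property of integers which in long pieces of trajectories of large integers holds only a bounded
number of times: its frequency on all but finitely many cycles is small. -/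
theorem rare (P : ℤ → Prop) [DecidablePred P] (m : ℕ)
    (h : ∀ J : ℕ, ∃ X : ℕ, ∀ (x : ℤ) (j : ℕ), P x → P (T^[j] x) → 1 ≤ j → j < J → (X : ℤ) < |x| →
      ((Finset.range j).filter fun i => P (T^[i] x)).card ≤ m) (ε : ℝ) (hε : 0 < ε) :
    {Z : Finset ℤ | IsCycle Z ∧ ε * Z.card < ((Z.filter P).card : ℝ)}.Finite := by
  obtain ⟨J0, hJ0⟩ := exists_nat_ge ((2 * (m + 1) : ℝ) / ε)
  set J := J0 + 1 with hJ
  obtain ⟨X, hX⟩ := h J
  refine (finite_exceptions X J).subset ?_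
  rintro Z ⟨hZ, hlt⟩
  refine ⟨hZ, ?_⟩
  rintro ⟨hJZ, hbig⟩
  obtain ⟨x, hxZ, hp1, hper, hinj, himg⟩ := hZ.normal
  set p := Z.card with hp
  set B := (Finset.range p).filter fun i => P (T^[i] x) with hB
  have hcard : (Z.filter P).card = B.card := by
    rw [himg, Finset.filter_image, Finset.card_image_of_injOn]
    intro i hi j hj hij
    have hi' := Finset.mem_range.1 (Finset.mem_filter.1 hi).1
    have hj' := Finset.mem_range.1 (Finset.mem_filter.1 hj).1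
    exact hinj hi' hj' hij
  have hwin := count_windows B p J m (by omega) (Finset.filter_subset _ _) (by
    intro i hi i' hi' hii hlt
    have h1 := (Finset.mem_filter.1 hi).2
    have h2 := (Finset.mem_filter.1 hi').2
    have h3 := hX (T^[i] x) (i' - i) h1 (by
      rw [← Function.iterate_add_apply, show i' - i + i = i' by omega]
      exact h2) (by omega) (by omega) (hbig _ (hZ.iter_mem hxZ i))
    refine le_trans (Finset.card_le_card_of_injOn (fun t => t - i) ?_ ?_) h3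
    · intro t ht
      obtain ⟨ht1, ht2, ht3⟩ := Finset.mem_filter.1 ht
      have e : t - i + i = t := by omega
      have hlt' : t - i < i' - i := by omega
      refine Finset.mem_coe.2 (Finset.mem_filter.2 ⟨Finset.mem_range.2 hlt', ?_⟩)
      change P (T^[t - i] (T^[i] x))
      rw [← Function.iterate_add_apply, e]
      exact (Finset.mem_filter.1 ht1).2
    · intro t ht t' ht' htt
      obtain ⟨-, ht2, -⟩ := Finset.mem_filter.1 ht
      obtain ⟨-, ht2', -⟩ := Finset.mem_filter.1 ht'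
      simp only at htt
      omega)
  rw [hcard] at hlt
  have hJpos : (0 : ℝ) < J := by positivity
  have h1 : (B.card : ℝ) ≤ (m + 1) * ((p : ℝ) / J + 1) := by
    have h2 : ((p / J : ℕ) : ℝ) ≤ (p : ℝ) / J := Nat.cast_div_le
    have h3 : (B.card : ℝ) ≤ (m + 1) * (((p / J : ℕ) : ℝ) + 1) := by exact_mod_cast hwin
    nlinarith [h3, h2, (Nat.cast_nonneg m : (0 : ℝ) ≤ m)]
  have h2 : (1 : ℝ) ≤ (p : ℝ) / J := by
    rw [le_div_iff₀ hJpos, one_mul]
    exact_mod_cast hJZ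
  have h3 : (2 * (m + 1) : ℝ) / ε ≤ J := by
    rw [hJ]
    push_cast
    linarith
  have h4 : (2 * (m + 1) : ℝ) ≤ J * ε := by rwa [div_le_iff₀ hε] at h3
  have h5 : (m + 1) * ((p : ℝ) / J + 1) ≤ ε * p := by
    have h6 : (m + 1 : ℝ) * ((p : ℝ) / J + 1) ≤ (m + 1) * (2 * ((p : ℝ) / J)) := by
      apply mul_le_mul_of_nonneg_left _ (by positivity)
      linarith
    refine h6.trans ?_
    have h7 : (m + 1 : ℝ) * (2 * ((p : ℝ) / J)) = (2 * (m + 1)) * p / J := by ring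
    rw [h7, div_le_iff₀ hJpos]
    have h8 : (0 : ℝ) ≤ p := Nat.cast_nonneg p
    nlinarith
  linarith

/-- **Density, odd elements.** -/
theorem dens_odd (Γ : Subgroup ℚˣ) (hfg : Γ.FG)
    (hΓ : ∀ g ∈ Γ, ∀ a b : ℕ, 1 ≤ a → 1 ≤ b → (g : ℚ) ≠ 3 ^ a / 2 ^ b) (C : Finset ℚ) (k : ℕ)
    [DecidablePred fun x : ℤ => x % 2 = 1 ∧ x ∈ SumsG Γ C k] (ε : ℝ) (hε : 0 < ε) :
    {Z : Finset ℤ | IsCycle Z ∧
      ε * Z.card < ((Z.filter fun x => x % 2 = 1 ∧ x ∈ SumsG Γ C k).card : ℝ)}.Finite := by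
  obtain ⟨R, hR⟩ := pairG Γ hfg C k
  obtain ⟨m, hm⟩ := bound_o Γ hΓ R
  refine rare _ m (fun J => ?_) ε hε
  obtain ⟨X, hX⟩ := hR J
  refine ⟨X, fun x j hx hy _ hjJ hxX => ?_⟩
  obtain ⟨s, t, g, hs, hsR, ht, htR, hg, he⟩ := hX x (T^[j] x) (cc x j) j (od x j) hx.2 hy.2 hjJ.le
    ((cc_abs x j).trans (pow_le_pow_right₀ (by norm_num) hjJ.le)) (affine x j) hxX
  have h1 := hm (od x j) j s t g (od_le x j) hs hsR ht htR hg he
  refine le_trans ?_ h1
  rw [od_card]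
  refine Finset.card_le_card fun i hi => ?_
  rw [Finset.mem_filter] at hi ⊢
  exact ⟨hi.1, by rw [hi.2.1]; norm_num⟩

/-- **Density, all elements.** -/
theorem dens_all (Γ : Subgroup ℚˣ) (hfg : Γ.FG)
    (hΓ : ∀ g ∈ Γ, ∀ a b : ℕ, 1 ≤ b → (g : ℚ) ≠ 3 ^ a / 2 ^ b) (C : Finset ℚ) (k : ℕ)
    [DecidablePred fun x : ℤ => x ∈ SumsG Γ C k] (ε : ℝ) (hε : 0 < ε) :
    {Z : Finset ℤ | IsCycle Z ∧
      ε * Z.card < ((Z.filter fun x => x ∈ SumsG Γ C k).card : ℝ)}.Finite := by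
  obtain ⟨R, hR⟩ := pairG Γ hfg C k
  obtain ⟨m, hm⟩ := bound_j Γ hΓ R
  refine rare _ m (fun J => ?_) ε hε
  obtain ⟨X, hX⟩ := hR J
  refine ⟨X, fun x j hx hy _ hjJ hxX => ?_⟩
  obtain ⟨s, t, g, hs, hsR, ht, htR, hg, he⟩ := hX x (T^[j] x) (cc x j) j (od x j) hx hy hjJ.le
    ((cc_abs x j).trans (pow_le_pow_right₀ (by norm_num) hjJ.le)) (affine x j) hxX
  have h1 := hm (od x j) j s t g hs hsR ht htR hg he
  refine le_trans (Finset.card_filter_le _ _) ?_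
  rw [Finset.card_range]
  exact h1

end Pool.Agent.X61.CU
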