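import Mathlib
import Pool.Agent.X61.CU.Base
import Pool.Agent.X61.CU.Pair

/-!
Trajectories of the `3x+1` map which consist of sums of few smooth numbers.
-/

namespace Pool.Agent.X61.CU

open Finset Pool.Agent.TH419.WI

/-- `Q x` is a sum of `k` smooth numbers with coefficients at most `H` -/
def Rep (S : Finset ℕ) (k H Q : ℕ) (x : ℤ) : Prop :=
  ∃ (n : Fin k → ℕ) (a : Fin k → ℤ), (∀ i, Smooth S (n i)) ∧ (∀ i, |a i| ≤ H) ∧
    (Q : ℤ) * x = ∑ i, (n i : ℤ) * a i

lemma val_le {s R : ℕ} (hs : 0 < s) (h : s ≤ R) : padicValNat 2 s ≤ R := by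
  have h1 : 2 ^ padicValNat 2 s ≤ s := Nat.le_of_dvd hs pow_padicValNat_dvd
  have h2 : padicValNat 2 s < 2 ^ padicValNat 2 s := Nat.lt_two_pow_self
  omega

/-- the valuations in the relation of the pair lemma -/
lemma val_step {s t o j n n' R : ℕ} (hs : 0 < s) (hsR : s ≤ R) (ht : 0 < t) (hn : n ≠ 0)
    (hn' : n' ≠ 0) (h : s * (3 ^ o * n) = t * (2 ^ j * n')) :
    padicValNat 2 n' + j ≤ padicValNat 2 n + R := by
  have h1 : padicValNat 2 (s * (3 ^ o * n)) = padicValNat 2 s + padicValNat 2 n := by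
    have e : padicValNat 2 (3 ^ o) = 0 := by
      apply padicValNat.eq_zero_of_not_dvd
      intro hd
      have := Nat.prime_two.dvd_of_dvd_pow hd
      omega
    rw [padicValNat.mul hs.ne' (mul_ne_zero (by positivity) hn),
      padicValNat.mul (by positivity) hn, e]
    omega
  have h2 : padicValNat 2 (t * (2 ^ j * n')) = padicValNat 2 t + (j + padicValNat 2 n') := by
    rw [padicValNat.mul ht.ne' (mul_ne_zero (by positivity) hn'),
      padicValNat.mul (by positivity) hn', padicValNat.prime_pow]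
  rw [h] at h1
  have h3 := val_le hs hsR
  omega

/-- **Sums of smooth numbers.** A trajectory all of whose terms are sums of few smooth numbers has a
small term. -/
theorem small_term (S : Finset ℕ) (hS : ∀ p ∈ S, p.Prime) (h2 : 2 ∈ S) (h3 : 3 ∈ S) (k H Q : ℕ)
    (hQ1 : 1 ≤ Q) (hQ : Q ≤ H) :
    ∃ X : ℕ, ∀ x : ℤ, (∀ j, Rep S k H Q (T^[j] x)) → ∃ j, |T^[j] x| ≤ X := by
  obtain ⟨R, hR, hpair⟩ := pair S hS h2 h3 k H
  set l : ℕ := 2 * R with hl
  have hl2 : 2 * R ≤ 2 ^ l := Nat.lt_two_pow_self.le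
  set J : ℕ := R + 2 * l with hJ
  obtain ⟨F, hF, hp⟩ := hpair J
  refine ⟨3 ^ J + k * H * F ^ 2, ?_⟩
  intro x hrep
  by_contra hcon
  push Not at hcon
  -- the least term
  obtain ⟨j0, hj0⟩ : ∃ i : ℕ, ∀ j : ℕ, (T^[i] x).natAbs ≤ (T^[j] x).natAbs := by
    classical
    have hne : ∃ n : ℕ, ∃ i : ℕ, (T^[i] x).natAbs = n := ⟨_, 0, rfl⟩
    obtain ⟨i, hi⟩ := Nat.find_spec hne
    refine ⟨i, fun j => ?_⟩
    rw [hi]
    exact Nat.find_min' hne ⟨j, rfl⟩
  set x0 := T^[j0] x with hx0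
  have hit : ∀ j, T^[j] x0 = T^[j + j0] x := by
    intro j
    rw [hx0, Function.iterate_add_apply]
  have hmin : ∀ j, |x0| ≤ |T^[j] x0| := by
    intro j
    rw [hit, Int.abs_eq_natAbs, Int.abs_eq_natAbs]
    exact_mod_cast hj0 (j + j0)
  have hrep0 : ∀ j, Rep S k H Q (T^[j] x0) := by
    intro j
    rw [hit]
    exact hrep _
  have hbig : ∀ j, ((3 ^ J + k * H * F ^ 2 : ℕ) : ℤ) < |T^[j] x0| := by
    intro j
    rw [hit]
    exact hcon _
  -- the first representation
  obtain ⟨n, a, hn, ha, hsum⟩ := hrep0 0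
  obtain ⟨A, hA, hAmin⟩ := exists_min (fun i => (n i : ℤ) * a i) _ hsum
  have hQ1' : (1 : ℤ) ≤ Q := by exact_mod_cast hQ1
  have h0 : ((k * H * F ^ 2 : ℕ) : ℤ) < |∑ i ∈ A, (n i : ℤ) * a i| := by
    rw [← hA, abs_mul, abs_of_nonneg (by positivity : (0 : ℤ) ≤ Q)]
    have h1 := hbig 0
    have h4 : |T^[0] x0| ≤ Q * |T^[0] x0| := le_mul_of_one_le_left (abs_nonneg _) hQ1'
    have h5 : ((k * H * F ^ 2 : ℕ) : ℤ) ≤ ((3 ^ J + k * H * F ^ 2 : ℕ) : ℤ) := by
      exact_mod_cast Nat.le_add_left _ _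
    linarith
  obtain ⟨i, hiA, hi⟩ := exists_large A n a H ha (F ^ 2) h0
  set n0 := n i with hn0
  have hn00 : n0 ≠ 0 := by omega
  set v := padicValNat 2 n0 with hv
  have hvn : 2 ^ v ≤ n0 := Nat.le_of_dvd (by omega) pow_padicValNat_dvd
  -- following a term
  have key : ∀ t : ℕ, ∃ (n : Fin k → ℕ) (a : Fin k → ℤ) (A : Finset (Fin k)) (i : Fin k),
      (∀ i, Smooth S (n i)) ∧ (∀ i, |a i| ≤ H) ∧
      (Q : ℤ) * T^[J * t] x0 = ∑ i ∈ A, (n i : ℤ) * a i ∧
      (∀ A' ⊆ A, A'.Nonempty → ∑ i ∈ A', (n i : ℤ) * a i ≠ 0) ∧ i ∈ A ∧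
      (n0 : ℤ) * |T^[J * t] x0| ≤ (2 * R) ^ t * |x0| * n i ∧
      padicValNat 2 (n i) + 2 * l * t ≤ v := by
    intro t
    induction t with
    | zero =>
      refine ⟨n, a, A, i, hn, ha, ?_, hAmin, hiA, ?_, ?_⟩
      · simpa using hA
      · rw [Nat.mul_zero, pow_zero, one_mul, Function.iterate_zero, id, ← hn0, mul_comm]
      · rw [Nat.mul_zero, add_zero]
    | succ t ih =>
      obtain ⟨n, a, A, i, hn, ha, hA, hAmin, hiA, hsize, hval⟩ := ih
      set xt := T^[J * t] x0 with hxt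
      -- the term is large
      have hlow : |x0| ≤ |xt| := hmin _
      have hx0pos : 0 < |x0| := by
        have := hbig 0
        simp only [Function.iterate_zero, id] at this
        exact lt_of_le_of_lt (Int.natCast_nonneg _) this
      have hfar : F < n i := by
        have h1 : (n0 : ℤ) * |x0| ≤ ((2 * R) ^ t * n i) * |x0| := by
          calc (n0 : ℤ) * |x0| ≤ n0 * |xt| := mul_le_mul_of_nonneg_left hlow (Int.natCast_nonneg _)
            _ ≤ (2 * R) ^ t * |x0| * n i := hsize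
            _ = ((2 * R) ^ t * n i) * |x0| := by ring
        have h4 : (n0 : ℤ) ≤ (2 * R) ^ t * n i := le_of_mul_le_mul_right h1 hx0pos
        have h5 : n0 ≤ (2 * R) ^ t * n i := by exact_mod_cast h4
        have h6 : (2 * R) ^ t ≤ 2 ^ (l * t) := by
          rw [pow_mul]
          exact Nat.pow_le_pow_left hl2 t
        have h7 : n0 ≤ 2 ^ (l * t) * n i := h5.trans (Nat.mul_le_mul_right _ h6)
        have h8 : 2 ^ (l * t) * 2 ^ (l * t) ≤ n0 := by
          rw [← pow_add]
          refine le_trans (Nat.pow_le_pow_right (by norm_num) ?_) hvn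
          have : 2 * l * t = l * t + l * t := by ring
          omega
        have h9 : n0 * n0 ≤ n0 * (n i * n i) := by
          calc n0 * n0 ≤ (2 ^ (l * t) * n i) * (2 ^ (l * t) * n i) := Nat.mul_le_mul h7 h7
            _ = (2 ^ (l * t) * 2 ^ (l * t)) * (n i * n i) := by ring
            _ ≤ n0 * (n i * n i) := Nat.mul_le_mul_right _ h8
        have h10 : n0 ≤ n i * n i := Nat.le_of_mul_le_mul_left h9 (by omega)
        by_contra h11
        push Not at h11
        have h12 : n i * n i ≤ F ^ 2 := by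
          rw [pow_two]
          exact Nat.mul_le_mul h11 h11
        omega
      -- the next representation
      have hnext : T^[J * (t + 1)] x0 = T^[J] xt := by
        have e : J * (t + 1) = J + J * t := by ring
        rw [hxt, e, Function.iterate_add_apply]
      obtain ⟨n', a', hn', ha', hsum'⟩ := hrep0 (J * (t + 1))
      obtain ⟨B, hB, hBmin⟩ := exists_min (fun i => (n' i : ℤ) * a' i) _ hsum'
      obtain ⟨i1, hi1, s, r, hs, hsR, hr, hrR, hsr⟩ := hp J (od xt J) (cc xt J) xt (T^[J] xt) 1 Q A B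
        n n' a a' i le_rfl (cc_abs xt J) ⟨one_ne_zero, by simp⟩ hQ hn hn' ha ha' (affine xt J)
        (by rw [Nat.cast_one, mul_one]; exact hA)
        (by rw [Nat.cast_one, mul_one, ← hnext]; exact hB) hAmin hiA (by omega)
      refine ⟨n', a', B, i1, hn', ha', hB, hBmin, hi1, ?_, ?_⟩
      · rw [hnext]
        -- the sizes
        have hxtbig : (3 : ℤ) ^ J ≤ |xt| := by
          have h1 := hbig (J * t)
          push_cast at h1
          have h4 : (0 : ℤ) ≤ k * H * F ^ 2 := by positivity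
          linarith
        have h3o : (1 : ℤ) ≤ 3 ^ od xt J := one_le_pow₀ (by norm_num)
        have hup : 2 ^ J * |T^[J] xt| ≤ 2 * (3 ^ od xt J * |xt|) := by
          have e : (2 : ℤ) ^ J * |T^[J] xt| = |3 ^ od xt J * xt + cc xt J| := by
            rw [← affine xt J, abs_mul, abs_of_pos (by positivity : (0 : ℤ) < 2 ^ J)]
          rw [e]
          refine (abs_add_le _ _).trans ?_
          rw [abs_mul, abs_of_pos (by positivity : (0 : ℤ) < 3 ^ od xt J)]
          have h1 := cc_abs xt J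
          have h4 : |xt| ≤ 3 ^ od xt J * |xt| := le_mul_of_one_le_left (abs_nonneg _) h3o
          linarith
        have hlo : (3 : ℤ) ^ od xt J * n i ≤ R * (2 ^ J * n' i1) := by
          have h1 : 3 ^ od xt J * n i ≤ R * (2 ^ J * n' i1) := by
            calc 3 ^ od xt J * n i = 1 * (3 ^ od xt J * n i) := (one_mul _).symm
              _ ≤ s * (3 ^ od xt J * n i) := Nat.mul_le_mul_right _ hs
              _ = r * (2 ^ J * n' i1) := hsr
              _ ≤ R * (2 ^ J * n' i1) := Nat.mul_le_mul_right _ hrR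
          exact_mod_cast h1
        have h2J : (0 : ℤ) < 2 ^ J := by positivity
        refine le_of_mul_le_mul_left ?_ h2J
        calc (2 : ℤ) ^ J * (n0 * |T^[J] xt|) = n0 * (2 ^ J * |T^[J] xt|) := by ring
          _ ≤ n0 * (2 * (3 ^ od xt J * |xt|)) := mul_le_mul_of_nonneg_left hup (Int.natCast_nonneg _)
          _ = 2 * 3 ^ od xt J * (n0 * |xt|) := by ring
          _ ≤ 2 * 3 ^ od xt J * ((2 * R) ^ t * |x0| * n i) :=
            mul_le_mul_of_nonneg_left hsize (by positivity)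
          _ = 2 * (2 * R) ^ t * |x0| * (3 ^ od xt J * n i) := by ring
          _ ≤ 2 * (2 * R) ^ t * |x0| * (R * (2 ^ J * n' i1)) :=
            mul_le_mul_of_nonneg_left hlo (by positivity)
          _ = 2 ^ J * ((2 * R) ^ (t + 1) * |x0| * n' i1) := by ring
      · have h1 := val_step hs hsR hr (hn i).1 (hn' i1).1 hsr
        have h4 : 2 * l * (t + 1) = 2 * l * t + 2 * l := by ring
        omega
  obtain ⟨n, a, A, i, -, -, -, -, -, -, hval⟩ := key (v + 1)
  have h1 : v + 1 ≤ 2 * l * (v + 1) := Nat.le_mul_of_pos_left _ (by omega)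
  omega

end Pool.Agent.X61.CU
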