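import Mathlib
import Pool.Agent.X61.CU.Dens
import Pool.Agent.X61.CU.SPart
import Pool.Agent.X61.CU.PolyW

/-!
Divergent trajectories of the `3x+1` map.
-/

namespace Pool.Agent.X61.CU

theorem T_lo (x : ℤ) : |x| ≤ 2 * |T x| := by
  unfold T
  split_ifs with h1
  · obtain ⟨y, rfl⟩ : (2 : ℤ) ∣ x := Int.dvd_of_emod_eq_zero h1
    rw [Int.mul_ediv_cancel_left _ (by norm_num), abs_mul]
    have h2 : |(2 : ℤ)| = 2 := rfl
    rw [h2]
  · obtain ⟨y, hy⟩ : (2 : ℤ) ∣ 3 * x + 1 := by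
      apply Int.dvd_of_emod_eq_zero
      omega
    rw [hy, Int.mul_ediv_cancel_left _ (by norm_num)]
    rcases abs_cases x with h2 | h2 <;> rcases abs_cases y with h3 | h3 <;> omega

theorem T_up (x : ℤ) (hx : x ≠ 0) : |T x| ≤ 2 * |x| := by
  unfold T
  split_ifs with h1
  · obtain ⟨y, rfl⟩ : (2 : ℤ) ∣ x := Int.dvd_of_emod_eq_zero h1
    rw [Int.mul_ediv_cancel_left _ (by norm_num), abs_mul]
    have h2 : |(2 : ℤ)| = 2 := rfl
    have := abs_nonneg y
    rw [h2]
    omega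
  · obtain ⟨y, hy⟩ : (2 : ℤ) ∣ 3 * x + 1 := by
      apply Int.dvd_of_emod_eq_zero
      omega
    rw [hy, Int.mul_ediv_cancel_left _ (by norm_num)]
    rcases abs_cases x with h2 | h2 <;> rcases abs_cases y with h3 | h3 <;> omega

theorem T_lo_iter (x : ℤ) (k : ℕ) : |x| ≤ 2 ^ k * |T^[k] x| := by
  induction k with
  | zero => simp
  | succ k ih =>
    rw [Function.iterate_succ_apply']
    have h := T_lo (T^[k] x)
    calc |x| ≤ 2 ^ k * |T^[k] x| := ih
      _ ≤ 2 ^ k * (2 * |T (T^[k] x)|) := mul_le_mul_of_nonneg_left h (by positivity)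
      _ = 2 ^ (k + 1) * |T (T^[k] x)| := by rw [pow_succ]; ring

/-- windows -/
theorem cnt_window {P : ℤ → Prop} [DecidablePred P] {m : ℕ}
    (h : ∀ J : ℕ, ∃ X : ℕ, ∀ (x : ℤ) (j : ℕ), P x → P (T^[j] x) → 1 ≤ j → j < J → (X : ℤ) < |x| →
      ((Finset.range j).filter fun i => P (T^[i] x)).card ≤ m) (J : ℕ) :
    {x : ℤ | m + 1 < cnt T P x J}.Finite := by
  classical
  obtain ⟨X, hX⟩ := h J
  refine (Set.finite_Icc (-(2 ^ J * X : ℤ)) (2 ^ J * X)).subset ?_
  intro x hx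
  rw [Set.mem_Icc, ← abs_le]
  by_contra hcon
  rw [not_le] at hcon
  have hbig : ∀ i < J, (X : ℤ) < |T^[i] x| := by
    intro i hi
    have h1 := T_lo_iter x i
    have h2 : (2 : ℤ) ^ i ≤ 2 ^ J := pow_le_pow_right₀ (by norm_num) hi.le
    have h3 : (2 : ℤ) ^ i * |T^[i] x| ≤ 2 ^ J * |T^[i] x| :=
      mul_le_mul_of_nonneg_right h2 (abs_nonneg _)
    have h4 : (2 : ℤ) ^ J * X < 2 ^ J * |T^[i] x| := by linarith
    exact lt_of_mul_lt_mul_left h4 (by positivity)
  have hx' : m + 1 < ((Finset.range J).filter fun i => P (T^[i] x)).card := by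
    have e : cnt T P x J = ((Finset.range J).filter fun i => P (T^[i] x)).card := by
      unfold cnt
      congr 1
      exact Finset.filter_congr_decidable _ _ _
    rw [← e]
    exact hx
  set A := (Finset.range J).filter fun i => P (T^[i] x) with hA
  have hne : A.Nonempty := Finset.card_pos.1 (by omega)
  set i0 := A.min' hne with hi0
  set i1 := A.max' hne with hi1
  have m0 : i0 ∈ A := A.min'_mem hne
  have m1 : i1 ∈ A := A.max'_mem hne
  have p0 := Finset.mem_filter.1 m0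
  have p1 := Finset.mem_filter.1 m1
  have r0 := Finset.mem_range.1 p0.1
  have r1 := Finset.mem_range.1 p1.1
  have hle : i0 ≤ i1 := A.min'_le _ m1
  have hlt : i0 < i1 := by
    rcases Nat.lt_or_ge i0 i1 with h1 | h1
    · exact h1
    · exfalso
      have h2 : A ⊆ {i0} := by
        intro a ha
        have := A.min'_le a ha
        have := A.le_max' a ha
        rw [Finset.mem_singleton]
        omega
      have h3 := Finset.card_le_card h2
      rw [Finset.card_singleton] at h3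
      omega
  have key := hX (T^[i0] x) (i1 - i0) p0.2 (by
    rw [← Function.iterate_add_apply, show i1 - i0 + i0 = i1 by omega]
    exact p1.2) (by omega) (by omega) (hbig i0 r0)
  have h2 : A.card ≤ ((Finset.range (i1 - i0)).filter fun i => P (T^[i] (T^[i0] x))).card + 1 := by
    have h3 : A ⊆ insert i1 (((Finset.range (i1 - i0)).filter fun i =>
        P (T^[i] (T^[i0] x))).image fun i => i + i0) := by
      intro a ha
      rw [Finset.mem_insert]
      rcases eq_or_ne a i1 with h4 | h4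
      · exact Or.inl h4
      · right
        have h5 := A.min'_le a ha
        have h6 := A.le_max' a ha
        refine Finset.mem_image.2 ⟨a - i0, Finset.mem_filter.2 ⟨Finset.mem_range.2 (by omega), ?_⟩,
          by omega⟩
        rw [← Function.iterate_add_apply, show a - i0 + i0 = a by omega]
        exact (Finset.mem_filter.1 ha).2
    refine (Finset.card_le_card h3).trans ((Finset.card_insert_le _ _).trans ?_)
    exact Nat.add_le_add_right Finset.card_image_le 1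
  omega

/-- a trajectory tending to infinity is injective -/
theorem inj_of_tendsto {f : ℤ → ℤ} {x : ℤ}
    (h : Filter.Tendsto (fun k : ℕ => |f^[k] x|) Filter.atTop Filter.atTop) (i j : ℕ)
    (hij : f^[i] x = f^[j] x) : i = j := by
  by_contra hne
  wlog hlt : i < j generalizing i j
  · exact this j i hij.symm (Ne.symm hne) (by omega)
  -- the value is taken infinitely often
  have h1 : ∀ t : ℕ, f^[i + t * (j - i)] x = f^[i] x := by
    intro t
    induction t with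
    | zero => simp
    | succ t ih =>
      rw [show i + (t + 1) * (j - i) = t * (j - i) + j by rw [add_mul, one_mul]; omega,
        Function.iterate_add_apply, ← hij, ← Function.iterate_add_apply, Nat.add_comm]
      exact ih
  have h2 := (h.eventually_gt_atTop |f^[i] x|)
  obtain ⟨K, hK⟩ := Filter.eventually_atTop.1 h2
  have h3 := hK (i + K * (j - i)) (by nlinarith [Nat.mul_le_mul_left K (show 1 ≤ j - i by omega)])
  rw [h1] at h3
  exact lt_irrefl _ h3

/-- densities on divergent trajectories -/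
theorem dens_div {P : ℤ → Prop} [DecidablePred P] {m : ℕ}
    (h : ∀ J : ℕ, ∃ X : ℕ, ∀ (x : ℤ) (j : ℕ), P x → P (T^[j] x) → 1 ≤ j → j < J → (X : ℤ) < |x| →
      ((Finset.range j).filter fun i => P (T^[i] x)).card ≤ m) (x : ℤ)
    (hx : Filter.Tendsto (fun k : ℕ => |T^[k] x|) Filter.atTop Filter.atTop) :
    Filter.Tendsto (fun N : ℕ => (cnt T P x N : ℝ) / N) Filter.atTop (nhds 0) :=
  rare_inj (fun ε hε => rare_traj (cnt_window h) ε hε) x (inj_of_tendsto hx)

theorem div_odd (Γ : Subgroup ℚˣ) (hfg : Γ.FG)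
    (hΓ : ∀ g ∈ Γ, ∀ a b : ℕ, 1 ≤ a → 1 ≤ b → (g : ℚ) ≠ 3 ^ a / 2 ^ b) (C : Finset ℚ) (k : ℕ) (x : ℤ)
    (hx : Filter.Tendsto (fun k : ℕ => |T^[k] x|) Filter.atTop Filter.atTop) :
    Filter.Tendsto (fun N : ℕ => (cnt T (fun x : ℤ => x % 2 = 1 ∧ x ∈ SumsG Γ C k) x N : ℝ) / N)
      Filter.atTop (nhds 0) := by
  classical
  obtain ⟨R, hR⟩ := pairG Γ hfg C k
  obtain ⟨m, hm⟩ := bound_o Γ hΓ R
  refine dens_div (m := m) (fun J => ?_) x hx
  obtain ⟨X, hX⟩ := hR J
  refine ⟨X, fun x j hx hy _ hjJ hxX => ?_⟩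
  obtain ⟨s, t, g, hs, hsR, ht, htR, hg, he⟩ := hX x (T^[j] x) (cc x j) j (od x j) hx.2 hy.2 hjJ.le
    ((cc_abs x j).trans (pow_le_pow_right₀ (by norm_num) hjJ.le)) (affine x j) hxX
  have h1 := hm (od x j) j s t g (od_le x j) hs hsR ht htR hg he
  refine le_trans ?_ h1
  rw [od_card]
  refine Finset.card_le_card fun i hi => ?_
  rw [Finset.mem_filter] at hi ⊢
  exact ⟨hi.1, by rw [hi.2.1]; norm_num⟩

theorem div_all (Γ : Subgroup ℚˣ) (hfg : Γ.FG)
    (hΓ : ∀ g ∈ Γ, ∀ a b : ℕ, 1 ≤ b → (g : ℚ) ≠ 3 ^ a / 2 ^ b) (C : Finset ℚ) (k : ℕ) (x : ℤ)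
    (hx : Filter.Tendsto (fun k : ℕ => |T^[k] x|) Filter.atTop Filter.atTop) :
    Filter.Tendsto (fun N : ℕ => (cnt T (fun x : ℤ => x ∈ SumsG Γ C k) x N : ℝ) / N)
      Filter.atTop (nhds 0) := by
  classical
  obtain ⟨R, hR⟩ := pairG Γ hfg C k
  obtain ⟨m, hm⟩ := bound_j Γ hΓ R
  refine dens_div (m := m) (fun J => ?_) x hx
  obtain ⟨X, hX⟩ := hR J
  refine ⟨X, fun x j hx hy _ hjJ hxX => ?_⟩
  obtain ⟨s, t, g, hs, hsR, ht, htR, hg, he⟩ := hX x (T^[j] x) (cc x j) j (od x j) hx hy hjJ.le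
    ((cc_abs x j).trans (pow_le_pow_right₀ (by norm_num) hjJ.le)) (affine x j) hxX
  have h1 := hm (od x j) j s t g hs hsR ht htR hg he
  refine le_trans (Finset.card_filter_le _ _) ?_
  rw [Finset.card_range]
  exact h1

/-! ### smooth parts -/

/-- windows, odd elements -/
theorem spart_odd_w (S : Finset ℕ) (hS : ∀ p ∈ S, p.Prime) (J : ℕ) :
    ∃ X : ℕ, ∀ x : ℤ, (X : ℤ) < |x| → ∑ i ∈ Finset.range J,
      (if T^[i] x % 2 = 0 then 0 else Real.log (part S (T^[i] x))) ≤ 2 * Real.log |(x : ℝ)| := by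
  obtain ⟨X, hX⟩ := block S hS J 0 1 one_ne_zero (fun E => E ∩ Finset.range J)
    (fun E => Finset.inter_subset_right) (by
      intro E i hi j hj hij
      have h1 := cE_lt hij (Finset.mem_inter.1 hi).1
      simp only [mul_zero, sub_zero, one_mul]
      intro h2
      linarith) 1 one_pos
  refine ⟨max X 1, fun x hx => ?_⟩
  have hx1 : (X : ℤ) < |x| := lt_of_le_of_lt (by exact_mod_cast le_max_left X 1) hx
  have hx2 : (1 : ℤ) < |x| := lt_of_le_of_lt (by exact_mod_cast le_max_right X 1) hx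
  have hx0 : (0 : ℝ) < |(x : ℝ)| := by
    have : (0 : ℤ) < |x| := by linarith
    exact_mod_cast this
  obtain ⟨E, hE, hpat⟩ := exists_pat J x
  have h1 := hX x hx1 E hE hpat
  have hEJ : E ∩ Finset.range J = E := Finset.inter_eq_left.2 (Finset.mem_powerset.1 hE)
  rw [hEJ] at h1
  have h2 : ∑ i ∈ Finset.range J, (if T^[i] x % 2 = 0 then 0 else Real.log (part S (T^[i] x))) =
      ∑ i ∈ E, Real.log (part S (1 * T^[i] x - 0)) := by
    have h3 : E = (Finset.range J).filter fun i => i ∈ E := by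
      ext i
      rw [Finset.mem_filter]
      exact ⟨fun h => ⟨Finset.mem_powerset.1 hE h, h⟩, fun h => h.2⟩
    rw [h3, Finset.sum_filter]
    refine Finset.sum_congr rfl fun i hi => ?_
    have h4 := hpat i (Finset.mem_range.1 hi)
    by_cases h5 : i ∈ E
    · rw [if_pos h5, if_neg (h4.1 h5), one_mul, sub_zero]
    · rw [if_neg h5, if_pos]
      by_contra h6
      exact h5 (h4.2 h6)
  rw [h2, ← Real.log_prod fun i _ => by
    have := part_pos hS (1 * T^[i] x - 0)
    positivity]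
  have h3 : Real.log (∏ i ∈ E, (part S (1 * T^[i] x - 0) : ℝ)) ≤ Real.log (|(x : ℝ)| ^ (1 + 1 : ℝ)) := by
    refine Real.log_le_log (Finset.prod_pos fun i _ => ?_) h1
    exact_mod_cast part_pos hS _
  rw [Real.log_rpow hx0] at h3
  linarith

/-- windows, shifts -/
theorem spart_shift_w (S : Finset ℕ) (hS : ∀ p ∈ S, p.Prime) (p q : ℤ) (hq : q ≠ 0)
    (hr : ∀ w : List Bool, w ≠ [] → run w ((p : ℚ) / q) ≠ (p : ℚ) / q) (J : ℕ) :
    ∃ X : ℕ, ∀ x : ℤ, (X : ℤ) < |x| → ∑ i ∈ Finset.range J,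
      Real.log (part S (q * T^[i] x - p)) ≤ 2 * Real.log |(x : ℝ)| := by
  obtain ⟨X, hX⟩ := block S hS J p q hq (fun _ => Finset.range J) (fun _ => subset_rfl)
    (fun E i _ j _ hij => det_ne hq hr hij) 1 one_pos
  refine ⟨max X 1, fun x hx => ?_⟩
  have hx1 : (X : ℤ) < |x| := lt_of_le_of_lt (by exact_mod_cast le_max_left X 1) hx
  have hx2 : (1 : ℤ) < |x| := lt_of_le_of_lt (by exact_mod_cast le_max_right X 1) hx
  have hx0 : (0 : ℝ) < |(x : ℝ)| := by
    have : (0 : ℤ) < |x| := by linarith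
    exact_mod_cast this
  obtain ⟨E, hE, hpat⟩ := exists_pat J x
  have h1 := hX x hx1 E hE hpat
  rw [← Real.log_prod fun i _ => by
    have := part_pos hS (q * T^[i] x - p)
    positivity]
  have h3 : Real.log (∏ i ∈ Finset.range J, (part S (q * T^[i] x - p) : ℝ)) ≤
      Real.log (|(x : ℝ)| ^ (1 + 1 : ℝ)) := by
    refine Real.log_le_log (Finset.prod_pos fun i _ => ?_) h1
    exact_mod_cast part_pos hS _
  rw [Real.log_rpow hx0] at h3
  linarith

theorem T_up_R (x : ℤ) (hx : x ≠ 0) : |(T x : ℝ)| ≤ 2 * |(x : ℝ)| := by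
  exact_mod_cast T_up x hx

theorem T_lo_R (x : ℤ) (_ : x ≠ 0) : |(x : ℝ)| ≤ 2 * |(T x : ℝ)| := by
  exact_mod_cast T_lo x

/-- sums on divergent trajectories -/
theorem sum_div {h : ℤ → ℝ} (hh : ∀ x, 0 ≤ h x) (hw : ∀ J : ℕ, ∃ X : ℕ, ∀ x : ℤ, (X : ℤ) < |x| →
      ∑ i ∈ Finset.range J, h (T^[i] x) ≤ 2 * Real.log |(x : ℝ)|) (ε : ℝ) (hε : 0 < ε) (x : ℤ)
    (hx : Filter.Tendsto (fun k : ℕ => |T^[k] x|) Filter.atTop Filter.atTop) :
    ∀ᶠ N : ℕ in Filter.atTop, ∑ k ∈ Finset.range N, h (T^[k] x) ≤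
      ε * ∑ k ∈ Finset.range N, Real.log |(T^[k] x : ℝ)| :=
  sum_inj (fun ε hε => sum_traj (A := 2) (by norm_num) (by norm_num) hh T_up_R T_lo_R hw ε hε) ε hε x
    (inj_of_tendsto hx)

end Pool.Agent.X61.CU
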